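import Pool.Agent.Lib.MP_ae5b4e_an_NB2.Sys

/-!
# MP_ae5b4e_an, project NB_2: the node function `G = c / s = 1 / z + H`, bounds
-/

noncomputable section

namespace Pool.Agent.MP_ae5b4e_an_NB2

open Complex Set Filter Topology Metric
open Pool.Agent.MP_ae5b4e_an_NBT (St isOpen_St convex_St)
open Pool.Agent.Lib.MP_ae5b4e_an_LL

/-! ### real inequalities -/

theorem cosh_bound {x : ℝ} (h0 : 0 ≤ x) (h1 : x ≤ 1 / 2) :
    Real.cosh x - 1 ≤ 9 / 16 * x ^ 2 := by
  have h2 := Real.cosh_le_exp_half_sq x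
  have h3 : |x ^ 2 / 2| ≤ 1 := by
    rw [abs_of_nonneg (by positivity)]
    nlinarith
  have h4 := Real.abs_exp_sub_one_sub_id_le h3
  have h5 := (abs_le.1 h4).2
  have h6 : (x ^ 2 / 2) ^ 2 ≤ x ^ 2 / 16 := by
    have : x ^ 2 ≤ 1 / 4 := by nlinarith
    nlinarith [sq_nonneg x]
  linarith

theorem sinh_bound {x : ℝ} (h0 : 0 ≤ x) (h1 : x ≤ 1 / 2) :
    Real.sinh x - x ≤ 3 / 16 * x ^ 3 := by
  have hd : ∀ y : ℝ, HasDerivAt (fun y => y + 3 / 16 * y ^ 3 - Real.sinh y)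
      (1 + 3 / 16 * (3 * y ^ 2) - Real.cosh y) y := by
    intro y
    have h3 := (((hasDerivAt_id' y).fun_add ((hasDerivAt_pow 3 y).const_mul (3 / 16 : ℝ))).fun_sub
      (Real.hasDerivAt_sinh y))
    simpa using h3
  have hmono : MonotoneOn (fun y => y + 3 / 16 * y ^ 3 - Real.sinh y) (Icc 0 (1 / 2)) := by
    apply monotoneOn_of_deriv_nonneg (convex_Icc _ _)
      (fun y _ => (hd y).continuousAt.continuousWithinAt)
      (fun y _ => (hd y).differentiableAt.differentiableWithinAt)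
    intro y hy
    rw [interior_Icc] at hy
    rw [(hd y).deriv]
    have := cosh_bound hy.1.le hy.2.le
    linarith
  have h2 := hmono ⟨le_rfl, by norm_num⟩ ⟨h0, h1⟩ h0
  simp only [Real.sinh_zero] at h2
  linarith

variable {Y : Sys} {S : Set ℂ} {l z w : ℂ} {r : ℝ}

namespace Sys

theorem diff_Q (hY : Y.On S) (hS : IsOpen S) : DifferentiableOn ℂ Y.Q S := by
  have h1 : AnalyticOnNhd ℂ (deriv Y.y1') S := (an_y1' hY hS).deriv
  have h2 : AnalyticOnNhd ℂ (deriv Y.y2') S := (an_y2' hY hS).deriv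
  have h3 : AnalyticOnNhd ℂ (fun z => deriv Y.y2' z * Y.y1' z - deriv Y.y1' z * Y.y2' z) S :=
    (h2.mul (an_y1' hY hS)).sub (h1.mul (an_y2' hY hS))
  have h4 : EqOn Y.Q (fun z => deriv Y.y2' z * Y.y1' z - deriv Y.y1' z * Y.y2' z) S := by
    intro z hz
    have := hY.wr z hz
    simp only
    rw [(hY.d1' z hz).deriv, (hY.d2' z hz).deriv]
    linear_combination (-Y.Q z) * this
  exact h3.differentiableOn.congr h4

theorem c_bound (hY : Y.On S) (hS : IsOpen S) (hN : Y.Nod S l r) (hz : ‖z‖ < r) :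
    ‖Y.c (l + z) l - 1‖ ≤ 9 / 64 * (‖z‖ / r) ^ 2 := by
  have hr := hN.pos
  have hQ : DifferentiableOn ℂ Y.Q (ball l r) := (diff_Q hY hS).mono hN.sub
  obtain ⟨y, y', h1, h2, h3, h4, h5⟩ := exists_y1 hQ hr
  have hl : l ∈ S := hN.sub (mem_ball_self hr)
  have h6 : ∀ w ∈ ball l r, Y.c w l - y w = 0 := by
    refine ode_unique (y' := fun w => Y.cd w l - y' w) hQ.continuousOn (fun w hw => ?_)
      (fun w hw => ?_) ?_ ?_
    · exact (hasDerivAt_c hY (hN.sub hw)).sub (h1 w hw)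
    · have := (hasDerivAt_cd (l := l) hY (hN.sub hw)).sub (h2 w hw)
      convert! this using 1
      ring
    · show Y.c l l - y l = 0
      rw [c_self hY hl, h3, sub_self]
    · show Y.cd l l - y' l = 0
      rw [cd_self, h4, sub_self]
  have hzb : l + z ∈ ball l r := by simpa [mem_ball, dist_eq_norm] using hz
  have h7 := sub_eq_zero.1 (h6 _ hzb)
  rw [h7]
  have h8 := h5 (1 / (4 * r ^ 2)) r le_rfl (fun w hw => by
    rw [le_div_iff₀ (by positivity)]
    exact hN.bd w hw) _ hzb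
  have h9 : Real.sqrt (1 / (4 * r ^ 2)) = 1 / (2 * r) := by
    rw [show 1 / (4 * r ^ 2) = (1 / (2 * r)) ^ 2 by field_simp; norm_num]
    exact Real.sqrt_sq (by positivity)
  rw [h9, add_sub_cancel_left] at h8
  have h10 : 1 / (2 * r) * ‖z‖ ≤ 1 / 2 := by
    rw [div_mul_eq_mul_div, one_mul, div_le_div_iff₀ (by positivity) (by norm_num)]
    linarith
  refine h8.trans ((cosh_bound (by positivity) h10).trans (le_of_eq ?_))
  field_simp
  ring

theorem s_bound (hY : Y.On S) (hS : IsOpen S) (hN : Y.Nod S l r) (hz : ‖z‖ < r) :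
    ‖Y.s (l + z) l - z‖ ≤ 3 / 64 * (‖z‖ / r) ^ 2 * ‖z‖ := by
  have hr := hN.pos
  have hQ : DifferentiableOn ℂ Y.Q (ball l r) := (diff_Q hY hS).mono hN.sub
  obtain ⟨y, y', h1, h2, h3, h4, h5⟩ := exists_y2 hQ hr
  have hl : l ∈ S := hN.sub (mem_ball_self hr)
  have h6 : ∀ w ∈ ball l r, Y.s w l - y w = 0 := by
    refine ode_unique (y' := fun w => Y.sd w l - y' w) hQ.continuousOn (fun w hw => ?_)
      (fun w hw => ?_) ?_ ?_
    · exact (hasDerivAt_s hY (hN.sub hw)).sub (h1 w hw)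
    · have := (hasDerivAt_sd (l := l) hY (hN.sub hw)).sub (h2 w hw)
      convert! this using 1
      ring
    · show Y.s l l - y l = 0
      rw [s_self, h3, sub_self]
    · show Y.sd l l - y' l = 0
      rw [sd_self hY hl, h4, sub_self]
  have hzb : l + z ∈ ball l r := by simpa [mem_ball, dist_eq_norm] using hz
  have h7 := sub_eq_zero.1 (h6 _ hzb)
  rw [h7]
  have h8 := h5 (1 / (4 * r ^ 2)) r le_rfl (fun w hw => by
    rw [le_div_iff₀ (by positivity)]
    exact hN.bd w hw) _ hzb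
  have h9 : Real.sqrt (1 / (4 * r ^ 2)) = 1 / (2 * r) := by
    rw [show 1 / (4 * r ^ 2) = (1 / (2 * r)) ^ 2 by field_simp; norm_num]
    exact Real.sqrt_sq (by positivity)
  rw [h9, add_sub_cancel_left] at h8
  have h10 : 1 / (2 * r) * ‖z‖ ≤ 1 / 2 := by
    rw [div_mul_eq_mul_div, one_mul, div_le_div_iff₀ (by positivity) (by norm_num)]
    linarith
  have h11 := h8.trans (sinh_bound (by positivity) h10)
  have h12 : (1 / (2 * r)) * ‖y (l + z) - z‖ ≤
      (1 / (2 * r)) * (3 / 64 * (‖z‖ / r) ^ 2 * ‖z‖) := by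
    refine h11.trans (le_of_eq ?_)
    field_simp
    ring
  exact le_of_mul_le_mul_left h12 (by positivity)

/-- the kernel does not vanish in the node disc -/
theorem s_ne_zero (hY : Y.On S) (hS : IsOpen S) (hN : Y.Nod S l r) (hz : ‖z‖ < r)
    (h0 : z ≠ 0) : Y.s (l + z) l ≠ 0 := by
  intro h
  have hr := hN.pos
  have h1 := s_bound hY hS hN hz
  rw [h, zero_sub, norm_neg] at h1
  have h2 : 0 < ‖z‖ := norm_pos_iff.2 h0
  have h3 : (‖z‖ / r) ^ 2 ≤ 1 := by
    rw [sq_le_one_iff_abs_le_one, abs_of_nonneg (by positivity), div_le_one hr]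
    exact hz.le
  nlinarith

end Sys

/-- a second order Schwarz lemma -/
theorem schwarz_two {f : ℂ → ℂ} {r B : ℝ} (hf : DifferentiableOn ℂ f (ball 0 r))
    (hB : ∀ z ∈ ball (0:ℂ) r, ‖f z‖ ≤ B) (h0 : f 0 = 0) (h1 : deriv f 0 = 0) {z : ℂ}
    (hz : z ∈ ball (0:ℂ) r) : ‖f z‖ ≤ B * (‖z‖ / r) ^ 2 := by
  have hr : 0 < r := pos_of_mem_ball hz
  have hd : HasDerivAt f 0 0 := by
    have := (hf.differentiableAt (isOpen_ball.mem_nhds (mem_ball_self hr))).hasDerivAt
    rwa [h1] at this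
  have h2 := Complex.dist_le_mul_div_pow_of_mapsTo_ball_of_isLittleO (n := 1) hf
    (R₂ := B) (fun w hw => by
      rw [h0, mem_closedBall_zero_iff]
      exact hB w hw) (by
      have h3 := hd.isLittleO
      simp only [smul_zero, sub_zero, h0] at h3
      simpa [h0] using h3.norm_right) hz
  simpa [h0, dist_eq_norm] using h2

/-- **the node function** -/
theorem exists_H (hY : Y.On S) (hS : IsOpen S) (hN : Y.Nod S l r) :
    ∃ H : ℂ → ℂ, DifferentiableOn ℂ H (ball 0 r) ∧ H 0 = 0 ∧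
      (∀ z ∈ ball (0:ℂ) r, z ≠ 0 → Y.c (l + z) l / Y.s (l + z) l = z⁻¹ + H z) ∧
      (∀ z ∈ ball (0:ℂ) r, ‖H z‖ ≤ 1 / 5 * ‖z‖ / r ^ 2) ∧
      (∀ z ∈ ball (0:ℂ) (r / 2), ∀ w ∈ ball (0:ℂ) (r / 2),
        ‖H z - H w‖ ≤ 2 / 5 * ‖z - w‖ / r ^ 2) ∧
      ∀ z ∈ ball (0:ℂ) r, ‖H z + H (-z)‖ ≤ 2 / 5 * ‖z‖ ^ 2 / r ^ 3 := by
  have hr := hN.pos
  have hl : l ∈ S := hN.sub (mem_ball_self hr)
  have hmem : ∀ z ∈ ball (0:ℂ) r, l + z ∈ S := fun z hz => hN.sub (by
    rw [mem_ball_zero_iff] at hz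
    simpa [mem_ball, dist_eq_norm] using hz)
  set f : ℂ → ℂ := fun z => Y.s (l + z) l with hf
  have hfd : DifferentiableOn ℂ f (ball 0 r) := by
    intro z hz
    have h1 := Sys.hasDerivAt_s (l := l) hY (hmem z hz)
    exact (h1.comp_const_add l z).differentiableAt.differentiableWithinAt
  have hf0 : f 0 = 0 := by simp [hf, Sys.s_self]
  set g : ℂ → ℂ := dslope f 0 with hg
  have hnhds : ball (0:ℂ) r ∈ 𝓝 (0:ℂ) := isOpen_ball.mem_nhds (mem_ball_self hr)
  have hgd : DifferentiableOn ℂ g (ball 0 r) := (Complex.differentiableOn_dslope hnhds).2 hfd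
  have hgz : ∀ z, z ≠ 0 → f z = z * g z := by
    intro z hz
    rw [hg, dslope_of_ne _ hz, slope_def_field, hf0]
    field_simp
    ring
  have hg0 : g 0 = 1 := by
    rw [hg, dslope_same]
    have h1 := Sys.hasDerivAt_s (l := l) hY hl
    have h2 : HasDerivAt f (Y.sd l l) 0 := by
      have h3 : HasDerivAt (fun w => Y.s w l) (Y.sd l l) (l + 0) := by rwa [add_zero]
      exact h3.comp_const_add l 0
    rw [h2.deriv, Sys.sd_self hY hl]
  -- bounds for `g`
  have hgb : ∀ z ∈ ball (0:ℂ) r, ‖g z - 1‖ ≤ 3 / 64 * (‖z‖ / r) ^ 2 := by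
    intro z hz
    rcases eq_or_ne z 0 with rfl | h0
    · simp [hg0]
    · have h1 := Sys.s_bound hY hS hN (mem_ball_zero_iff.1 hz)
      have h2 : f z - z = z * (g z - 1) := by
        rw [hgz z h0]
        ring
      change ‖f z - z‖ ≤ _ at h1
      rw [h2, norm_mul] at h1
      have h3 : 0 < ‖z‖ := norm_pos_iff.2 h0
      have h4 : ‖z‖ * ‖g z - 1‖ ≤ ‖z‖ * (3 / 64 * (‖z‖ / r) ^ 2) := by
        refine h1.trans (le_of_eq ?_)
        ring
      exact le_of_mul_le_mul_left h4 h3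
  have hle1 : ∀ z ∈ ball (0:ℂ) r, (‖z‖ / r) ^ 2 ≤ 1 := by
    intro z hz
    rw [mem_ball_zero_iff] at hz
    rw [sq_le_one_iff_abs_le_one, abs_of_nonneg (by positivity), div_le_one hr]
    exact hz.le
  have hgn : ∀ z ∈ ball (0:ℂ) r, 61 / 64 ≤ ‖g z‖ := by
    intro z hz
    have h1 := hgb z hz
    have h2 := hle1 z hz
    have h3 : ‖(1:ℂ)‖ - ‖g z - 1‖ ≤ ‖1 + (g z - 1)‖ := by
      have := norm_sub_norm_le (1:ℂ) (-(g z - 1))
      rw [norm_neg, sub_neg_eq_add] at this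
      exact this
    rw [norm_one, add_sub_cancel] at h3
    linarith
  have hgne : ∀ z ∈ ball (0:ℂ) r, g z ≠ 0 := fun z hz h => by
    have := hgn z hz
    rw [h, norm_zero] at this
    linarith
  -- the numerator
  set N : ℂ → ℂ := fun z => Y.c (l + z) l - g z with hNdef
  have hNd : DifferentiableOn ℂ N (ball 0 r) := by
    intro z hz
    have h1 := Sys.hasDerivAt_c (l := l) hY (hmem z hz)
    exact (h1.comp_const_add l z).differentiableAt.differentiableWithinAt.sub (hgd z hz)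
  have hN0 : N 0 = 0 := by simp [hNdef, hg0, Sys.c_self hY hl]
  have hNb : ∀ z ∈ ball (0:ℂ) r, ‖N z‖ ≤ 3 / 16 * (‖z‖ / r) ^ 2 := by
    intro z hz
    have h1 := Sys.c_bound hY hS hN (mem_ball_zero_iff.1 hz)
    have h2 := hgb z hz
    have h3 : N z = (Y.c (l + z) l - 1) - (g z - 1) := by simp [hNdef]
    rw [h3]
    refine (norm_sub_le _ _).trans ?_
    linarith
  set H : ℂ → ℂ := fun z => dslope N 0 z / g z with hH
  have hHd : DifferentiableOn ℂ H (ball 0 r) :=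
    ((Complex.differentiableOn_dslope hnhds).2 hNd).div hgd hgne
  have hHz : ∀ z ∈ ball (0:ℂ) r, z ≠ 0 → z * g z * H z = N z := by
    intro z hz h0
    simp only [hH]
    rw [dslope_of_ne _ h0, slope_def_field, hN0]
    have := hgne z hz
    field_simp
    ring
  have hHb' : ∀ z ∈ ball (0:ℂ) r, z ≠ 0 → ‖H z‖ ≤ 1 / 5 * ‖z‖ / r ^ 2 := by
    intro z hz h0
    have h1 := hHz z hz h0
    have h2 := hNb z hz
    rw [← h1, norm_mul, norm_mul] at h2
    have h3 : 0 < ‖z‖ := norm_pos_iff.2 h0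
    have h4 := hgn z hz
    have h5 : ‖z‖ * ((61 / 64) * ‖H z‖) ≤ ‖z‖ * (3 / 16 * ‖z‖ / r ^ 2) := by
      calc ‖z‖ * ((61 / 64) * ‖H z‖) ≤ ‖z‖ * ‖g z‖ * ‖H z‖ := by
            rw [mul_assoc]
            gcongr
        _ ≤ 3 / 16 * (‖z‖ / r) ^ 2 := h2
        _ = ‖z‖ * (3 / 16 * ‖z‖ / r ^ 2) := by ring
    have h6 := le_of_mul_le_mul_left h5 h3
    have h7 : 0 ≤ ‖z‖ / r ^ 2 := by positivity
    have h8 : 3 / 16 * ‖z‖ / r ^ 2 = 3 / 16 * (‖z‖ / r ^ 2) := by ring
    have h9 : 1 / 5 * ‖z‖ / r ^ 2 = 1 / 5 * (‖z‖ / r ^ 2) := by ring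
    rw [h8] at h6
    rw [h9]
    linarith
  have hH0 : H 0 = 0 := by
    have hc : ContinuousAt H 0 := (hHd.differentiableAt hnhds).continuousAt
    have h1 : Tendsto H (𝓝[≠] 0) (𝓝 (H 0)) := hc.tendsto.mono_left nhdsWithin_le_nhds
    have h2 : Tendsto (fun z : ℂ => 1 / 5 * ‖z‖ / r ^ 2) (𝓝[≠] 0) (𝓝 0) := by
      have h3 : Continuous fun z : ℂ => 1 / 5 * ‖z‖ / r ^ 2 := by fun_prop
      have h4 := (h3.tendsto (0:ℂ)).mono_left (nhdsWithin_le_nhds (s := {(0:ℂ)}ᶜ))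
      simpa using h4
    have h3 : Tendsto H (𝓝[≠] 0) (𝓝 0) := by
      apply squeeze_zero_norm' _ h2
      filter_upwards [self_mem_nhdsWithin, mem_nhdsWithin_of_mem_nhds hnhds] with z hz1 hz2
      exact hHb' z hz2 hz1
    exact tendsto_nhds_unique h1 h3
  have hHb : ∀ z ∈ ball (0:ℂ) r, ‖H z‖ ≤ 1 / 5 * ‖z‖ / r ^ 2 := by
    intro z hz
    rcases eq_or_ne z 0 with rfl | h0
    · simp [hH0]
    · exact hHb' z hz h0
  have hHsup : ∀ z ∈ ball (0:ℂ) r, ‖H z‖ ≤ 1 / (5 * r) := by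
    intro z hz
    refine (hHb z hz).trans ?_
    rw [mem_ball_zero_iff] at hz
    rw [div_le_div_iff₀ (by positivity) (by positivity)]
    nlinarith
  refine ⟨H, hHd, hH0, ?_, hHb, ?_, ?_⟩
  · intro z hz h0
    have h1 := hHz z hz h0
    have h2 := hgne z hz
    have h3 : Y.c (l + z) l = N z + g z := by simp [hNdef]
    have h4 : Y.s (l + z) l = z * g z := hgz z h0
    rw [h3, h4, ← h1]
    field_simp
    ring
  · -- Lipschitz
    intro z hz w hw
    have hderiv : ∀ ζ ∈ ball (0:ℂ) (r / 2), ‖deriv H ζ‖ ≤ 2 / 5 / r ^ 2 := by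
      intro ζ hζ
      have hsub : ball ζ (r / 2) ⊆ ball 0 r := by
        apply ball_subset_ball'
        rw [mem_ball] at hζ
        linarith
      have h1 : DifferentiableOn ℂ (fun x => H x - H ζ) (ball ζ (r / 2)) :=
        (hHd.mono hsub).sub_const _
      have h2 : ∀ ρ ∈ Ioo 0 (r / 2), ‖deriv H ζ‖ ≤ 1 / (5 * r) / ρ := by
        intro ρ hρ
        have hcl : closedBall ζ ρ ⊆ ball ζ (r / 2) := closedBall_subset_ball hρ.2
        refine Complex.norm_deriv_le_of_forall_mem_sphere_norm_le hρ.1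
          ((hHd.mono (hcl.trans hsub)).diffContOnCl_ball le_rfl)
          fun x hx => hHsup x (hsub (hcl (sphere_subset_closedBall hx)))
      have h3 : Tendsto (fun ρ : ℝ => 1 / (5 * r) / ρ) (𝓝[<] (r / 2))
          (𝓝 (1 / (5 * r) / (r / 2))) := by
        have : ContinuousAt (fun ρ : ℝ => 1 / (5 * r) / ρ) (r / 2) :=
          continuousAt_const.div continuousAt_id (by positivity)
        exact this.tendsto.mono_left nhdsWithin_le_nhds
      have h4 : ‖deriv H ζ‖ ≤ 1 / (5 * r) / (r / 2) := by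
        apply ge_of_tendsto h3
        filter_upwards [Ioo_mem_nhdsLT (show (0:ℝ) < r / 2 by positivity)] with ρ hρ
        exact h2 ρ hρ
      refine h4.trans (le_of_eq ?_)
      field_simp
    have h5 := (convex_ball (0:ℂ) (r / 2)).norm_image_sub_le_of_norm_deriv_le
      (f := H) (C := 2 / 5 / r ^ 2) (fun x hx => hHd.differentiableAt (isOpen_ball.mem_nhds
        (ball_subset_ball (by linarith) hx))) hderiv hw hz
    refine h5.trans (le_of_eq ?_)
    ring
  · -- the even part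
    intro z hz
    have hneg : ∀ z ∈ ball (0:ℂ) r, -z ∈ ball (0:ℂ) r := fun z hz => by
      rw [mem_ball_zero_iff] at hz ⊢
      rwa [norm_neg]
    have hEd : DifferentiableOn ℂ (fun z => H z + H (-z)) (ball 0 r) :=
      hHd.add (hHd.comp differentiable_neg.differentiableOn hneg)
    have hE1 : deriv (fun z => H z + H (-z)) 0 = 0 := by
      have h1 : HasDerivAt H (deriv H 0) 0 := (hHd.differentiableAt hnhds).hasDerivAt
      have h2 : HasDerivAt (fun z => H (-z)) (-deriv H 0) 0 := by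
        have h3 : HasDerivAt H (deriv H 0) (-0) := by rwa [neg_zero]
        have h4 := h3.scomp (0:ℂ) (hasDerivAt_neg (0:ℂ))
        have h5 : (H ∘ Neg.neg) = fun z => H (-z) := rfl
        rw [h5] at h4
        simpa using h4
      simpa using (h1.fun_add h2).deriv
    have h1 := schwarz_two hEd (B := 2 / (5 * r)) (fun w hw => by
      refine (norm_add_le _ _).trans ?_
      have h2 := hHsup w hw
      have h3 := hHsup (-w) (hneg w hw)
      have h4 : 2 / (5 * r) = 1 / (5 * r) + 1 / (5 * r) := by ring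
      linarith) (by simp [hH0]) hE1 hz
    refine h1.trans (le_of_eq ?_)
    field_simp

end Pool.Agent.MP_ae5b4e_an_NB2
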