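import Mathlib
import Pool.Agent.Lib.MP_ae5b4e_an_NBT.Defs
import Pool.Agent.Lib.MP_ae5b4e_an_LL.Rad

/-!
# MP_ae5b4e_an, project NB_2: definitions

A linear system `y'' + Q y = 0` with a fundamental system on the strip, its kernel, the node
relation, the label near the line `η = 0`, the condition `|Q| d ^ 2 ≤ q ^ 2` over an arc of the
upper boundary line.
-/

noncomputable section

namespace Pool.Agent.MP_ae5b4e_an_NB2

open Complex Set Filter Topology Metric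
open Pool.Agent.MP_ae5b4e_an_NBT (St)
open Pool.Agent.Lib.MP_ae5b4e_an_LL (ExtH hdom)

/-- the data of a fundamental system of `y'' + Q y = 0` -/
structure Sys where
  Q : ℂ → ℂ
  y1 : ℂ → ℂ
  y1' : ℂ → ℂ
  y2 : ℂ → ℂ
  y2' : ℂ → ℂ

namespace Sys

/-- the functions are solutions on `S`, with Wronskian one -/
structure On (Y : Sys) (S : Set ℂ) : Prop where
  d1 : ∀ z ∈ S, HasDerivAt Y.y1 (Y.y1' z) z
  d1' : ∀ z ∈ S, HasDerivAt Y.y1' (-(Y.Q z * Y.y1 z)) z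
  d2 : ∀ z ∈ S, HasDerivAt Y.y2 (Y.y2' z) z
  d2' : ∀ z ∈ S, HasDerivAt Y.y2' (-(Y.Q z * Y.y2 z)) z
  wr : ∀ z ∈ S, Y.y1 z * Y.y2' z - Y.y1' z * Y.y2 z = 1

/-- the solution in `w` with initial values `0, 1` at `l`; it is `(F w - F l) / √(F' w F' l)` for
`F = y2 / y1` -/
def s (Y : Sys) (w l : ℂ) : ℂ := Y.y1 l * Y.y2 w - Y.y2 l * Y.y1 w

/-- the solution in `w` with initial values `1, 0` at `l` -/
def c (Y : Sys) (w l : ℂ) : ℂ := Y.y2' l * Y.y1 w - Y.y1' l * Y.y2 w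

/-- the node relation for the labels `u, l, v`: `c (u, l) / s (u, l) + c (v, l) / s (v, l) = 0` -/
def node (Y : Sys) (l u v : ℂ) : Prop := Y.c u l * Y.s v l + Y.c v l * Y.s u l = 0

/-- node radius: `|Q| ≤ 1 / (4 r ^ 2)` on the disc of radius `r` about `l` -/
structure Nod (Y : Sys) (S : Set ℂ) (l : ℂ) (r : ℝ) : Prop where
  pos : 0 < r
  sub : ball l r ⊆ S
  bd : ∀ z ∈ ball l r, ‖Y.Q z‖ * (4 * r ^ 2) ≤ 1

end Sys

/-- The label `L` near the line `η = 0`, for the strip of height `h`. -/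
structure Lab (Y : Sys) (h : ℝ) (L : ℂ × ℂ → ℂ) : Prop where
  h_pos : 0 < h
  on : Y.On (St (-h) h)
  an : ∀ t ∈ St (-h) h, AnalyticAt ℂ L (t, 0)
  zero : ∀ t ∈ St (-h) h, L (t, 0) = t
  even : ∀ t ∈ St (-h) h, ∀ᶠ p : ℂ × ℂ in 𝓝 (t, 0), L (p.1, -p.2) = L p
  node : ∀ t ∈ St (-h) h, ∀ᶠ p : ℂ × ℂ in 𝓝 (t, 0),
    Y.node (L p) (L (p.1 + p.2, p.2)) (L (p.1 - p.2, p.2))

/-- the depth below the upper boundary line -/
def dep (h : ℝ) (t : ℂ) : ℝ := h - t.im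

/-- condition (B) over the arc `|Re t - b| < l`: `|Q| d ^ 2 ≤ q ^ 2` -/
structure Arc (Y : Sys) (h b l q : ℝ) : Prop where
  l_pos : 0 < l
  l_le : l ≤ h / 2
  q_one : 1 ≤ q
  bd : ∀ t : ℂ, |t.re - b| < l → 0 < dep h t → dep h t < l → ‖Y.Q t‖ * dep h t ^ 2 ≤ q ^ 2

/-- `L` extends, with values in the strip, near `{t} × {|η| < s}` -/
def LReg (h : ℝ) (L : ℂ × ℂ → ℂ) (s : ℝ) (t : ℂ) : Prop := ExtH L 0 (St (-h) h) s t

/-- `M` is the maximal extension of the label `L` to the points `(t, η)` which are regular together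
with the disc of radius `|η|` -/
structure IsExt (h : ℝ) (L M : ℂ × ℂ → ℂ) : Prop where
  an : AnalyticOnNhd ℂ M (hdom L 0 (St (-h) h))
  maps : MapsTo M (hdom L 0 (St (-h) h)) (St (-h) h)
  eq : ∀ t, (t, (0:ℂ)) ∈ hdom L 0 (St (-h) h) → ∀ᶠ p in 𝓝 (t, (0:ℂ)), M p = L p

end Pool.Agent.MP_ae5b4e_an_NB2
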