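import Pool.Agent.Lib.MP_ae5b4e_an_NB2.Deep

/-!
# MP_ae5b4e_an, project NB_2: the label is close to the point
-/

noncomputable section

namespace Pool.Agent.MP_ae5b4e_an_NB2

open Complex Set Filter Topology Metric
open Pool.Agent.MP_ae5b4e_an_NBT (St isOpen_St convex_St)
open Pool.Agent.Lib.MP_ae5b4e_an_LL

/-- the label is close to the point (2.12) -/
theorem label_est {Y : Sys} {h r : ℝ} {L M : ℂ × ℂ → ℂ} (hL : Lab Y h L) (hM : IsExt h L M)
    {t η : ℂ} (ht : t ∈ St (-h) h) (hr : LReg h L r t) (hη : ‖η‖ ≤ r / 3) (hr0 : 0 < r) :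
    ‖M (t, η) - t‖ ≤ 3 * (‖η‖ / r) ^ 2 * dep h t := by
  have hd0 : 0 < dep h t := sub_pos.2 ht.2
  obtain ⟨d, hd⟩ : ∃ d, d = dep h t := ⟨_, rfl⟩
  rw [← hd] at hd0 ⊢
  have hdh : d = h - t.im := hd
  obtain ⟨t', ht'⟩ : ∃ t' : ℂ, t' = t + ((2 * d : ℝ) : ℂ) * I := ⟨_, rfl⟩
  have hre' : t'.re = t.re := by simp [ht']
  have him' : t'.im = t.im + 2 * d := by simp [ht']
  have htt' : ‖t - t'‖ = 2 * d := by
    rw [ht', sub_add_cancel_left, norm_neg, norm_mul, norm_I, mul_one, Complex.norm_real,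
      Real.norm_of_nonneg (by positivity)]
  have key : ∀ ζ ∈ ball (0:ℂ) r, ‖M (t, ζ) - t‖ ≤ ‖M (t, ζ) - t'‖ ∧ M (t, ζ) - t' ≠ 0 := by
    intro ζ hζ
    have hm := hM.maps (mem_hdom_of_lreg hr (mem_ball_zero_iff.1 hζ))
    obtain ⟨m, hmm⟩ : ∃ m, m = M (t, ζ) := ⟨_, rfl⟩
    rw [← hmm] at hm ⊢
    have h1 : m.im < h := hm.2
    constructor
    · rw [← sq_le_sq₀ (norm_nonneg _) (norm_nonneg _), Complex.sq_norm, Complex.sq_norm,
        Complex.normSq_apply, Complex.normSq_apply, sub_re, sub_im, sub_re, sub_im, hre', him']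
      nlinarith
    · intro h4
      have h5 := congrArg Complex.im h4
      rw [sub_im, him', zero_im] at h5
      linarith
  have hdiff : DifferentiableOn ℂ (fun ζ => (M (t, ζ) - t) / (M (t, ζ) - t')) (ball 0 r) := by
    have h1 := hM.diff_snd hr
    exact (h1.sub_const t).div (h1.sub_const t') fun ζ hζ => (key ζ hζ).2
  set f : ℂ → ℂ := fun ζ => (M (t, ζ) - t) / (M (t, ζ) - t') with hf
  have h0 : f 0 = 0 := by
    simp only [hf]
    rw [hM.zero hL ht, sub_self, zero_div]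
  have hb : ∀ ζ ∈ ball (0:ℂ) r, ‖f ζ‖ ≤ 1 := by
    intro ζ hζ
    simp only [hf]
    rw [norm_div]
    exact div_le_one_of_le₀ (key ζ hζ).1 (norm_nonneg _)
  have hd1 : deriv f 0 = 0 := by
    have e1 : f =ᶠ[𝓝 0] fun ζ => f (-ζ) := by
      filter_upwards [isOpen_ball.mem_nhds (mem_ball_self hr0)] with ζ hζ
      simp only [hf]
      rw [hM.even hL ht hr (mem_ball_zero_iff.1 hζ)]
    have e2 : HasDerivAt f (deriv f 0) 0 :=
      (hdiff.differentiableAt (isOpen_ball.mem_nhds (mem_ball_self hr0))).hasDerivAt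
    have e3 : HasDerivAt f (deriv f 0) (-(0:ℂ)) := by
      rw [neg_zero]
      exact e2
    have e4 := (e3.scomp (0:ℂ) (hasDerivAt_neg (0:ℂ))).congr_of_eventuallyEq e1
    have e5 := e2.unique e4
    simp only [neg_smul, one_smul] at e5
    have e6 : (2:ℂ) * deriv f 0 = 0 := by linear_combination e5
    exact (mul_eq_zero.1 e6).resolve_left two_ne_zero
  have hηb : η ∈ ball (0:ℂ) r := by
    rw [mem_ball_zero_iff]
    linarith
  have h1 := schwarz_two hdiff hb h0 hd1 hηb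
  rw [one_mul] at h1
  obtain ⟨x, hxx⟩ : ∃ x, x = (‖η‖ / r) ^ 2 := ⟨_, rfl⟩
  have hx : x ≤ 1 / 9 := by
    have h2 : ‖η‖ / r ≤ 1 / 3 := by
      rw [div_le_div_iff₀ hr0 (by norm_num)]
      linarith
    have h3 : 0 ≤ ‖η‖ / r := by positivity
    rw [hxx]
    nlinarith
  rw [← hxx] at h1 ⊢
  have h2 : ‖M (t, η) - t‖ = ‖f η‖ * ‖M (t, η) - t'‖ := by
    simp only [hf]
    rw [norm_div, div_mul_cancel₀]
    exact norm_ne_zero_iff.2 (key η hηb).2
  have h3 : ‖M (t, η) - t'‖ ≤ ‖M (t, η) - t‖ + 2 * d := by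
    rw [← htt']
    exact norm_sub_le_norm_sub_add_norm_sub _ _ _
  obtain ⟨a, ha⟩ : ∃ a, a = ‖M (t, η) - t‖ := ⟨_, rfl⟩
  obtain ⟨b, hbb⟩ : ∃ b, b = ‖M (t, η) - t'‖ := ⟨_, rfl⟩
  rw [← ha, ← hbb] at h2 h3
  rw [← ha]
  have ha0 : 0 ≤ a := by rw [ha]; exact norm_nonneg _
  have hb0 : 0 ≤ b := by rw [hbb]; exact norm_nonneg _
  have h4 : a ≤ x * (a + 2 * d) := by
    rw [h2]
    calc ‖f η‖ * b ≤ x * b := mul_le_mul_of_nonneg_right h1 hb0
      _ ≤ x * (‖f η‖ * b + 2 * d) := by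
          rw [← h2]
          exact mul_le_mul_of_nonneg_left h3 ((norm_nonneg _).trans h1)
  have hx0 : 0 ≤ x := (norm_nonneg _).trans h1
  nlinarith [mul_nonneg hx0 hd0.le, mul_le_mul_of_nonneg_right hx ha0]

end Pool.Agent.MP_ae5b4e_an_NB2
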