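import Pool.Agent.Lib.MP_ae5b4e_an_LL.Two
import Pool.Agent.Lib.MP_ae5b4e_an_LL.Rad

/-!
# MP_ae5b4e_an, project NB_2: the two constants estimate for a radius on an annulus
-/

noncomputable section

namespace Pool.Agent.MP_ae5b4e_an_NB2

open Complex Set Filter Topology Metric
open Pool.Agent.Lib.MP_ae5b4e_an_LL

/-- the two constants estimate: a radius which is log superharmonic near a closed annulus, at
least `2 x / 25` everywhere on it and at least `59 x / 20` on its inner circle, is larger than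
`11 x / 100` at the point considered -/
theorem annulus_gain {Φ : ℂ × ℂ → ℂ} {η₀ c₀ t₀ : ℂ} {Ω : Set ℂ} {l₁ w₀ x : ℝ}
    (hx : 0 < x) (hw : 0 < w₀) (hw1 : w₀ < l₁ / 100)
    (ht₀ : dist t₀ c₀ = l₁ - w₀)
    (h1 : ∀ t, l₁ - 4 * w₀ ≤ dist t c₀ → dist t c₀ ≤ l₁ - w₀ / 2 →
      ExtH Φ η₀ Ω (2 * x / 25) t)
    (h2 : ∀ t, dist t c₀ = l₁ - 4 * w₀ → ∀ s < 59 * x / 20, ExtH Φ η₀ Ω s t) :
    ∃ s > 11 * x / 100, ExtH Φ η₀ Ω s t₀ := by
  set Y : ℝ := 59 * x / 20 with hYd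
  have hY : 0 < Y := by positivity
  have hl : 0 < l₁ := by linarith
  have hr1 : 0 < l₁ - 4 * w₀ := by linarith
  have hr12 : l₁ - 4 * w₀ < l₁ - w₀ / 2 := by linarith
  have hx25 : 0 < 2 * x / 25 := by positivity
  set V : Set ℂ := {t | ∃ s > 0, ExtH Φ η₀ Ω s t} with hV
  have hVo : IsOpen V := by
    rw [isOpen_iff_mem_nhds]
    rintro t ⟨s, hs, h⟩
    filter_upwards [h.eventually] with t' ht'
    exact ⟨s, hs, ht'⟩
  have hu : SubH (fun t => -Real.log (hrad Φ η₀ Ω Y t)) V :=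
    subH_neg_log_hrad hVo hY fun t ht => ht
  have hsub : closedBall c₀ (l₁ - w₀ / 2) \ ball c₀ (l₁ - 4 * w₀) ⊆ V := by
    rintro t ⟨ht1, ht2⟩
    rw [mem_closedBall] at ht1
    rw [mem_ball, not_lt] at ht2
    exact ⟨_, hx25, h1 t ht2 ht1⟩
  have hsub2 : ball c₀ (l₁ - w₀ / 2) \ closedBall c₀ (l₁ - 4 * w₀) ⊆ V := by
    rintro t ⟨ht1, ht2⟩
    rw [mem_ball] at ht1
    rw [mem_closedBall, not_le] at ht2
    exact ⟨_, hx25, h1 t ht2.le ht1.le⟩
  have hM1 : ∀ z ∈ sphere c₀ (l₁ - 4 * w₀), -Real.log (hrad Φ η₀ Ω Y z) ≤ -Real.log Y := by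
    intro z hz
    rw [mem_sphere] at hz
    have h3 : Y ≤ hrad Φ η₀ Ω Y z := by
      refine le_of_forall_lt fun s hs => ?_
      rcases le_or_gt s 0 with h0 | h0
      · have h4 : ∃ s > 0, ExtH Φ η₀ Ω s z := ⟨_, hx25, h1 z hz.ge (by linarith)⟩
        exact h0.trans_lt (hrad_pos hY h4)
      · obtain ⟨s', hs1, hs2⟩ := exists_between hs
        exact hs1.trans_le (le_hrad (h0.trans hs1) hs2.le (h2 z hz s' hs2))
    exact neg_le_neg (Real.log_le_log hY h3)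
  have hM2 : ∀ z ∈ sphere c₀ (l₁ - w₀ / 2),
      -Real.log (hrad Φ η₀ Ω Y z) ≤ -Real.log (2 * x / 25) := by
    intro z hz
    rw [mem_sphere] at hz
    have h3 : 2 * x / 25 ≤ hrad Φ η₀ Ω Y z :=
      le_hrad hx25 (by rw [hYd]; linarith) (h1 z (by linarith) hz.le)
    exact neg_le_neg (Real.log_le_log hx25 h3)
  have hann := SubH.le_annulus hr1 hr12 (hu.usc.mono hsub) (hu.mono hsub2) hM1 hM2 (z := t₀)
    (by rw [ht₀]; linarith) (by rw [ht₀]; linarith)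
  rw [ht₀] at hann
  -- the logarithms
  have hw2 : 0 < l₁ - w₀ := by linarith
  have hw3 : 0 < l₁ - w₀ / 2 := by linarith
  have hX : Real.log ((l₁ - w₀) / (l₁ - 4 * w₀)) ≤ 3 * w₀ / (l₁ - 4 * w₀) := by
    have h3 := Real.log_le_sub_one_of_pos (div_pos hw2 hr1)
    have h4 : (l₁ - w₀) / (l₁ - 4 * w₀) - 1 = 3 * w₀ / (l₁ - 4 * w₀) := by
      rw [div_sub_one hr1.ne']
      congr 1
      ring
    rwa [h4] at h3
  have hZ : w₀ / 2 / (l₁ - w₀ / 2) ≤ Real.log ((l₁ - w₀ / 2) / (l₁ - w₀)) := by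
    have h3 := Real.log_le_sub_one_of_pos (div_pos hw2 hw3)
    have h4 : (l₁ - w₀) / (l₁ - w₀ / 2) - 1 = -(w₀ / 2 / (l₁ - w₀ / 2)) := by
      rw [div_sub_one hw3.ne', ← neg_div]
      congr 1
      ring
    rw [h4] at h3
    have h5 : Real.log ((l₁ - w₀ / 2) / (l₁ - w₀)) = -Real.log ((l₁ - w₀) / (l₁ - w₀ / 2)) := by
      rw [← Real.log_inv, inv_div]
    rw [h5]
    linarith
  have hXZ : Real.log ((l₁ - w₀ / 2) / (l₁ - 4 * w₀)) =
      Real.log ((l₁ - w₀) / (l₁ - 4 * w₀)) + Real.log ((l₁ - w₀ / 2) / (l₁ - w₀)) := by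
    rw [← Real.log_mul (div_pos hw2 hr1).ne' (div_pos hw3 hw2).ne']
    congr 1
    field_simp
  have hcmp : 3 * w₀ / (l₁ - 4 * w₀) ≤ 7 * (w₀ / 2 / (l₁ - w₀ / 2)) := by
    rw [← mul_div_assoc, div_le_div_iff₀ hr1 hw3]
    nlinarith
  have hpos : 0 < Real.log ((l₁ - w₀ / 2) / (l₁ - 4 * w₀)) :=
    Real.log_pos (by rw [lt_div_iff₀ hr1]; linarith)
  have hq : Real.log ((l₁ - w₀) / (l₁ - 4 * w₀)) / Real.log ((l₁ - w₀ / 2) / (l₁ - 4 * w₀)) ≤
      7 / 8 := by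
    rw [div_le_iff₀ hpos, hXZ]
    linarith
  have hM : Real.log Y - Real.log (2 * x / 25) = Real.log (295 / 8) := by
    rw [← Real.log_div hY.ne' hx25.ne']
    congr 1
    rw [hYd]
    field_simp
    norm_num
  have hL : Real.log (11 * x / 100) - Real.log (2 * x / 25) = Real.log (11 / 8) := by
    rw [← Real.log_div (by positivity) hx25.ne']
    congr 1
    field_simp
    norm_num
  have hpw : 8 * Real.log (11 / 8) < Real.log (295 / 8) := by
    have h3 : Real.log ((11 / 8) ^ 8) = 8 * Real.log (11 / 8) := by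
      rw [Real.log_pow]
      norm_num
    rw [← h3]
    exact Real.log_lt_log (by positivity) (by norm_num)
  have hM0 : 0 < Real.log (295 / 8) := Real.log_pos (by norm_num)
  have hmul : (-Real.log (2 * x / 25) - -Real.log Y) *
      (Real.log ((l₁ - w₀) / (l₁ - 4 * w₀)) / Real.log ((l₁ - w₀ / 2) / (l₁ - 4 * w₀))) ≤
      (-Real.log (2 * x / 25) - -Real.log Y) * (7 / 8) :=
    mul_le_mul_of_nonneg_left hq (by linarith)
  have hfin : Real.log (11 * x / 100) < Real.log (hrad Φ η₀ Ω Y t₀) := by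
    have h3 : -Real.log (hrad Φ η₀ Ω Y t₀) ≤ -Real.log Y + (-Real.log (2 * x / 25) - -Real.log Y) *
      (Real.log ((l₁ - w₀) / (l₁ - 4 * w₀)) / Real.log ((l₁ - w₀ / 2) / (l₁ - 4 * w₀))) := hann
    linarith
  have h0 : 0 < hrad Φ η₀ Ω Y t₀ :=
    hrad_pos hY ⟨_, hx25, h1 t₀ (by rw [ht₀]; linarith) (by rw [ht₀]; linarith)⟩
  have hlt : 11 * x / 100 < hrad Φ η₀ Ω Y t₀ :=
    (Real.log_lt_log_iff (by positivity) h0).1 hfin
  obtain ⟨s, hs1, hs2⟩ := exists_between hlt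
  have hs0 : 0 < s := lt_trans (by positivity) hs1
  exact ⟨s, hs1, extH_of_lt hs0 hs2⟩

end Pool.Agent.MP_ae5b4e_an_NB2
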