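import Pool.Agent.Lib.MP_ae5b4e_an_NB2.Step

/-!
# MP_ae5b4e_an, project NB_2: the label near compact subsets of the strip
-/

noncomputable section

namespace Pool.Agent.MP_ae5b4e_an_NB2

open Complex Set Filter Topology Metric
open Pool.Agent.MP_ae5b4e_an_NBT (St isOpen_St convex_St)
open Pool.Agent.Lib.MP_ae5b4e_an_LL

variable {Y : Sys} {h : ℝ} {L M : ℂ × ℂ → ℂ}

theorem exists_isExt (h : ℝ) (L : ℂ × ℂ → ℂ) : ∃ M, IsExt h L M := by
  obtain ⟨F, h1, h2, h3⟩ := exists_hext L 0 (St (-h) h)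
  exact ⟨F, h1, h2, h3⟩

theorem mem_hdom_of_lreg {s : ℝ} {t η : ℂ} (h1 : LReg h L s t) (h2 : ‖η‖ < s) :
    (t, η) ∈ hdom L 0 (St (-h) h) := ⟨s, by simpa [dist_eq_norm] using h2, h1⟩

theorem Lab.lreg (hL : Lab Y h L) {t : ℂ} (ht : t ∈ St (-h) h) : ∃ s > 0, LReg h L s t := by
  apply ExtH.of_analytic (hL.an t ht)
  have h1 : L (t, 0) ∈ St (-h) h := by rwa [hL.zero t ht]
  exact (hL.an t ht).continuousAt.eventually ((isOpen_St _ _).mem_nhds h1)

theorem Lab.mem_hdom (hL : Lab Y h L) {t : ℂ} (ht : t ∈ St (-h) h) :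
    (t, (0:ℂ)) ∈ hdom L 0 (St (-h) h) := by
  obtain ⟨s, hs, h1⟩ := hL.lreg ht
  exact mem_hdom_of_lreg h1 (by simpa using hs)

theorem IsExt.zero (hM : IsExt h L M) (hL : Lab Y h L) {t : ℂ} (ht : t ∈ St (-h) h) :
    M (t, 0) = t := by
  have := (hM.eq t (hL.mem_hdom ht)).self_of_nhds
  rw [this, hL.zero t ht]

/-- the label is analytic in `η` on the disc of regularity -/
theorem IsExt.diff_snd (hM : IsExt h L M) {s : ℝ} {t : ℂ} (h1 : LReg h L s t) :
    DifferentiableOn ℂ (fun η => M (t, η)) (ball 0 s) := by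
  intro η hη
  have h2 := hM.an (t, η) (mem_hdom_of_lreg h1 (mem_ball_zero_iff.1 hη))
  exact ((AnalyticAt.fun_comp (g := M) (f := fun η : ℂ => (t, η)) h2
    (AnalyticAt.prod analyticAt_const analyticAt_id)).differentiableAt).differentiableWithinAt

theorem IsExt.even (hM : IsExt h L M) (hL : Lab Y h L) {s : ℝ} {t η : ℂ}
    (ht : t ∈ St (-h) h) (h1 : LReg h L s t) (hη : ‖η‖ < s) : M (t, -η) = M (t, η) := by
  have hs : 0 < s := (norm_nonneg _).trans_lt hη
  have ha := (hM.diff_snd h1).analyticOnNhd isOpen_ball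
  have hb : AnalyticOnNhd ℂ (fun η => M (t, -η)) (ball 0 s) := by
    apply DifferentiableOn.analyticOnNhd _ isOpen_ball
    exact (hM.diff_snd h1).comp differentiable_neg.differentiableOn fun z hz => by
      rw [mem_ball_zero_iff] at hz ⊢
      rwa [norm_neg]
  have he : (fun η => M (t, -η)) =ᶠ[𝓝 0] fun η => M (t, η) := by
    have e1 := hM.eq t (hL.mem_hdom ht)
    have e2 := hL.even t ht
    have c1 : Tendsto (fun η : ℂ => (t, η)) (𝓝 0) (𝓝 (t, 0)) :=
      (Continuous.prodMk_right t).tendsto 0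
    have c2 : Tendsto (fun η : ℂ => (t, -η)) (𝓝 0) (𝓝 (t, 0)) := by
      have : Continuous fun η : ℂ => (t, -η) := by fun_prop
      simpa using this.tendsto 0
    filter_upwards [c1.eventually e1, c2.eventually e1, c1.eventually e2] with x h2 h3 h4
    rw [h2, h3, h4]
  exact hb.eqOn_of_preconnected_of_eventuallyEq ha (convex_ball _ _).isPreconnected
    (mem_ball_self hs) he (mem_ball_zero_iff.2 hη)

theorem lreg_compact (hL : Lab Y h L) {K : Set ℂ} (hK : IsCompact K) (hKS : K ⊆ St (-h) h) :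
    ∃ R > 0, ∀ t ∈ K, LReg h L R t := by
  refine hK.induction_on (p := fun K => ∃ R > 0, ∀ t ∈ K, LReg h L R t) ⟨1, one_pos, by simp⟩
    ?_ ?_ ?_
  · rintro s t hst ⟨R, hR, h⟩
    exact ⟨R, hR, fun x hx => h x (hst hx)⟩
  · rintro s t ⟨R, hR, h⟩ ⟨R', hR', h'⟩
    refine ⟨min R R', lt_min hR hR', ?_⟩
    rintro x (hx | hx)
    · exact (h x hx).mono (min_le_left _ _)
    · exact (h' x hx).mono (min_le_right _ _)
  · intro t ht
    obtain ⟨s, hs, h1⟩ := hL.lreg (hKS ht)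
    exact ⟨_, mem_nhdsWithin_of_mem_nhds h1.eventually, s, hs, fun x hx => hx⟩

/-- second order bound -/
theorem quad_compact (hL : Lab Y h L) (hM : IsExt h L M) {K : Set ℂ} (hK : IsCompact K)
    (hKS : K ⊆ St (-h) h) : ∃ R > 0, ∃ C > 0, (∀ t ∈ K, LReg h L R t) ∧
      ∀ t ∈ K, ∀ η, ‖η‖ < R → ‖M (t, η) - t‖ ≤ C * ‖η‖ ^ 2 := by
  obtain ⟨R, hR, h1⟩ := lreg_compact hL hK hKS
  have hsub : K ×ˢ closedBall (0:ℂ) (R / 2) ⊆ hdom L 0 (St (-h) h) := by
    rintro ⟨t, η⟩ ⟨ht, hη⟩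
    rw [mem_closedBall_zero_iff] at hη
    exact mem_hdom_of_lreg (h1 t ht) (by linarith)
  obtain ⟨B, hB⟩ := (hK.prod (isCompact_closedBall (0:ℂ) (R / 2))).exists_bound_of_continuousOn
    (f := fun p => M p - p.1) ((hM.an.continuousOn.mono hsub).sub continuous_fst.continuousOn)
  refine ⟨R / 2, half_pos hR, max B 1 / (R / 2) ^ 2, by positivity, fun t ht =>
    (h1 t ht).mono (by linarith), fun t ht η hη => ?_⟩
  have hreg : LReg h L (R / 2) t := (h1 t ht).mono (by linarith)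
  have hd : DifferentiableOn ℂ (fun η => M (t, η) - t) (ball 0 (R / 2)) :=
    (hM.diff_snd hreg).sub_const t
  have h0 : M (t, 0) - t = 0 := by
    rw [hM.zero hL (hKS ht), sub_self]
  have hR2 : 0 < R / 2 := half_pos hR
  have hd0 : deriv (fun η => M (t, η) - t) 0 = 0 := by
    have e1 : (fun η => M (t, η) - t) =ᶠ[𝓝 0] fun η => (fun η => M (t, η) - t) (-η) := by
      filter_upwards [isOpen_ball.mem_nhds (mem_ball_self hR2)] with η hη
      show M (t, η) - t = M (t, -η) - t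
      rw [hM.even hL (hKS ht) hreg (mem_ball_zero_iff.1 hη)]
    have e2 : HasDerivAt (fun η => M (t, η) - t) (deriv (fun η => M (t, η) - t) 0) 0 :=
      (hd.differentiableAt (isOpen_ball.mem_nhds (mem_ball_self hR2))).hasDerivAt
    have e3 : HasDerivAt (fun η => M (t, η) - t) (deriv (fun η => M (t, η) - t) 0) (-(0:ℂ)) := by
      rw [neg_zero]
      exact e2
    have e4 := (e3.scomp (0:ℂ) (hasDerivAt_neg (0:ℂ))).congr_of_eventuallyEq e1
    have e5 := e2.unique e4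
    simp only [neg_smul, one_smul] at e5
    have e6 : (2:ℂ) * deriv (fun η => M (t, η) - t) 0 = 0 := by linear_combination e5
    exact (mul_eq_zero.1 e6).resolve_left two_ne_zero
  have := schwarz_two hd (B := max B 1) (fun η hη => ?_) h0 hd0 (mem_ball_zero_iff.2 hη)
  · refine this.trans (le_of_eq ?_)
    ring
  · exact (hB (t, η) ⟨ht, ball_subset_closedBall hη⟩).trans (le_max_left _ _)

theorem exists_thick {K : Set ℂ} (hK : IsCompact K) (hKS : K ⊆ St (-h) h) :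
    ∃ δ > 0, IsCompact (cthickening δ K) ∧ cthickening δ K ⊆ St (-h) h := by
  obtain ⟨δ, hδ, h1⟩ := hK.exists_cthickening_subset_open (isOpen_St (-h) h) hKS
  exact ⟨δ, hδ, hK.cthickening, h1⟩

/-- **the label on compact convex sets** -/
theorem deep (hL : Lab Y h L) (hM : IsExt h L M) {K : Set ℂ} (hK : IsCompact K)
    (hKc : Convex ℝ K) (hKS : K ⊆ St (-h) h) :
    ∃ R > 0, ∃ C > 0, (∀ t ∈ K, LReg h L R t) ∧
      (∀ t ∈ K, ∀ η, ‖η‖ < R → ‖M (t, η) - t‖ ≤ C * ‖η‖ ^ 2) ∧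
      (∀ t ∈ K, ∀ t' ∈ K, ∀ η, ‖η‖ < R →
        ‖(M (t, η) - t) - (M (t', η) - t')‖ ≤ C * ‖η‖ ^ 2 * ‖t - t'‖) ∧
      ∀ t ∈ K, ∀ η, ‖η‖ < R → Y.node (M (t, η)) (M (t + η, η)) (M (t - η, η)) := by
  obtain ⟨δ, hδ, hK1, hK1S⟩ := exists_thick hK hKS
  obtain ⟨R, hR, C, hC, h1, h2⟩ := quad_compact hL hM hK1 hK1S
  have hKK1 : K ⊆ cthickening δ K := self_subset_cthickening K
  have hball : ∀ t ∈ K, closedBall t δ ⊆ cthickening δ K := fun t ht =>
    closedBall_subset_cthickening ht δ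
  have hR0 : 0 < min R δ := lt_min hR hδ
  refine ⟨min R δ, hR0, C + C / δ, by positivity, fun t ht =>
    (h1 t (hKK1 ht)).mono (min_le_left _ _), fun t ht η hη => ?_, fun t ht t' ht' η hη => ?_,
    fun t ht η hη => ?_⟩
  · refine (h2 t (hKK1 ht) η (hη.trans_le (min_le_left _ _))).trans ?_
    have : 0 ≤ C / δ * ‖η‖ ^ 2 := by positivity
    nlinarith
  · have hηR := hη.trans_le (min_le_left _ _)
    have hderiv : ∀ x ∈ K, DifferentiableAt ℂ (fun t => M (t, η) - t) x ∧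
        ‖deriv (fun t => M (t, η) - t) x‖ ≤ (C / δ) * ‖η‖ ^ 2 := by
      intro x hx
      have hdiff : ∀ y ∈ closedBall x δ, DifferentiableAt ℂ (fun t => M (t, η) - t) y := by
        intro y hy
        have h3 := hM.an (y, η) (mem_hdom_of_lreg (h1 y (hball x hx hy)) hηR)
        have h4 : AnalyticAt ℂ (fun t => M (t, η)) y :=
          AnalyticAt.fun_comp (g := M) (f := fun t : ℂ => (t, η)) h3
            (AnalyticAt.prod analyticAt_id analyticAt_const)
        exact h4.differentiableAt.sub differentiableAt_id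
      refine ⟨hdiff x (mem_closedBall_self hδ.le), ?_⟩
      have h5 := Complex.norm_deriv_le_of_forall_mem_sphere_norm_le hδ
        (f := fun t => M (t, η) - t) (c := x) (C := C * ‖η‖ ^ 2)
        (DifferentiableOn.diffContOnCl_ball (U := closedBall x δ)
          (fun y hy => (hdiff y hy).differentiableWithinAt) le_rfl)
        (fun y hy => h2 y (hball x hx (sphere_subset_closedBall hy)) η hηR)
      refine h5.trans (le_of_eq ?_)
      ring
    have h6 := hKc.norm_image_sub_le_of_norm_deriv_le (f := fun t => M (t, η) - t)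
      (fun x hx => (hderiv x hx).1) (fun x hx => (hderiv x hx).2) ht' ht
    refine h6.trans ?_
    have h7 : 0 ≤ ‖t - t'‖ := norm_nonneg _
    gcongr
    linarith
  · -- node relation
    set R' := min R δ with hR'
    have hmem : ∀ ζ ∈ ball (0:ℂ) R', (t, ζ) ∈ hdom L 0 (St (-h) h) ∧
        (t + ζ, ζ) ∈ hdom L 0 (St (-h) h) ∧ (t - ζ, ζ) ∈ hdom L 0 (St (-h) h) := by
      intro ζ hζ
      rw [mem_ball_zero_iff] at hζ
      have h3 := hζ.trans_le (min_le_left R δ)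
      have h4 := hζ.trans_le (min_le_right R δ)
      refine ⟨mem_hdom_of_lreg (h1 t (hKK1 ht)) h3, mem_hdom_of_lreg (h1 _ (hball t ht ?_)) h3,
        mem_hdom_of_lreg (h1 _ (hball t ht ?_)) h3⟩
      · simpa [mem_closedBall, dist_eq_norm] using h4.le
      · simpa [mem_closedBall, dist_eq_norm] using h4.le
    have a0 : AnalyticOnNhd ℂ (fun ζ => M (t, ζ)) (ball 0 R') := fun ζ hζ =>
      AnalyticAt.fun_comp (g := M) (f := fun ζ : ℂ => (t, ζ)) (hM.an _ (hmem ζ hζ).1)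
        (AnalyticAt.prod analyticAt_const analyticAt_id)
    have a1 : AnalyticOnNhd ℂ (fun ζ => M (t + ζ, ζ)) (ball 0 R') := fun ζ hζ =>
      AnalyticAt.fun_comp (g := M) (f := fun ζ : ℂ => (t + ζ, ζ)) (hM.an _ (hmem ζ hζ).2.1)
        (AnalyticAt.prod (analyticAt_const.add analyticAt_id) analyticAt_id)
    have a2 : AnalyticOnNhd ℂ (fun ζ => M (t - ζ, ζ)) (ball 0 R') := fun ζ hζ =>
      AnalyticAt.fun_comp (g := M) (f := fun ζ : ℂ => (t - ζ, ζ)) (hM.an _ (hmem ζ hζ).2.2)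
        (AnalyticAt.prod (analyticAt_const.sub analyticAt_id) analyticAt_id)
    have hS := isOpen_St (-h) h
    have hE : AnalyticOnNhd ℂ (fun ζ => Y.c (M (t + ζ, ζ)) (M (t, ζ)) *
        Y.s (M (t - ζ, ζ)) (M (t, ζ)) + Y.c (M (t - ζ, ζ)) (M (t, ζ)) *
        Y.s (M (t + ζ, ζ)) (M (t, ζ))) (ball 0 R') := by
      intro ζ hζ
      have m0 := hM.maps (hmem ζ hζ).1
      have m1 := hM.maps (hmem ζ hζ).2.1
      have m2 := hM.maps (hmem ζ hζ).2.2
      exact ((Sys.an_c hL.on hS (a1 ζ hζ) (a0 ζ hζ) m1 m0).fun_mul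
        (Sys.an_s hL.on hS (a2 ζ hζ) (a0 ζ hζ) m2 m0)).fun_add
        ((Sys.an_c hL.on hS (a2 ζ hζ) (a0 ζ hζ) m2 m0).fun_mul
        (Sys.an_s hL.on hS (a1 ζ hζ) (a0 ζ hζ) m1 m0))
    have hev : (fun ζ => Y.c (M (t + ζ, ζ)) (M (t, ζ)) *
        Y.s (M (t - ζ, ζ)) (M (t, ζ)) + Y.c (M (t - ζ, ζ)) (M (t, ζ)) *
        Y.s (M (t + ζ, ζ)) (M (t, ζ))) =ᶠ[𝓝 0] 0 := by
      have e1 := hM.eq t (hL.mem_hdom (hKS ht))
      have e2 := hL.node t (hKS ht)
      have c0 : Tendsto (fun ζ : ℂ => (t, ζ)) (𝓝 0) (𝓝 (t, 0)) :=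
        (Continuous.prodMk_right t).tendsto 0
      have c1 : Tendsto (fun ζ : ℂ => (t + ζ, ζ)) (𝓝 0) (𝓝 (t, 0)) := by
        have : Continuous fun ζ : ℂ => (t + ζ, ζ) := by fun_prop
        simpa using this.tendsto 0
      have c2 : Tendsto (fun ζ : ℂ => (t - ζ, ζ)) (𝓝 0) (𝓝 (t, 0)) := by
        have : Continuous fun ζ : ℂ => (t - ζ, ζ) := by fun_prop
        simpa using this.tendsto 0
      filter_upwards [c0.eventually e1, c1.eventually e1, c2.eventually e1, c0.eventually e2]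
        with ζ h3 h4 h5 h6
      rw [h3, h4, h5]
      exact h6
    have hz := hE.eqOn_zero_of_preconnected_of_eventuallyEq_zero
      (convex_ball (0:ℂ) R').isPreconnected (mem_ball_self hR0) hev
      (mem_ball_zero_iff.2 hη)
    exact hz

end Pool.Agent.MP_ae5b4e_an_NB2
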