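import Pool.Agent.Lib.MP_ae5b4e_an_NB2.Layer
import Pool.Agent.Lib.MP_ae5b4e_an_NB2.Deep

/-!
# MP_ae5b4e_an, project NB_2: Lemma W, definitions
-/

noncomputable section

namespace Pool.Agent.MP_ae5b4e_an_NB2

open Complex Set Filter Topology Metric
open Pool.Agent.MP_ae5b4e_an_NBT (St isOpen_St convex_St)
open Pool.Agent.Lib.MP_ae5b4e_an_LL

/-- the domain of Lemma W: nonreal directions `ε |η| < Im η`, depth `> C |η|` -/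
def Wp (h b l ε C R : ℝ) : Set (ℂ × ℂ) :=
  {p | |p.1.re - b| < 3 * l / 4 ∧ 0 < dep h p.1 ∧ dep h p.1 < 3 * l / 4 ∧ ‖p.2‖ < R ∧
    ε * ‖p.2‖ < p.2.im ∧ C * ‖p.2‖ < dep h p.1}

/-- the part of the domain which is reached after `N` layers -/
def WN (h b l ε C R : ℝ) (N : ℕ) : Set (ℂ × ℂ) :=
  {p | |p.1.re - b| < 3 * l / 4 + min (dep h p.1) (ε * l / 8) / ε ∧ 0 < dep h p.1 ∧
    dep h p.1 < 3 * l / 4 ∧ ‖p.2‖ < R ∧ ε * ‖p.2‖ < p.2.im ∧ C * ‖p.2‖ < dep h p.1 ∧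
    ε * l / 16 < dep h p.1 + N * p.2.im}

end Pool.Agent.MP_ae5b4e_an_NB2
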