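import Pool.Agent.Lib.MP_ae5b4e_an_LL.Bad
import Pool.Agent.Lib.MP_ae5b4e_an_NB2.Ann
import Pool.Agent.Lib.MP_ae5b4e_an_NB2.WDef

/-!
# MP_ae5b4e_an, project NB_2: the slope bound, main step
-/

noncomputable section

namespace Pool.Agent.MP_ae5b4e_an_NB2

open Complex Set Filter Topology Metric
open Pool.Agent.MP_ae5b4e_an_NBT (St isOpen_St convex_St)
open Pool.Agent.Lib.MP_ae5b4e_an_LL

private theorem sbm_isOpen_Wp {h b l ε C R : ℝ} : IsOpen (Wp h b l ε C R) := by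
  have hre : Continuous fun p : ℂ × ℂ => |p.1.re - b| :=
    ((continuous_re.comp continuous_fst).sub continuous_const).abs
  have hdep : Continuous fun p : ℂ × ℂ => dep h p.1 := by
    unfold dep
    exact continuous_const.sub (continuous_im.comp continuous_fst)
  have hn : Continuous fun p : ℂ × ℂ => ‖p.2‖ := continuous_snd.norm
  have him : Continuous fun p : ℂ × ℂ => p.2.im := continuous_im.comp continuous_snd
  exact (isOpen_lt hre continuous_const).and ((isOpen_lt continuous_const hdep).and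
    ((isOpen_lt hdep continuous_const).and ((isOpen_lt hn continuous_const).and
    ((isOpen_lt (continuous_const.mul hn) him).and
    (isOpen_lt (continuous_const.mul hn) hdep)))))

/-- a point of the open disc near a point of the circle -/
private theorem sbm_near {η₁ : ℂ} {x₀ ε : ℝ} (hx₀ : 0 < x₀) (h1 : ‖η₁‖ = x₀) (hε : 0 < ε) :
    ∃ η₂ ∈ ball η₁ ε, ‖η₂‖ < x₀ := by
  set δ : ℝ := min (ε / (2 * x₀)) (1 / 2) with hδ
  have hδ0 : 0 < δ := lt_min (by positivity) (by norm_num)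
  have hδ1 : δ ≤ 1 / 2 := min_le_right _ _
  have hδ2 : δ * x₀ ≤ ε / 2 := by
    have : δ ≤ ε / (2 * x₀) := min_le_left _ _
    calc δ * x₀ ≤ ε / (2 * x₀) * x₀ := by gcongr
      _ = ε / 2 := by field_simp
  refine ⟨((1 - δ : ℝ) : ℂ) * η₁, ?_, ?_⟩
  · rw [mem_ball, dist_eq_norm]
    have : ((1 - δ : ℝ) : ℂ) * η₁ - η₁ = -((δ : ℝ) : ℂ) * η₁ := by
      push_cast
      ring
    rw [this, norm_mul, norm_neg, Complex.norm_real, Real.norm_eq_abs, abs_of_pos hδ0, h1]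
    linarith
  · rw [norm_mul, Complex.norm_real, Real.norm_eq_abs, abs_of_pos (by linarith), h1]
    nlinarith

/-- **main step** (2.14) -/
theorem sb_main {Y : Sys} {h b l q R R₂ b' y₁ x₀ : ℝ} {L M Λ : ℂ × ℂ → ℂ} (hL : Lab Y h L)
    (hM : IsExt h L M) (hA : Arc Y h b l q)
    (hΛ1 : AnalyticOnNhd ℂ Λ (Wp h b l (1 / 100) (10000 * q ^ 2) R))
    (hΛ2 : MapsTo Λ (Wp h b l (1 / 100) (10000 * q ^ 2) R) (St (-h) h))
    (hΛ3 : ∀ p ∈ Wp h b l (1 / 100) (10000 * q ^ 2) R ∩ hdom L 0 (St (-h) h), Λ p = M p)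
    (hR₂ : 0 < R₂) (hR₂R : R₂ ≤ R / 2)
    (hdeep : ∀ t : ℂ, |t.re - b| < 3 * l / 4 → l / 400 ≤ dep h t → dep h t < 3 * l / 4 →
      LReg h L (2 * R₂) t)
    (hb' : |b' - b| < l / 2) (hy₁ : 0 < y₁) (hy₁l : y₁ < l / 20) {c₀ t₀ : ℂ}
    (hc₀ : c₀ = ⟨b', h - l / 4 - y₁⟩) {w₀ : ℝ} (hw₀ : w₀ = l / 4 - dist t₀ c₀) (hw₀0 : 0 < w₀)
    (hx₀ : 0 < x₀) (hx₀R : x₀ < R₂) (hx₀w : 40000 * q ^ 2 * x₀ < w₀)
    (hreg : ∀ s < x₀, LReg h L s t₀) (hnot : ∀ s > x₀, ¬ LReg h L s t₀)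
    (hstar : ∀ t : ℂ, dist t c₀ = l / 4 - 4 * w₀ → LReg h L (99 / 25 * x₀) t) : False := by
  have hl : 0 < l := hA.l_pos
  have hlh : l ≤ h / 2 := hA.l_le
  have hq1 : 1 ≤ q ^ 2 := one_le_pow₀ hA.q_one
  have hqx : 0 < q ^ 2 * x₀ := by positivity
  set W : Set (ℂ × ℂ) := Wp h b l (1 / 100) (10000 * q ^ 2) R with hW
  have hWo : IsOpen W := sbm_isOpen_Wp
  have hHo : IsOpen (hdom L 0 (St (-h) h)) := isOpen_hdom
  -- the disc of radius `l / 4 - w₀ / 2`
  have hdisc : ∀ t : ℂ, dist t c₀ ≤ l / 4 - w₀ / 2 →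
      |t.re - b| < 3 * l / 4 ∧ w₀ / 2 < dep h t ∧ dep h t < 3 * l / 4 := by
    intro t ht
    rw [dist_eq_norm] at ht
    have h1 : |(t - c₀).re| ≤ l / 4 - w₀ / 2 := (abs_re_le_norm _).trans ht
    have h2 : |(t - c₀).im| ≤ l / 4 - w₀ / 2 := (abs_im_le_norm _).trans ht
    rw [hc₀, sub_re] at h1
    rw [hc₀, sub_im] at h2
    simp only at h1 h2
    rw [abs_le] at h1 h2
    rw [abs_lt] at hb' ⊢
    unfold dep
    refine ⟨⟨by linarith [h1.1, hb'.1], by linarith [h1.2, hb'.2]⟩, by linarith [h2.2],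
      by linarith [h2.1]⟩
  have ht₀c : dist t₀ c₀ = l / 4 - w₀ := by rw [hw₀]; ring
  have ht₀d := hdisc t₀ (by rw [ht₀c]; linarith)
  have hw₀dep : w₀ < dep h t₀ := by
    have h2 : |(t₀ - c₀).im| ≤ l / 4 - w₀ := by
      rw [← ht₀c, dist_eq_norm]
      exact abs_im_le_norm _
    rw [hc₀, sub_im] at h2
    simp only at h2
    rw [abs_le] at h2
    unfold dep
    linarith [h2.2]
  have hdep0 : dep h t₀ < l / 400 := by
    by_contra hcon
    push Not at hcon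
    exact hnot (2 * R₂) (by linarith) (hdeep t₀ ht₀d.1 hcon ht₀d.2.2)
  have hw₀l : w₀ < l / 400 := hw₀dep.trans hdep0
  have hxR : 2 * x₀ < R := by linarith
  -- the bad point
  obtain ⟨η₁, hη₁, hbad⟩ := exists_bad (Φ := L) (F := M) (η₀ := 0) (t := t₀)
    (Ω := St (-h) h) (x := x₀) hM.an hM.maps hM.eq hx₀ hreg hnot
  rw [dist_zero_right] at hη₁
  have hmemH : ∀ η₂ : ℂ, ‖η₂‖ < x₀ → (t₀, η₂) ∈ hdom L 0 (St (-h) h) := by
    intro η₂ h2
    obtain ⟨s, hs1, hs2⟩ := exists_between h2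
    exact mem_hdom_of_lreg (hreg s hs2) hs1
  have hev : ∀ p ∈ W, p ∈ hdom L 0 (St (-h) h) → ∀ᶠ r in 𝓝 p, Λ r = M r := by
    intro p hp1 hp2
    filter_upwards [hWo.mem_nhds hp1, hHo.mem_nhds hp2] with r hr1 hr2
    exact hΛ3 r ⟨hr1, hr2⟩
  have hdepS : ∀ t : ℂ, 0 < dep h t → dep h t < 3 * l / 4 → t ∈ St (-h) h := by
    intro t h1 h2
    unfold dep at h1 h2
    exact ⟨by linarith, by linarith⟩
  have hmemW : ∀ η : ℂ, ‖η‖ = x₀ → x₀ / 100 < η.im → (t₀, η) ∈ W := by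
    intro η h1 h2
    refine ⟨ht₀d.1, by linarith [ht₀d.2.1], ht₀d.2.2, ?_, ?_, ?_⟩
    · rw [h1]
      linarith
    · rw [h1]
      linarith
    · rw [h1]
      nlinarith
  by_cases hcase1 : x₀ / 100 < η₁.im
  · -- case 3
    obtain ⟨ε, hε, hsub⟩ := Metric.isOpen_iff.1 hWo _ (hmemW η₁ hη₁ hcase1)
    rw [← ball_prod_same] at hsub
    obtain ⟨η₂, h2, h3⟩ := sbm_near hx₀ hη₁ hε
    exact hbad ε hε Λ (hΛ1.mono hsub) (hΛ2.mono_left hsub) η₂ h2 (by rwa [dist_zero_right])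
      (hev _ (hsub ⟨mem_ball_self hε, h2⟩) (hmemH η₂ h3))
  by_cases hcase2 : η₁.im < -(x₀ / 100)
  · -- case 4
    have hneg : (t₀, -η₁) ∈ W := hmemW (-η₁) (by rw [norm_neg]; exact hη₁) (by
      rw [neg_im]
      linarith)
    obtain ⟨ε, hε, hsub⟩ := Metric.isOpen_iff.1 hWo _ hneg
    rw [← ball_prod_same] at hsub
    obtain ⟨η₂, h2, h3⟩ := sbm_near hx₀ hη₁ hε
    have hballneg : ∀ η : ℂ, η ∈ ball η₁ ε → -η ∈ ball (-η₁) ε := by
      intro η hη
      rw [mem_ball, dist_eq_norm] at hη ⊢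
      have : -η - -η₁ = -(η - η₁) := by ring
      rwa [this, norm_neg]
    have hmaps : ∀ p ∈ ball t₀ ε ×ˢ ball η₁ ε, (p.1, -p.2) ∈ W := fun p hp =>
      hsub ⟨hp.1, hballneg p.2 hp.2⟩
    have hcont : Continuous fun p : ℂ × ℂ => (p.1, -p.2) := by fun_prop
    refine hbad ε hε (fun p => Λ (p.1, -p.2)) ?_ ?_ η₂ h2 (by rwa [dist_zero_right]) ?_
    · intro p hp
      exact AnalyticAt.fun_comp (g := Λ) (f := fun p : ℂ × ℂ => (p.1, -p.2))
        (hΛ1 _ (hmaps p hp)) (AnalyticAt.prod analyticAt_fst analyticAt_snd.neg)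
    · intro p hp
      exact hΛ2 (hmaps p hp)
    · have h4 : (t₀, -η₂) ∈ W := hmaps (t₀, η₂) ⟨mem_ball_self hε, h2⟩
      have h5 : (t₀, -η₂) ∈ hdom L 0 (St (-h) h) := hmemH (-η₂) (by rwa [norm_neg])
      have h6 := hev _ h4 h5
      have h7 : Tendsto (fun p : ℂ × ℂ => (p.1, -p.2)) (𝓝 (t₀, η₂)) (𝓝 (t₀, -η₂)) :=
        hcont.tendsto (t₀, η₂)
      filter_upwards [h7.eventually h6, h7.eventually (hWo.mem_nhds h4),
        hHo.mem_nhds (hmemH η₂ h3)] with p hp1 hp2 hp3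
      obtain ⟨s, hs1, hs2⟩ := hp3
      rw [dist_zero_right] at hs1
      have hpS : p.1 ∈ St (-h) h := hdepS p.1 hp2.2.1 hp2.2.2.1
      have h8 := hM.even hL hpS hs2 hs1
      rw [hp1]
      exact h8
  · -- case 5
    push Not at hcase1 hcase2
    set ηc : ℂ := ⟨η₁.re, x₀ / 10⟩ with hηc
    have hre : η₁.re ^ 2 ≤ x₀ ^ 2 := by
      have h1 : |η₁.re| ≤ x₀ := by
        rw [← hη₁]
        exact abs_re_le_norm η₁
      have h2 : |η₁.re| ^ 2 ≤ x₀ ^ 2 := by gcongr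
      rwa [sq_abs] at h2
    have hnc : ‖ηc‖ ≤ 1005 / 1000 * x₀ := by
      have h1 : ‖ηc‖ ^ 2 ≤ (1005 / 1000 * x₀) ^ 2 := by
        rw [← Complex.normSq_eq_norm_sq, Complex.normSq_apply]
        simp only [hηc]
        nlinarith
      exact le_of_sq_le_sq h1 (by positivity)
    have hball : ∀ η ∈ ball ηc (2 * x₀ / 25), x₀ / 50 < η.im ∧ ‖η‖ < 12 / 10 * x₀ := by
      intro η hη
      rw [mem_ball, dist_eq_norm] at hη
      constructor
      · have h1 : |(η - ηc).im| < 2 * x₀ / 25 := (abs_im_le_norm _).trans_lt hη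
        rw [sub_im, abs_lt] at h1
        simp only [hηc] at h1
        linarith [h1.1]
      · have h1 : ‖η‖ ≤ ‖η - ηc‖ + ‖ηc‖ := by
          have := norm_add_le (η - ηc) ηc
          rwa [sub_add_cancel] at this
        linarith
    have hprodW : ∀ t : ℂ, |t.re - b| < 3 * l / 4 → w₀ / 2 < dep h t → dep h t < 3 * l / 4 →
        ∀ η ∈ ball ηc (2 * x₀ / 25), (t, η) ∈ W := by
      intro t h1 h2 h3 η hη
      obtain ⟨h4, h5⟩ := hball η hη
      refine ⟨h1, by linarith, h3, by linarith, ?_, ?_⟩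
      · show 1 / 100 * ‖η‖ < η.im
        linarith
      · show 10000 * q ^ 2 * ‖η‖ < dep h t
        have h6 : 10000 * q ^ 2 * ‖η‖ ≤ 10000 * q ^ 2 * (12 / 10 * x₀) := by gcongr
        nlinarith
    have hUo : IsOpen {t : ℂ | |t.re - b| < 3 * l / 4 ∧ w₀ / 2 < dep h t ∧
        dep h t < 3 * l / 4} := by
      have hre' : Continuous fun t : ℂ => |t.re - b| := (continuous_re.sub continuous_const).abs
      have hdep' : Continuous fun t : ℂ => dep h t := by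
        unfold dep
        exact continuous_const.sub continuous_im
      exact (isOpen_lt hre' continuous_const).and ((isOpen_lt continuous_const hdep').and
        (isOpen_lt hdep' continuous_const))
    have hloc : ∀ t : ℂ, dist t c₀ ≤ l / 4 - w₀ / 2 → ∃ ε > 0,
        ball t ε ×ˢ ball ηc (2 * x₀ / 25) ⊆ W := by
      intro t ht
      obtain ⟨ε, hε, hsub⟩ := Metric.isOpen_iff.1 hUo t (hdisc t ht)
      refine ⟨ε, hε, ?_⟩
      rintro ⟨t', η⟩ ⟨ht', hη⟩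
      obtain ⟨h1, h2, h3⟩ := hsub ht'
      exact hprodW t' h1 h2 h3 η hη
    have hx25 : 0 < 2 * x₀ / 25 := by positivity
    obtain ⟨s, hs, ε, hε, G, hG1, hG2, hG3⟩ := annulus_gain (Φ := Λ) (η₀ := ηc) (c₀ := c₀)
      (t₀ := t₀) (Ω := St (-h) h) (l₁ := l / 4) (w₀ := w₀) (x := x₀) hx₀ hw₀0 (by linarith)
      ht₀c (by
        intro t _ ht
        obtain ⟨ε, hε, hsub⟩ := hloc t ht
        exact ⟨ε, hε, Λ, hΛ1.mono hsub, hΛ2.mono_left hsub,
          fun t' _ => Eventually.of_forall fun _ => rfl⟩)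
      (by
        intro t ht s hs
        obtain ⟨ε, hε, hsub⟩ := hloc t (by rw [ht]; linarith)
        obtain ⟨ε₁, hε₁, hsub₁⟩ := Metric.eventually_nhds_iff_ball.1 (hstar t ht).eventually
        have hin : ball t (min ε ε₁) ×ˢ ball (0:ℂ) (99 / 25 * x₀) ⊆ hdom L 0 (St (-h) h) := by
          rintro ⟨t', η⟩ ⟨ht', hη⟩
          rw [mem_ball_zero_iff] at hη
          exact mem_hdom_of_lreg (hsub₁ t' (ball_subset_ball (min_le_right _ _) ht')) hη
        have hin2 : ball t (min ε ε₁) ×ˢ ball ηc s ⊆ hdom L 0 (St (-h) h) := by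
          refine (Set.prod_mono le_rfl ?_).trans hin
          intro η hη
          rw [mem_ball_zero_iff]
          rw [mem_ball, dist_eq_norm] at hη
          have h1 : ‖η‖ ≤ ‖η - ηc‖ + ‖ηc‖ := by
            have := norm_add_le (η - ηc) ηc
            rwa [sub_add_cancel] at this
          linarith
        refine ⟨min ε ε₁, lt_min hε hε₁, M, hM.an.mono hin2, hM.maps.mono_left hin2, ?_⟩
        intro t' ht'
        have h1 : (t', ηc) ∈ W :=
          hsub ⟨ball_subset_ball (min_le_left _ _) ht', mem_ball_self hx25⟩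
        have h2 : (t', ηc) ∈ hdom L 0 (St (-h) h) := hin ⟨ht', by
          rw [mem_ball_zero_iff]
          linarith⟩
        filter_upwards [hev _ h1 h2] with p hp
        exact hp.symm)
    have hs0 : 0 < s := by linarith
    -- the bad point is in the larger disc
    have hη₁s : η₁ ∈ ball ηc s := by
      rw [mem_ball, dist_eq_norm]
      have h1 : η₁ - ηc = ((η₁.im - x₀ / 10 : ℝ) : ℂ) * I := by
        apply Complex.ext <;> simp [hηc]
      rw [h1, norm_mul, Complex.norm_real, Complex.norm_I, mul_one, Real.norm_eq_abs]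
      refine lt_of_le_of_lt ?_ hs
      rw [abs_le]
      constructor <;> linarith
    obtain ⟨ε₂, hε₂, hsub₂⟩ := Metric.isOpen_iff.1 isOpen_ball η₁ hη₁s
    have hε₃ : 0 < min ε ε₂ := lt_min hε hε₂
    obtain ⟨η₂, h2, h3⟩ := sbm_near hx₀ hη₁ hε₃
    have hsub₃ : ball t₀ (min ε ε₂) ×ˢ ball η₁ (min ε ε₂) ⊆ ball t₀ ε ×ˢ ball ηc s :=
      Set.prod_mono (ball_subset_ball (min_le_left _ _))
        ((ball_subset_ball (min_le_right _ _)).trans hsub₂)
    have hη₂s : η₂ ∈ ball ηc s := hsub₂ (ball_subset_ball (min_le_right _ _) h2)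
    refine hbad (min ε ε₂) hε₃ G (hG1.mono hsub₃) (hG2.mono_left hsub₃) η₂ h2
      (by rwa [dist_zero_right]) ?_
    -- the auxiliary point
    set ηo : ℂ := ((19 / 20 : ℝ) : ℂ) * ηc with hηo
    have hηo1 : ‖ηo‖ < x₀ := by
      rw [hηo, norm_mul, Complex.norm_real, Real.norm_eq_abs, abs_of_pos (by norm_num)]
      linarith
    have hηo2 : ηo ∈ ball ηc (2 * x₀ / 25) := by
      rw [mem_ball, dist_eq_norm]
      have h4 : ηo - ηc = -((1 / 20 : ℝ) : ℂ) * ηc := by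
        rw [hηo]
        push_cast
        ring
      rw [h4, norm_mul, norm_neg, Complex.norm_real, Real.norm_eq_abs, abs_of_pos (by norm_num)]
      linarith
    obtain ⟨ε₄, hε₄, hsub₄⟩ := hloc t₀ (by rw [ht₀c]; linarith)
    have hε₅ : 0 < min ε ε₄ := lt_min hε hε₄
    have hP1 : ball t₀ (min ε ε₄) ×ˢ ball ηc (2 * x₀ / 25) ⊆ ball t₀ ε ×ˢ ball ηc s :=
      Set.prod_mono (ball_subset_ball (min_le_left _ _)) (ball_subset_ball (by linarith))
    have hP2 : ball t₀ (min ε ε₄) ×ˢ ball ηc (2 * x₀ / 25) ⊆ W :=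
      (Set.prod_mono (ball_subset_ball (min_le_right _ _)) le_rfl).trans hsub₄
    have hEq1 : EqOn G Λ (ball t₀ (min ε ε₄) ×ˢ ball ηc (2 * x₀ / 25)) :=
      (hG1.mono hP1).eqOn_of_preconnected_of_eventuallyEq (hΛ1.mono hP2)
        ((convex_ball _ _).prod (convex_ball _ _)).isPreconnected
        (z₀ := (t₀, ηc)) ⟨mem_ball_self hε₅, mem_ball_self hx25⟩ (hG3 t₀ (mem_ball_self hε))
    have hoP : (t₀, ηo) ∈ ball t₀ (min ε ε₄) ×ˢ ball ηc (2 * x₀ / 25) :=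
      ⟨mem_ball_self hε₅, hηo2⟩
    have hEq2 : G =ᶠ[𝓝 (t₀, ηo)] M := by
      filter_upwards [(isOpen_ball.prod isOpen_ball).mem_nhds hoP,
        hev _ (hP2 hoP) (hmemH ηo hηo1)] with p hp1 hp2
      rw [hEq1 hp1, hp2]
    obtain ⟨x', hx'1, hx'2⟩ := exists_between (max_lt h3 hηo1)
    have hx'3 : ‖η₂‖ < x' := (le_max_left _ _).trans_lt hx'1
    have hx'4 : ‖ηo‖ < x' := (le_max_right _ _).trans_lt hx'1
    obtain ⟨ε₆, hε₆, hsub₆⟩ := Metric.eventually_nhds_iff_ball.1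
      (ExtH.eventually (hreg x' hx'2))
    have hε₇ : 0 < min ε ε₆ := lt_min hε hε₆
    have hQ1 : ball t₀ (min ε ε₆) ×ˢ (ball ηc s ∩ ball 0 x') ⊆ ball t₀ ε ×ˢ ball ηc s :=
      Set.prod_mono (ball_subset_ball (min_le_left _ _)) inter_subset_left
    have hQ2 : ball t₀ (min ε ε₆) ×ˢ (ball ηc s ∩ ball 0 x') ⊆ hdom L 0 (St (-h) h) := by
      rintro ⟨t', η⟩ ⟨ht', hη⟩
      exact mem_hdom_of_lreg (hsub₆ t' (ball_subset_ball (min_le_right _ _) ht'))
        (mem_ball_zero_iff.1 hη.2)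
    have hEq3 : EqOn G M (ball t₀ (min ε ε₆) ×ˢ (ball ηc s ∩ ball 0 x')) :=
      (hG1.mono hQ1).eqOn_of_preconnected_of_eventuallyEq (hM.an.mono hQ2)
        ((convex_ball _ _).prod ((convex_ball _ _).inter (convex_ball _ _))).isPreconnected
        (z₀ := (t₀, ηo)) ⟨mem_ball_self hε₇, ball_subset_ball (by linarith) hηo2,
          mem_ball_zero_iff.2 hx'4⟩ hEq2
    have hfin : (t₀, η₂) ∈ ball t₀ (min ε ε₆) ×ˢ (ball ηc s ∩ ball 0 x') :=
      ⟨mem_ball_self hε₇, hη₂s, mem_ball_zero_iff.2 hx'3⟩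
    filter_upwards [(isOpen_ball.prod (isOpen_ball.inter isOpen_ball)).mem_nhds hfin] with p hp
    exact hEq3 hp

end Pool.Agent.MP_ae5b4e_an_NB2
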