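import Pool.Agent.Lib.MP_ae5b4e_an_NB2.LemW
import Pool.Agent.Lib.MP_ae5b4e_an_NB2.SBm

/-!
# MP_ae5b4e_an, project NB_2: the slope bound
-/

noncomputable section

namespace Pool.Agent.MP_ae5b4e_an_NB2

open Complex Set Filter Topology Metric
open Pool.Agent.MP_ae5b4e_an_NBT (St isOpen_St convex_St)
open Pool.Agent.Lib.MP_ae5b4e_an_LL

variable {Y : Sys} {h b l q R R₂ b' y₁ : ℝ} {L M Λ : ℂ × ℂ → ℂ}

/-- the points of the disc are in the strip, above the arc -/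
private theorem SB_mem (hlh : l ≤ h / 2) (hb' : |b' - b| < l / 2) (hy₁ : 0 < y₁)
    (hy₁l : y₁ < l / 20) {c₀ : ℂ} (hc₀ : c₀ = ⟨b', h - l / 4 - y₁⟩) {t : ℂ}
    (ht : t ∈ closedBall c₀ (l / 4)) :
    t ∈ St (-h) h ∧ |t.re - b| < 3 * l / 4 ∧ 0 < dep h t ∧ dep h t < 3 * l / 4 := by
  rw [mem_closedBall, dist_eq_norm] at ht
  have h1 := (Complex.abs_re_le_norm (t - c₀)).trans ht
  have h2 := (Complex.abs_im_le_norm (t - c₀)).trans ht
  rw [Complex.sub_re, hc₀] at h1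
  rw [Complex.sub_im, hc₀] at h2
  simp only at h1 h2
  rw [abs_le] at h1 h2
  rw [abs_lt] at hb'
  unfold dep
  refine ⟨⟨?_, ?_⟩, ?_, ?_, ?_⟩
  · linarith
  · linarith
  · rw [abs_lt]
    constructor <;> linarith
  · linarith
  · linarith

private theorem SB_key (hL : Lab Y h L) (hM : IsExt h L M) (hA : Arc Y h b l q)
    (hΛ1 : AnalyticOnNhd ℂ Λ (Wp h b l (1 / 100) (10000 * q ^ 2) R))
    (hΛ2 : MapsTo Λ (Wp h b l (1 / 100) (10000 * q ^ 2) R) (St (-h) h))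
    (hΛ3 : ∀ p ∈ Wp h b l (1 / 100) (10000 * q ^ 2) R ∩ hdom L 0 (St (-h) h), Λ p = M p)
    (hR₂ : 0 < R₂) (hR₂R : R₂ ≤ R / 2)
    (hdeep : ∀ t : ℂ, |t.re - b| < 3 * l / 4 → l / 400 ≤ dep h t → dep h t < 3 * l / 4 →
      LReg h L (2 * R₂) t)
    (hb' : |b' - b| < l / 2) (hy₁ : 0 < y₁) (hy₁l : y₁ < l / 20) {c₀ : ℂ}
    (hc₀ : c₀ = ⟨b', h - l / 4 - y₁⟩) {α Rs : ℝ} (hα0 : 0 < α) (hα : α * (40000 * q ^ 2) ≤ 1)
    (hRs : Rs ≤ R₂ / 4)
    (hfail : ¬ ∀ t : ℂ, 0 < l / 4 - dist t c₀ →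
      min (α * (l / 4 - dist t c₀)) Rs ≤ hrad L 0 (St (-h) h) R₂ t) :
    ∃ t₀ t : ℂ, 0 < l / 4 - dist t₀ c₀ ∧ hrad L 0 (St (-h) h) R₂ t₀ ≤ Rs ∧
      0 < hrad L 0 (St (-h) h) R₂ t₀ ∧
      hrad L 0 (St (-h) h) R₂ t₀ < α * (l / 4 - dist t₀ c₀) ∧
      l / 4 - dist t c₀ = 4 * (l / 4 - dist t₀ c₀) ∧
      hrad L 0 (St (-h) h) R₂ t ≤ 99 / 25 * hrad L 0 (St (-h) h) R₂ t₀ ∧
      ∀ t' : ℂ, 0 < l / 4 - dist t' c₀ → hrad L 0 (St (-h) h) R₂ t' ≤ Rs →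
        (l / 4 - dist t' c₀) * hrad L 0 (St (-h) h) R₂ t₀ ≤
          (l / 4 - dist t₀ c₀) * hrad L 0 (St (-h) h) R₂ t' := by
  set ρ : ℂ → ℝ := hrad L 0 (St (-h) h) R₂ with hρ
  set w : ℂ → ℝ := fun t => l / 4 - dist t c₀ with hw
  have hl0 := hA.l_pos
  have hmem : ∀ t ∈ closedBall c₀ (l / 4), t ∈ St (-h) h ∧ |t.re - b| < 3 * l / 4 ∧
      0 < dep h t ∧ dep h t < 3 * l / 4 := fun t ht =>
    SB_mem hA.l_le hb' hy₁ hy₁l hc₀ ht
  have hex : ∀ t ∈ closedBall c₀ (l / 4), ∃ s > 0, ExtH L 0 (St (-h) h) s t := fun t ht =>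
    hL.lreg (hmem t ht).1
  have hpos : ∀ t ∈ closedBall c₀ (l / 4), 0 < ρ t := fun t ht => hrad_pos hR₂ (hex t ht)
  have hlsc : ∀ t ∈ closedBall c₀ (l / 4), LowerSemicontinuousAt ρ t := fun t ht =>
    hrad_lsc hR₂ (hex t ht)
  have hwc : Continuous w := by
    rw [hw]
    fun_prop
  have hw0 : ∀ t ∈ closedBall c₀ (l / 4), 0 ≤ w t := fun t ht => by
    rw [mem_closedBall] at ht
    simp only [hw]
    linarith
  have hball : ∀ t, 0 < w t → t ∈ closedBall c₀ (l / 4) := fun t ht => by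
    simp only [hw] at ht
    rw [mem_closedBall]
    linarith
  -- the failing point
  push Not at hfail
  obtain ⟨ts, hts1, hts2⟩ := hfail
  have hts2a : ρ ts < α * w ts := hts2.trans_le (min_le_left _ _)
  have hts2b : ρ ts < Rs := hts2.trans_le (min_le_right _ _)
  have htsB : ts ∈ closedBall c₀ (l / 4) := hball ts hts1
  -- the compact set
  set T : Set ℂ := closedBall c₀ (l / 4) ∩ {t | ρ t ≤ Rs} with hT
  have hTcl : IsClosed T := by
    rw [← isOpen_compl_iff, isOpen_iff_mem_nhds]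
    intro t ht
    by_cases htB : t ∈ closedBall c₀ (l / 4)
    · have h1 : Rs < ρ t := by
        by_contra hc
        exact ht ⟨htB, not_lt.1 hc⟩
      filter_upwards [hlsc t htB Rs h1] with t' ht' hc
      exact absurd hc.2 (not_le.2 ht')
    · filter_upwards [isClosed_closedBall.isOpen_compl.mem_nhds htB] with t' ht' hc
      exact ht' hc.1
  have hTc : IsCompact T := (isCompact_closedBall c₀ (l / 4)).of_isClosed_subset hTcl
    inter_subset_left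
  have htsT : ts ∈ T := ⟨htsB, hts2b.le⟩
  have husc : UpperSemicontinuousOn (fun t => w t / ρ t) T := by
    intro t ht y hy
    have hρt := hpos t ht.1
    have hwt := hw0 t ht.1
    have hy' : w t / ρ t < y := hy
    have hy0 : 0 < y := (div_nonneg hwt hρt.le).trans_lt hy'
    rw [div_lt_iff₀ hρt] at hy'
    have h1 : w t / y < ρ t := by
      rw [div_lt_iff₀ hy0, mul_comm]
      exact hy'
    obtain ⟨m, hm1, hm2⟩ := exists_between h1
    rw [div_lt_iff₀ hy0] at hm1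
    have e1 := hlsc t ht.1 m hm2
    have e2 := (hwc.continuousAt (x := t)).eventually (gt_mem_nhds hm1)
    filter_upwards [mem_nhdsWithin_of_mem_nhds e1, mem_nhdsWithin_of_mem_nhds e2,
      self_mem_nhdsWithin] with t' h3 h4 h5
    have h6 := hpos t' h5.1
    show w t' / ρ t' < y
    rw [div_lt_iff₀ h6]
    have h7 : m * y < ρ t' * y := mul_lt_mul_of_pos_right h3 hy0
    linarith [mul_comm y (ρ t')]
  obtain ⟨t₀, ht₀, hmax⟩ := husc.exists_isMaxOn ⟨ts, htsT⟩ hTc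
  have hx₀ : 0 < ρ t₀ := hpos t₀ ht₀.1
  have hm1 : w ts / ρ ts ≤ w t₀ / ρ t₀ := hmax htsT
  have hm2 : 1 / α < w ts / ρ ts := by
    rw [div_lt_div_iff₀ hα0 (hpos ts htsB), one_mul, mul_comm]
    exact hts2a
  have hx₀w : ρ t₀ < α * w t₀ := by
    have h1 := hm2.trans_le hm1
    rw [div_lt_div_iff₀ hα0 hx₀, one_mul] at h1
    linarith [mul_comm α (w t₀)]
  have hw₀ : 0 < w t₀ := by
    by_contra hc
    nlinarith [not_lt.1 hc]
  have hmax' : ∀ t' : ℂ, 0 < w t' → ρ t' ≤ Rs → w t' * ρ t₀ ≤ w t₀ * ρ t' := by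
    intro t' h1 h2
    have h3 : w t' / ρ t' ≤ w t₀ / ρ t₀ := hmax ⟨hball t' h1, h2⟩
    rwa [div_le_div_iff₀ (hpos t' (hball t' h1)) hx₀] at h3
  have hx₀R : ρ t₀ < R₂ := lt_of_le_of_lt (ht₀.2.trans hRs) (by linarith)
  by_contra hcon
  push Not at hcon
  refine sb_main (x₀ := ρ t₀) (w₀ := w t₀) (t₀ := t₀) hL hM hA hΛ1 hΛ2 hΛ3 hR₂ hR₂R hdeep hb'
    hy₁ hy₁l hc₀ rfl hw₀ hx₀ hx₀R ?_ ?_ ?_ ?_
  · have h1 : 0 < 40000 * q ^ 2 := by
      have := hA.q_one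
      positivity
    calc 40000 * q ^ 2 * ρ t₀ < 40000 * q ^ 2 * (α * w t₀) := mul_lt_mul_of_pos_left hx₀w h1
      _ = (α * (40000 * q ^ 2)) * w t₀ := by ring
      _ ≤ 1 * w t₀ := mul_le_mul_of_nonneg_right hα hw₀.le
      _ = w t₀ := one_mul _
  · intro s hs
    have h1 : ExtH L 0 (St (-h) h) (max s (ρ t₀ / 2)) t₀ :=
      extH_of_lt (lt_max_of_lt_right (by linarith)) (max_lt hs (by linarith))
    exact h1.mono (le_max_left _ _)
  · intro s hs hreg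
    have h1 : ExtH L 0 (St (-h) h) (min s R₂) t₀ := ExtH.mono hreg (min_le_left _ _)
    have h2 : min s R₂ ≤ ρ t₀ := le_hrad (lt_min (hx₀.trans hs) hR₂) (min_le_right _ _) h1
    have h3 : ρ t₀ < min s R₂ := lt_min hs hx₀R
    linarith
  · intro t ht
    have h1 : w t = 4 * w t₀ := by
      simp only [hw] at ht ⊢
      linarith
    have h2 : 99 / 25 * ρ t₀ < ρ t := by
      by_contra hc
      obtain ⟨t', h3, h4, h5⟩ := hcon t₀ t hw₀ ht₀.2 hx₀ hx₀w h1 (not_lt.1 hc)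
      exact absurd (hmax' t' h3 h4) (not_le.2 h5)
    exact extH_of_lt (by positivity) h2

/-- the start of the descent -/
private theorem SB_start (hL : Lab Y h L) (hM : IsExt h L M) (hA : Arc Y h b l q)
    (hΛ1 : AnalyticOnNhd ℂ Λ (Wp h b l (1 / 100) (10000 * q ^ 2) R))
    (hΛ2 : MapsTo Λ (Wp h b l (1 / 100) (10000 * q ^ 2) R) (St (-h) h))
    (hΛ3 : ∀ p ∈ Wp h b l (1 / 100) (10000 * q ^ 2) R ∩ hdom L 0 (St (-h) h), Λ p = M p)
    (hR₂ : 0 < R₂) (hR₂R : R₂ ≤ R / 2)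
    (hdeep : ∀ t : ℂ, |t.re - b| < 3 * l / 4 → l / 400 ≤ dep h t → dep h t < 3 * l / 4 →
      LReg h L (2 * R₂) t)
    (hb' : |b' - b| < l / 2) (hy₁ : 0 < y₁) (hy₁l : y₁ < l / 20) {c₀ : ℂ}
    (hc₀ : c₀ = ⟨b', h - l / 4 - y₁⟩) {α : ℝ} (hα0 : 0 < α) (hα : α * (40000 * q ^ 2) ≤ 1)
    (hαR : α * (5 * l) ≤ R₂) :
    ∀ t : ℂ, 0 < l / 4 - dist t c₀ →
      min (α * (l / 4 - dist t c₀)) (R₂ / 4) ≤ hrad L 0 (St (-h) h) R₂ t := by
  by_contra hfail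
  obtain ⟨t₀, t, h1, h2, h3, h4, h5, h6, h7⟩ := SB_key hL hM hA hΛ1 hΛ2 hΛ3 hR₂ hR₂R hdeep hb'
    hy₁ hy₁l hc₀ hα0 hα le_rfl hfail
  have hl0 := hA.l_pos
  have hw4 : l / 4 - dist t₀ c₀ ≤ l / 4 := by
    have := dist_nonneg (x := t₀) (y := c₀)
    linarith
  have hx : hrad L 0 (St (-h) h) R₂ t₀ < R₂ / 20 := by
    have h8 : α * (l / 4 - dist t₀ c₀) ≤ α * (l / 4) := mul_le_mul_of_nonneg_left hw4 hα0.le
    have h9 : α * (l / 4) ≤ R₂ / 20 := by linarith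
    linarith
  by_cases h8 : hrad L 0 (St (-h) h) R₂ t ≤ R₂ / 4
  · have h9 := h7 t (by rw [h5]; linarith) h8
    rw [h5] at h9
    have h10 : 4 * hrad L 0 (St (-h) h) R₂ t₀ ≤ hrad L 0 (St (-h) h) R₂ t := by
      by_contra hc
      rw [not_le] at hc
      have h11 := mul_lt_mul_of_pos_left hc h1
      linarith
    linarith
  · linarith [not_le.1 h8]

/-- one step of the descent -/
private theorem SB_step (hL : Lab Y h L) (hM : IsExt h L M) (hA : Arc Y h b l q)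
    (hΛ1 : AnalyticOnNhd ℂ Λ (Wp h b l (1 / 100) (10000 * q ^ 2) R))
    (hΛ2 : MapsTo Λ (Wp h b l (1 / 100) (10000 * q ^ 2) R) (St (-h) h))
    (hΛ3 : ∀ p ∈ Wp h b l (1 / 100) (10000 * q ^ 2) R ∩ hdom L 0 (St (-h) h), Λ p = M p)
    (hR₂ : 0 < R₂) (hR₂R : R₂ ≤ R / 2)
    (hdeep : ∀ t : ℂ, |t.re - b| < 3 * l / 4 → l / 400 ≤ dep h t → dep h t < 3 * l / 4 →
      LReg h L (2 * R₂) t)
    (hb' : |b' - b| < l / 2) (hy₁ : 0 < y₁) (hy₁l : y₁ < l / 20) {c₀ : ℂ}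
    (hc₀ : c₀ = ⟨b', h - l / 4 - y₁⟩) {α α' Rs : ℝ} (hα0 : 0 < α') (hα : α' * (40000 * q ^ 2) ≤ 1)
    (hαα : α' ≤ 101 / 100 * α) (hRs0 : 0 < Rs) (hRs : Rs ≤ R₂ / 4)
    (hP : ∀ t : ℂ, 0 < l / 4 - dist t c₀ →
      min (α * (l / 4 - dist t c₀)) Rs ≤ hrad L 0 (St (-h) h) R₂ t) :
    ∀ t : ℂ, 0 < l / 4 - dist t c₀ →
      min (α' * (l / 4 - dist t c₀)) (Rs / 4) ≤ hrad L 0 (St (-h) h) R₂ t := by
  by_contra hfail
  obtain ⟨t₀, t, h1, h2, h3, h4, h5, h6, -⟩ := SB_key hL hM hA hΛ1 hΛ2 hΛ3 hR₂ hR₂R hdeep hb'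
    hy₁ hy₁l hc₀ hα0 hα (by linarith) hfail
  have h7 := hP t (by rw [h5]; linarith)
  rw [h5] at h7
  have h8 : 99 / 25 * hrad L 0 (St (-h) h) R₂ t₀ < Rs := by linarith
  have h9 : 99 / 25 * hrad L 0 (St (-h) h) R₂ t₀ < α * (4 * (l / 4 - dist t₀ c₀)) := by
    have h10 : α' * (l / 4 - dist t₀ c₀) ≤ 101 / 100 * α * (l / 4 - dist t₀ c₀) :=
      mul_le_mul_of_nonneg_right hαα h1.le
    nlinarith
  exact absurd (lt_min h9 h8) (not_lt.2 (h7.trans h6))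

/-- **the slope bound** (2.11) -/
theorem slope_bound {q : ℝ} (hq : 1 ≤ q) : ∃ a₀ > 0, ∀ (Y : Sys) (h : ℝ) (L : ℂ × ℂ → ℂ)
    (b l : ℝ), Lab Y h L → Arc Y h b l q → ∃ R₁ > 0, ∀ t : ℂ, |t.re - b| < l / 2 →
      0 < dep h t → dep h t < l / 4 → LReg h L (min (a₀ * dep h t) R₁) t := by
  have hq0 : 0 < q := by linarith
  set a : ℝ := 1 / (40000 * q ^ 2) with ha
  have ha0 : 0 < a := by positivity
  have ha1 : a * (40000 * q ^ 2) = 1 := by
    rw [ha]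
    field_simp
  refine ⟨a / 2, by positivity, ?_⟩
  intro Y h L b l hL hA
  have hl0 := hA.l_pos
  have hlh := hA.l_le
  obtain ⟨M, hM⟩ := exists_isExt h L
  obtain ⟨R, hR, Λ, hΛ1, hΛ2, -, hΛ3⟩ := lemW hL hM hA (ε := 1 / 100) (by norm_num) (by norm_num)
  have e : 100 * q ^ 2 / (1 / 100) = 10000 * q ^ 2 := by ring
  rw [e] at hΛ1 hΛ2 hΛ3
  -- the deep part
  set K : Set ℂ := Icc (b - 3 * l / 4) (b + 3 * l / 4) ×ℂ Icc (h - 3 * l / 4) (h - l / 400) with hK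
  have hKc : IsCompact K := isCompact_Icc.reProdIm isCompact_Icc
  have hKS : K ⊆ St (-h) h := by
    intro t ht
    rw [hK, Complex.mem_reProdIm] at ht
    obtain ⟨-, h1, h2⟩ := ht
    constructor
    · linarith
    · linarith
  obtain ⟨R', hR', hdeep'⟩ := lreg_compact hL hKc hKS
  set R₂ : ℝ := min (R / 2) (R' / 2) with hR₂def
  have hR₂ : 0 < R₂ := lt_min (by linarith) (by linarith)
  have hR₂R : R₂ ≤ R / 2 := min_le_left _ _
  have hdeep : ∀ t : ℂ, |t.re - b| < 3 * l / 4 → l / 400 ≤ dep h t → dep h t < 3 * l / 4 →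
      LReg h L (2 * R₂) t := by
    intro t h1 h2 h3
    have h4 : 2 * R₂ ≤ R' := by
      have : R₂ ≤ R' / 2 := min_le_right _ _
      linarith
    refine ExtH.mono (hdeep' t ?_) h4
    rw [hK, Complex.mem_reProdIm]
    rw [abs_lt] at h1
    unfold dep at h2 h3
    refine ⟨⟨?_, ?_⟩, ⟨?_, ?_⟩⟩ <;> linarith
  set a₁ : ℝ := min a (R₂ / (5 * l)) with ha₁
  have ha₁0 : 0 < a₁ := lt_min ha0 (by positivity)
  obtain ⟨n, hn⟩ := pow_unbounded_of_one_lt (a / a₁) (show (1 : ℝ) < 101 / 100 by norm_num)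
  have hn' : a ≤ a₁ * (101 / 100) ^ n := by
    rw [div_lt_iff₀ ha₁0] at hn
    linarith
  have hq1 : 0 ≤ 40000 * q ^ 2 := by positivity
  -- the descent
  have hdesc : ∀ b' y₁ : ℝ, |b' - b| < l / 2 → 0 < y₁ → y₁ < l / 20 → ∀ j : ℕ, ∀ t : ℂ,
      0 < l / 4 - dist t (⟨b', h - l / 4 - y₁⟩ : ℂ) →
      min (min a (a₁ * (101 / 100) ^ j) * (l / 4 - dist t (⟨b', h - l / 4 - y₁⟩ : ℂ)))
        (R₂ / 4 / 4 ^ j) ≤ hrad L 0 (St (-h) h) R₂ t := by
    intro b' y₁ hb' hy₁ hy₁l j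
    induction j with
    | zero =>
      rw [pow_zero, pow_zero, mul_one, div_one]
      have e2 : min a a₁ = a₁ := min_eq_right (min_le_left _ _)
      rw [e2]
      refine SB_start hL hM hA hΛ1 hΛ2 hΛ3 hR₂ hR₂R hdeep hb' hy₁ hy₁l rfl ha₁0 ?_ ?_
      · calc a₁ * (40000 * q ^ 2) ≤ a * (40000 * q ^ 2) :=
              mul_le_mul_of_nonneg_right (min_le_left _ _) hq1
          _ = 1 := ha1
          _ ≤ 1 := le_rfl
      · calc a₁ * (5 * l) ≤ R₂ / (5 * l) * (5 * l) :=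
              mul_le_mul_of_nonneg_right (min_le_right _ _) (by positivity)
          _ = R₂ := by field_simp
          _ ≤ R₂ := le_rfl
    | succ j ih =>
      have e3 : R₂ / 4 / 4 ^ (j + 1) = R₂ / 4 / 4 ^ j / 4 := by
        rw [pow_succ]
        field_simp
      rw [e3]
      have hle : R₂ / 4 / 4 ^ j ≤ R₂ / 4 :=
        div_le_self (by positivity) (one_le_pow₀ (by norm_num))
      refine SB_step hL hM hA hΛ1 hΛ2 hΛ3 hR₂ hR₂R hdeep hb' hy₁ hy₁l rfl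
        (lt_min ha0 (by positivity)) ?_ ?_ (by positivity) hle ih
      · calc min a (a₁ * (101 / 100) ^ (j + 1)) * (40000 * q ^ 2) ≤ a * (40000 * q ^ 2) :=
              mul_le_mul_of_nonneg_right (min_le_left _ _) hq1
          _ = 1 := ha1
          _ ≤ 1 := le_rfl
      · rcases min_choice a (a₁ * (101 / 100) ^ j) with h1 | h1
        · rw [h1]
          have := min_le_left a (a₁ * (101 / 100) ^ (j + 1))
          linarith
        · rw [h1]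
          have := min_le_right a (a₁ * (101 / 100) ^ (j + 1))
          rw [pow_succ] at this ⊢
          linarith
  refine ⟨R₂ / 4 / 4 ^ n / 2, by positivity, ?_⟩
  intro t ht1 ht2 ht3
  set y₁ : ℝ := min (l / 40) (dep h t / 4) with hy₁
  have hy0 : 0 < y₁ := lt_min (by linarith) (by linarith)
  have hy1 : y₁ < l / 20 := lt_of_le_of_lt (min_le_left _ _) (by linarith)
  have hy2 : y₁ ≤ dep h t / 4 := min_le_right _ _
  have hdist : dist t (⟨t.re, h - l / 4 - y₁⟩ : ℂ) = l / 4 + y₁ - dep h t := by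
    rw [Complex.dist_of_re_eq (z := t) (w := ⟨t.re, h - l / 4 - y₁⟩) rfl, Real.dist_eq]
    unfold dep at ht3 ⊢
    simp only
    rw [abs_of_nonneg (by linarith)]
    ring
  have h1 := hdesc t.re y₁ ht1 hy0 hy1 n t (by rw [hdist]; linarith)
  rw [min_eq_left hn', hdist] at h1
  have hRn : 0 < R₂ / 4 / 4 ^ n := by positivity
  refine extH_of_lt (Y := R₂) (lt_min (by positivity) (by positivity)) (lt_of_lt_of_le ?_ h1)
  refine lt_min ?_ ?_
  · refine (min_le_left _ _).trans_lt ?_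
    have h2 : a * (3 / 4 * dep h t) ≤ a * (l / 4 - (l / 4 + y₁ - dep h t)) :=
      mul_le_mul_of_nonneg_left (by linarith) ha0.le
    have h3 : 0 < a * dep h t := mul_pos ha0 ht2
    linarith
  · refine (min_le_right _ _).trans_lt ?_
    linarith

end Pool.Agent.MP_ae5b4e_an_NB2
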