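import Pool.Agent.Lib.MP_ae5b4e_an_LL.Strip
import Pool.Agent.Lib.MP_ae5b4e_an_NB2.Defs

/-!
# MP_ae5b4e_an, project NB_2: fundamental systems on the strip, the kernel
-/

noncomputable section

namespace Pool.Agent.MP_ae5b4e_an_NB2

open Complex Set Filter Topology Metric
open Pool.Agent.MP_ae5b4e_an_NBT (St isOpen_St convex_St)
open Pool.Agent.Lib.MP_ae5b4e_an_LL

namespace Sys

theorem exists_sys {a b : ℝ} {Q : ℂ → ℂ} (hQ : DifferentiableOn ℂ Q (St a b)) {z₀ : ℂ}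
    (hz₀ : z₀ ∈ St a b) {u u' v v' : ℂ} (hW : u * v' - u' * v = 1) :
    ∃ Y : Sys, Y.Q = Q ∧ Y.On (St a b) ∧ Y.y1 z₀ = u ∧ Y.y1' z₀ = u' ∧ Y.y2 z₀ = v ∧
      Y.y2' z₀ = v' := by
  obtain ⟨y1, y1', h1, h1', e1, e1'⟩ := exists_ode_strip hz₀ hQ u u'
  obtain ⟨y2, y2', h2, h2', e2, e2'⟩ := exists_ode_strip hz₀ hQ v v'
  refine ⟨⟨Q, y1, y1', y2, y2'⟩, rfl, ⟨h1, h1', h2, h2', ?_⟩, e1, e1', e2, e2'⟩
  show ∀ z ∈ St a b, y1 z * y2' z - y1' z * y2 z = 1
  have hd : ∀ z ∈ St a b, HasDerivAt (fun z => y1 z * y2' z - y1' z * y2 z) 0 z := by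
    intro z hz
    have := ((h1 z hz).mul (h2' z hz)).sub ((h1' z hz).mul (h2 z hz))
    convert! this using 1
    ring
  have hc : ∀ z ∈ St a b, y1 z * y2' z - y1' z * y2 z = y1 z₀ * y2' z₀ - y1' z₀ * y2 z₀ := by
    intro z hz
    refine (isOpen_St a b).is_const_of_deriv_eq_zero (𝕜 := ℂ)
      (convex_St a b).isPreconnected (f := fun z => y1 z * y2' z - y1' z * y2 z)
      (fun z hz => (hd z hz).differentiableAt.differentiableWithinAt)
      (fun z hz => (hd z hz).deriv) hz hz₀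
  intro z hz
  rw [hc z hz, e1, e1', e2, e2', hW]

variable {Y : Sys} {S : Set ℂ} {l u v w : ℂ}

theorem s_self : Y.s l l = 0 := by
  unfold s
  ring

theorem c_self (hY : Y.On S) (hl : l ∈ S) : Y.c l l = 1 := by
  have := hY.wr l hl
  unfold c
  linear_combination this

theorem s_symm : Y.s u v = -Y.s v u := by
  unfold s
  ring

theorem node_symm : Y.node l u v ↔ Y.node l v u := by
  unfold node
  constructor <;> intro h <;> linear_combination h

/-- the kernel through the values at a third point -/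
theorem s_eq (hY : Y.On S) (hl : l ∈ S) : Y.s u v = Y.c v l * Y.s u l - Y.s v l * Y.c u l := by
  have := hY.wr l hl
  unfold s c
  linear_combination (-(Y.y1 v * Y.y2 u) + Y.y2 v * Y.y1 u) * this

/-- the derivative of the kernel -/
def sd (Y : Sys) (w l : ℂ) : ℂ := Y.y1 l * Y.y2' w - Y.y2 l * Y.y1' w

def cd (Y : Sys) (w l : ℂ) : ℂ := Y.y2' l * Y.y1' w - Y.y1' l * Y.y2' w

theorem hasDerivAt_s (hY : Y.On S) (hw : w ∈ S) :
    HasDerivAt (fun w => Y.s w l) (Y.sd w l) w :=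
  ((hY.d2 w hw).const_mul (Y.y1 l)).sub ((hY.d1 w hw).const_mul (Y.y2 l))

theorem hasDerivAt_sd (hY : Y.On S) (hw : w ∈ S) :
    HasDerivAt (fun w => Y.sd w l) (-(Y.Q w * Y.s w l)) w := by
  have := ((hY.d2' w hw).const_mul (Y.y1 l)).sub ((hY.d1' w hw).const_mul (Y.y2 l))
  convert! this using 1
  unfold s
  ring

theorem hasDerivAt_c (hY : Y.On S) (hw : w ∈ S) :
    HasDerivAt (fun w => Y.c w l) (Y.cd w l) w :=
  ((hY.d1 w hw).const_mul (Y.y2' l)).sub ((hY.d2 w hw).const_mul (Y.y1' l))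

theorem hasDerivAt_cd (hY : Y.On S) (hw : w ∈ S) :
    HasDerivAt (fun w => Y.cd w l) (-(Y.Q w * Y.c w l)) w := by
  have := ((hY.d1' w hw).const_mul (Y.y2' l)).sub ((hY.d2' w hw).const_mul (Y.y1' l))
  convert! this using 1
  unfold c
  ring

theorem sd_self (hY : Y.On S) (hl : l ∈ S) : Y.sd l l = 1 := by
  have := hY.wr l hl
  unfold sd
  linear_combination this

theorem cd_self : Y.cd l l = 0 := by
  unfold cd
  ring

/-- the Wronskian of the kernel -/
theorem wr_s (hY : Y.On S) (hl : l ∈ S) (hw : w ∈ S) :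
    Y.c w l * Y.sd w l - Y.cd w l * Y.s w l = 1 := by
  have h1 := hY.wr l hl
  have h2 := hY.wr w hw
  unfold c sd cd s
  linear_combination (Y.y1 w * Y.y2' w - Y.y1' w * Y.y2 w) * h1 + h2

/-! ### analyticity -/

section
variable (hY : Y.On S) (hS : IsOpen S)
include hY hS

theorem an_y1 : AnalyticOnNhd ℂ Y.y1 S := DifferentiableOn.analyticOnNhd
  (fun z hz => (hY.d1 z hz).differentiableAt.differentiableWithinAt) hS

theorem an_y1' : AnalyticOnNhd ℂ Y.y1' S := DifferentiableOn.analyticOnNhd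
  (fun z hz => (hY.d1' z hz).differentiableAt.differentiableWithinAt) hS

theorem an_y2 : AnalyticOnNhd ℂ Y.y2 S := DifferentiableOn.analyticOnNhd
  (fun z hz => (hY.d2 z hz).differentiableAt.differentiableWithinAt) hS

theorem an_y2' : AnalyticOnNhd ℂ Y.y2' S := DifferentiableOn.analyticOnNhd
  (fun z hz => (hY.d2' z hz).differentiableAt.differentiableWithinAt) hS

variable {E : Type*} [NormedAddCommGroup E] [NormedSpace ℂ E] {a b : E → ℂ} {p : E}

theorem an_s (ha : AnalyticAt ℂ a p) (hb : AnalyticAt ℂ b p) (haS : a p ∈ S) (hbS : b p ∈ S) :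
    AnalyticAt ℂ (fun x => Y.s (a x) (b x)) p := by
  unfold s
  exact (((an_y1 hY hS _ hbS).fun_comp hb).fun_mul ((an_y2 hY hS _ haS).fun_comp ha)).fun_sub
    (((an_y2 hY hS _ hbS).fun_comp hb).fun_mul ((an_y1 hY hS _ haS).fun_comp ha))

theorem an_c (ha : AnalyticAt ℂ a p) (hb : AnalyticAt ℂ b p) (haS : a p ∈ S) (hbS : b p ∈ S) :
    AnalyticAt ℂ (fun x => Y.c (a x) (b x)) p := by
  unfold c
  exact (((an_y2' hY hS _ hbS).fun_comp hb).fun_mul ((an_y1 hY hS _ haS).fun_comp ha)).fun_sub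
    (((an_y1' hY hS _ hbS).fun_comp hb).fun_mul ((an_y2 hY hS _ haS).fun_comp ha))

end

/-! ### node radius -/

theorem Nod.mono {l' : ℂ} {r r' : ℝ} (hN : Y.Nod S l r) (hr' : 0 < r')
    (h : dist l' l + r' ≤ r) : Y.Nod S l' r' := by
  have hsub : ball l' r' ⊆ ball l r := ball_subset_ball' (by linarith)
  refine ⟨hr', hsub.trans hN.sub, fun z hz => ?_⟩
  have h1 := hN.bd z (hsub hz)
  have h2 : r' ≤ r := by linarith [dist_nonneg (x := l') (y := l)]
  refine le_trans ?_ h1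
  have := hN.pos
  gcongr

end Sys

end Pool.Agent.MP_ae5b4e_an_NB2
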