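import Pool.Agent.Lib.MP_ae5b4e_an_NBT.LabD
import Pool.Agent.Lib.MP_ae5b4e_an_NB2.Sys

/-!
# MP_ae5b4e_an, project NB_2: a locally univalent map on the strip is the quotient of a fundamental
system
-/

noncomputable section

namespace Pool.Agent.MP_ae5b4e_an_NB2

open Complex Set Filter Topology Metric
open Pool.Agent.MP_ae5b4e_an_NBT (St isOpen_St convex_St LU)
open Pool.Agent.Lib.MP_ae5b4e_an_LL

/-- half the Schwarzian derivative -/
private def Sh (g : ℂ → ℂ) (z : ℂ) : ℂ :=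
  (deriv (deriv (deriv g)) z / deriv g z - 3 / 2 * (deriv (deriv g) z / deriv g z) ^ 2) / 2

private lemma Sh_an {g : ℂ → ℂ} {z : ℂ} (h : AnalyticAt ℂ g z) (h' : deriv g z ≠ 0) :
    AnalyticAt ℂ (Sh g) z := by
  have h1 := h.deriv
  have h2 := h1.deriv
  have h3 := h2.deriv
  have h4 : AnalyticAt ℂ (fun z => (deriv (deriv (deriv g)) z / deriv g z
      - 3 / 2 * (deriv (deriv g) z / deriv g z) ^ 2) / 2) z :=
    ((h3.fun_div h1 h').fun_sub (analyticAt_const.fun_mul ((h2.fun_div h1 h').fun_pow 2))).fun_div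
      analyticAt_const two_ne_zero
  exact h4

private lemma Sh_inv {f : ℂ → ℂ} {z : ℂ} (h : AnalyticAt ℂ f z) (h' : deriv f z ≠ 0)
    (h0 : f z ≠ 0) : Sh (fun w => (f w)⁻¹) z = Sh f z := by
  have hev : ∀ᶠ w in 𝓝 z, AnalyticAt ℂ f w ∧ f w ≠ 0 :=
    h.eventually_analyticAt.and (h.continuousAt.eventually_ne h0)
  have e1 : deriv (fun w => (f w)⁻¹) =ᶠ[𝓝 z] fun w => -deriv f w / f w ^ 2 := by
    filter_upwards [hev] with w hw
    exact (hw.1.differentiableAt.hasDerivAt.fun_inv hw.2).deriv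
  have e2 : deriv (fun w => -deriv f w / f w ^ 2) =ᶠ[𝓝 z]
      fun w => -deriv (deriv f) w / f w ^ 2 + 2 * deriv f w ^ 2 / f w ^ 3 := by
    filter_upwards [hev] with w hw
    have d0 := hw.1.differentiableAt.hasDerivAt
    have d1 := hw.1.deriv.differentiableAt.hasDerivAt
    have := (d1.fun_neg.fun_div (d0.fun_pow 2) (pow_ne_zero 2 hw.2)).deriv
    rw [this]
    have h3 := hw.2
    field_simp
    push_cast
    ring
  have e3 : deriv (fun w => -deriv (deriv f) w / f w ^ 2 + 2 * deriv f w ^ 2 / f w ^ 3) z =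
      -deriv (deriv (deriv f)) z / f z ^ 2 + 6 * deriv f z * deriv (deriv f) z / f z ^ 3
        - 6 * deriv f z ^ 3 / f z ^ 4 := by
    have d0 := h.differentiableAt.hasDerivAt
    have d1 := h.deriv.differentiableAt.hasDerivAt
    have d2 := h.deriv.deriv.differentiableAt.hasDerivAt
    have := ((d2.fun_neg.fun_div (d0.fun_pow 2) (pow_ne_zero 2 h0)).fun_add
      (((d1.fun_pow 2).const_mul 2).fun_div (d0.fun_pow 3) (pow_ne_zero 3 h0))).deriv
    rw [this]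
    field_simp
    push_cast
    ring
  have f1 : deriv (fun w => (f w)⁻¹) z = -deriv f z / f z ^ 2 := e1.eq_of_nhds
  have f2 : deriv (deriv (fun w => (f w)⁻¹)) z
      = -deriv (deriv f) z / f z ^ 2 + 2 * deriv f z ^ 2 / f z ^ 3 :=
    (e1.deriv.trans e2).eq_of_nhds
  have f3 : deriv (deriv (deriv (fun w => (f w)⁻¹))) z =
      -deriv (deriv (deriv f)) z / f z ^ 2 + 6 * deriv f z * deriv (deriv f) z / f z ^ 3
        - 6 * deriv f z ^ 3 / f z ^ 4 :=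
    ((e1.deriv.trans e2).deriv.eq_of_nhds).trans e3
  unfold Sh
  rw [f1, f2, f3]
  field_simp
  ring

open Classical in
private def Qf (f : ℂ → ℂ) (z : ℂ) : ℂ :=
  if AnalyticAt ℂ f z ∧ deriv f z ≠ 0 then Sh f z else Sh (fun w => (f w)⁻¹) z

private lemma Qf_near {f : ℂ → ℂ} {z : ℂ} (h : AnalyticAt ℂ f z) (h' : deriv f z ≠ 0) :
    Qf f =ᶠ[𝓝 z] Sh f := by
  filter_upwards [h.eventually_analyticAt, h.deriv.continuousAt.eventually_ne h'] with w h1 h2
  exact if_pos ⟨h1, h2⟩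

private lemma pole_near {f : ℂ → ℂ} {z : ℂ} (_ : f z = 0)
    (h : AnalyticAt ℂ (fun w => (f w)⁻¹) z) (h' : deriv (fun w => (f w)⁻¹) z ≠ 0) :
    ∀ᶠ w in 𝓝[≠] z, AnalyticAt ℂ f w ∧ deriv f w ≠ 0 ∧ f w ≠ 0 := by
  have h1 : ∀ᶠ w in 𝓝[≠] z, (f w)⁻¹ ≠ 0 :=
    h.differentiableAt.hasDerivAt.eventually_ne h'
  have h2 : ∀ᶠ w in 𝓝[≠] z, AnalyticAt ℂ (fun w => (f w)⁻¹) w :=
    h.eventually_analyticAt.filter_mono nhdsWithin_le_nhds
  have h3 : ∀ᶠ w in 𝓝[≠] z, deriv (fun w => (f w)⁻¹) w ≠ 0 :=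
    (h.deriv.continuousAt.eventually_ne h').filter_mono nhdsWithin_le_nhds
  filter_upwards [h1, h2, h3] with w h1 h2 h3
  have h4 : AnalyticAt ℂ f w := by
    have := h2.fun_inv h1
    simpa only [inv_inv] using this
  have h5 : f w ≠ 0 := fun h => h1 (by rw [h, inv_zero])
  refine ⟨h4, fun h6 => h3 ?_, h5⟩
  rw [(h4.differentiableAt.hasDerivAt.fun_inv h5).deriv, h6]
  simp

private lemma pole_not {f : ℂ → ℂ} {z : ℂ} (h0 : f z = 0)
    (h : AnalyticAt ℂ (fun w => (f w)⁻¹) z) (h' : deriv (fun w => (f w)⁻¹) z ≠ 0) :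
    ¬ AnalyticAt ℂ f z := by
  intro hf
  have h1 : Tendsto (fun w => f w * (f w)⁻¹) (𝓝[≠] z) (𝓝 (f z * (f z)⁻¹)) :=
    (hf.continuousAt.mul h.continuousAt).tendsto.mono_left nhdsWithin_le_nhds
  have h2 : Tendsto (fun w => f w * (f w)⁻¹) (𝓝[≠] z) (𝓝 1) := by
    refine tendsto_const_nhds.congr' ?_
    filter_upwards [pole_near h0 h h'] with w hw
    exact (mul_inv_cancel₀ hw.2.2).symm
  have := tendsto_nhds_unique h1 h2
  simp [h0] at this

private lemma Qf_pole {f : ℂ → ℂ} {z : ℂ} (h0 : f z = 0)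
    (h : AnalyticAt ℂ (fun w => (f w)⁻¹) z) (h' : deriv (fun w => (f w)⁻¹) z ≠ 0) :
    Qf f =ᶠ[𝓝 z] Sh (fun w => (f w)⁻¹) := by
  have h1 := eventually_nhdsWithin_iff.1 (pole_near h0 h h')
  filter_upwards [h1] with w hw
  by_cases hwz : w = z
  · subst hwz
    exact if_neg fun h2 => pole_not h0 h h' h2.1
  · obtain ⟨h2, h3, h4⟩ := hw hwz
    rw [Sh_inv h2 h3 h4]
    exact if_pos ⟨h2, h3⟩

private lemma Qf_diff {f : ℂ → ℂ} {S : Set ℂ} (hf : LU f S) : DifferentiableOn ℂ (Qf f) S := by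
  intro z hz
  refine DifferentiableAt.differentiableWithinAt ?_
  rcases hf z hz with ⟨h1, h2⟩ | ⟨h0, h1, h2⟩
  · exact ((Sh_an h1 h2).congr (Qf_near h1 h2).symm).differentiableAt
  · exact ((Sh_an h1 h2).congr (Qf_pole h0 h1 h2).symm).differentiableAt

private lemma mer {f : ℂ → ℂ} {S : Set ℂ} (hf : LU f S) : MeromorphicOn f S := by
  intro z hz
  rcases hf z hz with ⟨h1, h2⟩ | ⟨h0, h1, h2⟩
  · exact h1.meromorphicAt
  · have := h1.meromorphicAt.inv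
    have h3 : (fun w => (f w)⁻¹)⁻¹ = f := by
      ext w
      simp
    rwa [h3] at this

/-- near a base point -/
private lemma loc {f y1 y1' y2 y2' Q : ℂ → ℂ} {z₁ e : ℂ} {δ : ℝ} (hδ : 0 < δ)
    (hf : ∀ z ∈ ball z₁ δ, AnalyticAt ℂ f z ∧ deriv f z ≠ 0)
    (hQ : ∀ z ∈ ball z₁ δ, Q z = Sh f z)
    (hd : ∀ z ∈ ball z₁ δ, HasDerivAt y1 (y1' z) z ∧ HasDerivAt y1' (-(Q z * y1 z)) z ∧
      HasDerivAt y2 (y2' z) z ∧ HasDerivAt y2' (-(Q z * y2 z)) z)
    (he : e ^ 2 = deriv f z₁) (h1 : y1 z₁ = 1 / e)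
    (h1' : y1' z₁ = -deriv (deriv f) z₁ / (2 * e ^ 3)) (h2 : y2 z₁ = f z₁ / e)
    (h2' : y2' z₁ = e - f z₁ * deriv (deriv f) z₁ / (2 * e ^ 3)) :
    ∀ z ∈ ball z₁ δ, f z * y1 z - y2 z = 0 := by
  have hz₁ : z₁ ∈ ball z₁ δ := mem_ball_self hδ
  have he0 : e ≠ 0 := by
    rintro rfl
    exact (hf z₁ hz₁).2 (by rw [← he]; simp)
  set E : ℂ → ℂ := fun z => deriv (deriv f) z * y1 z + 2 * deriv f z * y1' z with hE
  have hEd : ∀ z ∈ ball z₁ δ, HasDerivAt E (3 / 2 * (deriv (deriv f) z / deriv f z) * E z) z := by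
    intro z hz
    obtain ⟨a1, a2⟩ := hf z hz
    obtain ⟨b1, b2, -, -⟩ := hd z hz
    have d1 := a1.deriv.differentiableAt.hasDerivAt
    have d2 := a1.deriv.deriv.differentiableAt.hasDerivAt
    have := (d2.fun_mul b1).fun_add ((d1.const_mul 2).fun_mul b2)
    refine this.congr_deriv ?_
    rw [hQ z hz]
    simp only [hE]
    unfold Sh
    field_simp
    ring
  have hE0 : E z₁ = 0 := by
    simp only [hE]
    rw [h1, h1', ← he]
    field_simp
    ring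
  have hG : ∀ z ∈ ball z₁ δ, HasDerivAt (fun z => E z ^ 2 / deriv f z ^ 3) 0 z := by
    intro z hz
    obtain ⟨a1, a2⟩ := hf z hz
    have d1 := a1.deriv.differentiableAt.hasDerivAt
    have := ((hEd z hz).fun_pow 2).fun_div (d1.fun_pow 3) (pow_ne_zero 3 a2)
    refine this.congr_deriv ?_
    field_simp
    push_cast
    ring
  have hEz : ∀ z ∈ ball z₁ δ, E z = 0 := by
    intro z hz
    have hc : E z ^ 2 / deriv f z ^ 3 = E z₁ ^ 2 / deriv f z₁ ^ 3 :=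
      isOpen_ball.is_const_of_deriv_eq_zero (𝕜 := ℂ)
        (convex_ball z₁ δ).isPreconnected (f := fun z => E z ^ 2 / deriv f z ^ 3)
        (fun z hz => (hG z hz).differentiableAt.differentiableWithinAt)
        (fun z hz => (hG z hz).deriv) hz hz₁
    rw [hE0] at hc
    have h3 := pow_ne_zero 3 (hf z hz).2
    have h4 : E z ^ 2 = 0 := by
      rw [div_eq_iff h3] at hc
      simpa using hc
    exact pow_eq_zero_iff two_ne_zero |>.1 h4
  have hQc : ContinuousOn Q (ball z₁ δ) := by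
    intro z hz
    have h3 : ContinuousWithinAt (Sh f) (ball z₁ δ) z :=
      (Sh_an (hf z hz).1 (hf z hz).2).continuousAt.continuousWithinAt
    exact h3.congr (fun w hw => hQ w hw) (hQ z hz)
  refine ode_unique (Q := Q) (y := fun z => f z * y1 z - y2 z)
    (y' := fun z => deriv f z * y1 z + f z * y1' z - y2' z) hQc ?_ ?_ ?_ ?_
  · intro z hz
    obtain ⟨a1, a2⟩ := hf z hz
    obtain ⟨b1, b2, b3, b4⟩ := hd z hz
    exact (a1.differentiableAt.hasDerivAt.fun_mul b1).fun_sub b3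
  · intro z hz
    obtain ⟨a1, a2⟩ := hf z hz
    obtain ⟨b1, b2, b3, b4⟩ := hd z hz
    have := ((a1.deriv.differentiableAt.hasDerivAt.fun_mul b1).fun_add
      (a1.differentiableAt.hasDerivAt.fun_mul b2)).fun_sub b4
    refine this.congr_deriv ?_
    have h5 := hEz z hz
    simp only [hE] at h5
    linear_combination h5
  · show f z₁ * y1 z₁ - y2 z₁ = 0
    rw [h1, h2]
    ring
  · show deriv f z₁ * y1 z₁ + f z₁ * y1' z₁ - y2' z₁ = 0
    rw [h1, h1', h2', ← he]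
    field_simp
    ring

/-- `f = y2 / y1` on the strip -/
theorem exists_sys_of_lu {f : ℂ → ℂ} {a b : ℝ} (hab : a < b) (hf : LU f (St a b)) :
    ∃ Y : Sys, Y.On (St a b) ∧ ∀ t ∈ St a b,
      (Y.y1 t ≠ 0 → f t = Y.y2 t / Y.y1 t) ∧ (Y.y1 t = 0 → f t = 0) := by
  -- a base point
  obtain ⟨z₁, hz₁, hf₁, hf₁'⟩ : ∃ z₁ ∈ St a b, AnalyticAt ℂ f z₁ ∧ deriv f z₁ ≠ 0 := by
    have hz : (((a + b) / 2 : ℝ) : ℂ) * I ∈ St a b := by
      constructor <;> simp <;> linarith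
    rcases hf _ hz with ⟨h1, h2⟩ | ⟨h0, h1, h2⟩
    · exact ⟨_, hz, h1, h2⟩
    · have h3 := (pole_near h0 h1 h2).and
        (((isOpen_St a b).mem_nhds hz |> fun h => nhdsWithin_le_nhds h))
      obtain ⟨w, hw, hw'⟩ := h3.exists
      exact ⟨w, hw', hw.1, hw.2.1⟩
  obtain ⟨e, he⟩ : ∃ e : ℂ, e ^ 2 = deriv f z₁ := IsAlgClosed.exists_pow_nat_eq _ two_pos
  have he0 : e ≠ 0 := by
    rintro rfl
    exact hf₁' (by rw [← he]; simp)
  obtain ⟨Y, hYQ, hY, e1, e1', e2, e2'⟩ := Sys.exists_sys (Qf_diff hf) hz₁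
    (u := 1 / e) (u' := -deriv (deriv f) z₁ / (2 * e ^ 3)) (v := f z₁ / e)
    (v' := e - f z₁ * deriv (deriv f) z₁ / (2 * e ^ 3)) (by field_simp; ring)
  refine ⟨Y, hY, ?_⟩
  -- near the base point
  have hnear : ∀ᶠ z in 𝓝 z₁, f z * Y.y1 z - Y.y2 z = 0 := by
    have h3 : ∀ᶠ z in 𝓝 z₁, z ∈ St a b ∧ (AnalyticAt ℂ f z ∧ deriv f z ≠ 0) ∧
        Qf f z = Sh f z :=
      (show ∀ᶠ z in 𝓝 z₁, z ∈ St a b from (isOpen_St a b).mem_nhds hz₁).and
        ((hf₁.eventually_analyticAt.and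
        (hf₁.deriv.continuousAt.eventually_ne hf₁')).and (Qf_near hf₁ hf₁'))
    obtain ⟨δ, hδ, hsub⟩ := Metric.eventually_nhds_iff_ball.1 h3
    have h4 := loc hδ (fun z hz => (hsub z hz).2.1) (Q := Y.Q)
      (fun z hz => by rw [hYQ]; exact (hsub z hz).2.2)
      (fun z hz => ⟨hY.d1 z (hsub z hz).1, hY.d1' z (hsub z hz).1, hY.d2 z (hsub z hz).1,
        hY.d2' z (hsub z hz).1⟩) he e1 e1' e2 e2'
    filter_upwards [isOpen_ball.mem_nhds (mem_ball_self hδ)] with z hz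
    exact h4 z hz
  -- the identity holds near every point
  have hS := isOpen_St a b
  have hmer : MeromorphicOn (fun z => f z * Y.y1 z - Y.y2 z) (St a b) := fun z hz =>
    ((mer hf z hz).fun_mul (Sys.an_y1 hY hS z hz).meromorphicAt).fun_sub
      (Sys.an_y2 hY hS z hz).meromorphicAt
  have hconn : IsConnected (St a b) := ⟨⟨z₁, hz₁⟩, (convex_St a b).isPreconnected⟩
  have hall : ∀ t ∈ St a b, ∀ᶠ z in 𝓝[≠] t, f z * Y.y1 z - Y.y2 z = 0 := by
    intro t ht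
    rw [← meromorphicOrderAt_eq_top_iff]
    by_contra h
    have h5 := (hmer.exists_meromorphicOrderAt_ne_top_iff_forall hconn).1 ⟨⟨t, ht⟩, h⟩ ⟨z₁, hz₁⟩
    exact h5 (meromorphicOrderAt_eq_top_iff.2 (hnear.filter_mono nhdsWithin_le_nhds))
  intro t ht
  have c1 : ContinuousAt Y.y1 t := (hY.d1 t ht).continuousAt
  have c2 : ContinuousAt Y.y2 t := (hY.d2 t ht).continuousAt
  rcases hf t ht with ⟨h1, h2⟩ | ⟨h0, h1, h2⟩
  · have h3 : f t * Y.y1 t = Y.y2 t := by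
      have h4 : Tendsto (fun z => f z * Y.y1 z - Y.y2 z) (𝓝[≠] t) (𝓝 (f t * Y.y1 t - Y.y2 t)) :=
        ((h1.continuousAt.mul c1).sub c2).tendsto.mono_left nhdsWithin_le_nhds
      have h5 : Tendsto (fun z => f z * Y.y1 z - Y.y2 z) (𝓝[≠] t) (𝓝 0) :=
        tendsto_const_nhds.congr' (by
          filter_upwards [hall t ht] with z hz
          exact hz.symm)
      exact sub_eq_zero.1 (tendsto_nhds_unique h4 h5)
    refine ⟨fun h4 => (eq_div_iff h4).2 h3, fun h4 => ?_⟩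
    exfalso
    have h5 := hY.wr t ht
    rw [h4, mul_zero] at h3
    rw [h4, ← h3] at h5
    simp at h5
  · have h3 : Y.y1 t = 0 := by
      have h4 : Tendsto Y.y1 (𝓝[≠] t) (𝓝 (Y.y1 t)) := c1.tendsto.mono_left nhdsWithin_le_nhds
      have h5 : Tendsto (fun z => (f z)⁻¹ * Y.y2 z) (𝓝[≠] t) (𝓝 ((f t)⁻¹ * Y.y2 t)) :=
        (h1.continuousAt.mul c2).tendsto.mono_left nhdsWithin_le_nhds
      have h6 : Tendsto Y.y1 (𝓝[≠] t) (𝓝 ((f t)⁻¹ * Y.y2 t)) := by
        refine h5.congr' ?_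
        filter_upwards [hall t ht, pole_near h0 h1 h2] with z hz hz'
        have h7 : Y.y2 z = f z * Y.y1 z := (sub_eq_zero.1 hz).symm
        rw [h7, inv_mul_cancel_left₀ hz'.2.2]
      rw [tendsto_nhds_unique h4 h6, h0]
      simp
    exact ⟨fun h4 => absurd h3 h4, fun _ => h0⟩

end Pool.Agent.MP_ae5b4e_an_NB2
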