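import Pool.Agent.Lib.MP_ae5b4e_an_NBT.Label
import Pool.Agent.Lib.MP_ae5b4e_an_NBT.DomS
import Pool.Agent.Lib.MP_ae5b4e_an_NBT.Reg1
import Pool.Agent.Lib.MP_ae5b4e_an_NBT.Crit
import Pool.Agent.Lib.MP_ae5b4e_an_NB2.SysLU
import Pool.Agent.Lib.MP_ae5b4e_an_NB2.Deep

/-!
# MP_ae5b4e_an, project NB_2: the interface, the label of a conic datum with natural boundary
-/

noncomputable section

namespace Pool.Agent.MP_ae5b4e_an_NB2

open Complex Set Filter Topology Metric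
open Pool.Agent.MP_ae5b4e_an_NBT

variable {k : ℂ → ℂ} {F G : ℂ × ℂ → ℂ} {c h : ℝ}

private lemma exl_zero_ne {Y : Sys} {S : Set ℂ} (hY : Y.On S) {t : ℂ} (ht : t ∈ S) :
    ¬ ∀ᶠ s in 𝓝 t, Y.y1 s = 0 := by
  intro h0
  have h1 : Y.y1 t = 0 := h0.self_of_nhds
  have h2 : Y.y1' t = 0 := by
    have h3 : HasDerivAt Y.y1 0 t := (hasDerivAt_const t (0:ℂ)).congr_of_eventuallyEq h0
    exact (hY.d1 t ht).unique h3
  have h3 := hY.wr t ht
  rw [h1, h2] at h3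
  simp at h3

private lemma exl_tend (t : ℂ) : Tendsto (fun s : ℂ => ((s, 0) : ℂ × ℂ)) (𝓝 t) (𝓝 (t, 0)) := by
  have : Continuous fun s : ℂ => ((s, 0) : ℂ × ℂ) := by fun_prop
  exact this.tendsto t

/-- the Wronskian step: the algebra of the node relation -/
private lemma exl_alg {Y : Sys} {l u v : ℂ} (hw : Y.y1 l * Y.y2' l - Y.y1' l * Y.y2 l = 1)
    (hl : Y.y1 l ≠ 0) (hu : Y.y1 u ≠ 0) (hv : Y.y1 v ≠ 0) (hsu : Y.s u l ≠ 0) (hsv : Y.s v l ≠ 0)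
    (h : (Y.y2 u / Y.y1 u - Y.y2 l / Y.y1 l)⁻¹ + (Y.y2 v / Y.y1 v - Y.y2 l / Y.y1 l)⁻¹ =
      2 * Y.y1' l * Y.y1 l) : Y.c u l * Y.s v l + Y.c v l * Y.s u l = 0 := by
  have e1 : (Y.y2 u / Y.y1 u - Y.y2 l / Y.y1 l)⁻¹ = Y.y1 u * Y.y1 l / Y.s u l := by
    have : Y.y2 u / Y.y1 u - Y.y2 l / Y.y1 l = Y.s u l / (Y.y1 u * Y.y1 l) := by
      unfold Sys.s
      field_simp
    rw [this, inv_div]
  have e2 : (Y.y2 v / Y.y1 v - Y.y2 l / Y.y1 l)⁻¹ = Y.y1 v * Y.y1 l / Y.s v l := by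
    have : Y.y2 v / Y.y1 v - Y.y2 l / Y.y1 l = Y.s v l / (Y.y1 v * Y.y1 l) := by
      unfold Sys.s
      field_simp
    rw [this, inv_div]
  rw [e1, e2, div_add_div _ _ hsu hsv, div_eq_iff (mul_ne_zero hsu hsv)] at h
  have e3 : Y.y1 u = Y.y1 l * Y.c u l + Y.y1' l * Y.s u l := by
    unfold Sys.c Sys.s
    linear_combination (-Y.y1 u) * hw
  have e4 : Y.y1 v = Y.y1 l * Y.c v l + Y.y1' l * Y.s v l := by
    unfold Sys.c Sys.s
    linear_combination (-Y.y1 v) * hw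
  have e5 : Y.y1 l * Y.y1 l * (Y.c u l * Y.s v l + Y.c v l * Y.s u l) = 0 := by
    have e6 : (Y.y1 l * Y.c u l + Y.y1' l * Y.s u l) * Y.y1 l * Y.s v l +
        Y.s u l * ((Y.y1 l * Y.c v l + Y.y1' l * Y.s v l) * Y.y1 l) =
        2 * Y.y1' l * Y.y1 l * (Y.s u l * Y.s v l) := by
      rw [← e3, ← e4]
      exact h
    linear_combination e6
  exact (mul_eq_zero.1 e5).resolve_left (mul_ne_zero hl hl)

/-- the difference of two labels is not locally zero -/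
private lemma exl_den {Y : Sys} {h : ℝ} (hY : Y.On (St (-h) h)) {L : ℂ × ℂ → ℂ} {t : ℂ}
    (ht : t ∈ St (-h) h) (hL : AnalyticAt ℂ L (t, 0)) (hL0 : ∀ᶠ s in 𝓝 t, L (s, 0) = s) (σ : ℂ)
    (hσ : σ ≠ 0) (hA : AnalyticAt ℂ (fun p : ℂ × ℂ => Y.s (L (p.1 + σ * p.2, p.2)) (L p)) (t, 0)) :
    Den (fun p : ℂ × ℂ => Y.s (L (p.1 + σ * p.2, p.2)) (L p)) (t, 0) := by
  refine ⟨hA, fun h0 => ?_⟩
  have hLt : L (t, 0) = t := hL0.self_of_nhds
  have hd := hL.differentiableAt.hasFDerivAt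
  have hD1 : fderiv ℂ L (t, 0) (1, 0) = 1 := by
    have h1 : HasDerivAt (fun s : ℂ => ((s, 0) : ℂ × ℂ)) (1, 0) t :=
      (hasDerivAt_id t).prodMk (hasDerivAt_const t 0)
    have h2 := hd.comp_hasDerivAt t h1
    have h3 : HasDerivAt (fun s => L (s, 0)) 1 t :=
      (hasDerivAt_id t).congr_of_eventuallyEq hL0
    exact h2.unique h3
  obtain ⟨β, hβ⟩ : ∃ β : ℂ, β = fderiv ℂ L (t, 0) (0, 1) := ⟨_, rfl⟩
  have h1 : HasDerivAt (fun η : ℂ => L (t, η)) β 0 := by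
    have h1 : HasDerivAt (fun η : ℂ => ((t, η) : ℂ × ℂ)) (0, 1) 0 :=
      (hasDerivAt_const 0 t).prodMk (hasDerivAt_id 0)
    rw [hβ]
    exact hd.comp_hasDerivAt (0:ℂ) h1
  have h2 : HasDerivAt (fun η : ℂ => L (t + σ * η, η)) (σ + β) 0 := by
    have h3 : HasDerivAt (fun η : ℂ => ((t + σ * η, η) : ℂ × ℂ)) (σ, 1) 0 := by
      have h4 : HasDerivAt (fun η : ℂ => t + σ * η) σ 0 := by
        simpa using ((hasDerivAt_id (0:ℂ)).const_mul σ).const_add t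
      exact h4.prodMk (hasDerivAt_id 0)
    have h5 : HasFDerivAt L (fderiv ℂ L (t, 0)) ((fun η : ℂ => ((t + σ * η, η) : ℂ × ℂ)) 0) := by
      simpa using hd
    have h6 := HasFDerivAt.comp_hasDerivAt (f := fun η : ℂ => ((t + σ * η, η) : ℂ × ℂ))
      (0:ℂ) h5 h3
    have h7 : fderiv ℂ L (t, 0) (σ, 1) = σ + β := by
      have h8 : ((σ, 1) : ℂ × ℂ) = σ • ((1, 0) : ℂ × ℂ) + (0, 1) := by
        ext <;> simp
      rw [h8, map_add, map_smul, hD1, hβ, smul_eq_mul, mul_one]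
    rw [h7] at h6
    exact h6
  have hy1 : HasDerivAt Y.y1 (Y.y1' t) (L (t, 0)) := by rw [hLt]; exact hY.d1 t ht
  have hy2 : HasDerivAt Y.y2 (Y.y2' t) (L (t, 0)) := by rw [hLt]; exact hY.d2 t ht
  have g1 : HasDerivAt (fun η : ℂ => Y.y1 (L (t, η))) (Y.y1' t * β) 0 := hy1.comp (0:ℂ) h1
  have g2 : HasDerivAt (fun η : ℂ => Y.y2 (L (t, η))) (Y.y2' t * β) 0 := hy2.comp (0:ℂ) h1
  have hz : (fun η : ℂ => L (t + σ * η, η)) 0 = L (t, 0) := by simp
  have g3 : HasDerivAt (fun η : ℂ => Y.y1 (L (t + σ * η, η))) (Y.y1' t * (σ + β)) 0 := by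
    have h8 : HasDerivAt Y.y1 (Y.y1' t) ((fun η : ℂ => L (t + σ * η, η)) 0) := by
      rw [hz]; exact hy1
    exact h8.comp (0:ℂ) h2
  have g4 : HasDerivAt (fun η : ℂ => Y.y2 (L (t + σ * η, η))) (Y.y2' t * (σ + β)) 0 := by
    have h8 : HasDerivAt Y.y2 (Y.y2' t) ((fun η : ℂ => L (t + σ * η, η)) 0) := by
      rw [hz]; exact hy2
    exact h8.comp (0:ℂ) h2
  have g5 := (g1.mul g4).sub (g2.mul g3)
  have g6 : HasDerivAt (fun η : ℂ => Y.s (L (t + σ * η, η)) (L (t, η))) 0 0 := by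
    refine (hasDerivAt_const (0:ℂ) (0:ℂ)).congr_of_eventuallyEq ?_
    have h8 : Tendsto (fun η : ℂ => ((t, η) : ℂ × ℂ)) (𝓝 0) (𝓝 (t, 0)) := by
      have : Continuous fun η : ℂ => ((t, η) : ℂ × ℂ) := by fun_prop
      exact this.tendsto 0
    exact h8.eventually h0
  have g7 := g5.unique g6
  have hw := hY.wr t ht
  simp only [mul_zero, add_zero, hLt] at g7
  have g8 : σ * (Y.y1 t * Y.y2' t - Y.y1' t * Y.y2 t) = 0 := by linear_combination g7
  rw [hw, mul_one] at g8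
  exact hσ g8

/-- **the interface**: the label and the fundamental system of a conic datum with natural boundary
at the height `h` -/
theorem exists_lab (hN : NBd k F c h G) : ∃ (Y : Sys) (L : ℂ × ℂ → ℂ), Lab Y h L ∧
    (∀ t ∈ St (-h) h, (Y.y1 t ≠ 0 → sl G 0 t = Y.y2 t / Y.y1 t) ∧
      (Y.y1 t = 0 → sl G 0 t = 0)) ∧
    ∀ t ∈ St (-h) h, EqM G (fun p => Y.y2 (L p) / Y.y1 (L p)) (t, 0) := by
  have hE := hN.toConE
  obtain ⟨R, hR0, hR, L, hLan, hLp, hLz⟩ := exists_label hN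
  obtain ⟨hfam, hLU⟩ := fam_of_nb hN
  have hh : 0 < h := by
    by_contra hn
    have h1 := hE.hc
    have h2 := hE.pos
    linarith
  obtain ⟨Y, hY, hYF⟩ := exists_sys_of_lu (by linarith : -h < h) hLU
  have hmem : ∀ t ∈ St (-h) h, ((t, 0) : ℂ × ℂ) ∈ DK F c R := by
    intro t ht
    have h1 := mem_DK_zero hE (abs_lt.2 ht)
    exact ⟨mem_ball_self hR0, h1.2⟩
  have hev : ∀ t ∈ St (-h) h, ∀ᶠ p : ℂ × ℂ in 𝓝 (t, 0), p ∈ DK F c R := fun t ht =>
    (isOpen_Dom _ _ _ _).mem_nhds (hmem t ht)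
  have hL0 : ∀ t ∈ St (-h) h, L (t, 0) = t := fun t ht => hLz t (abs_lt.2 ht)
  have hSt : ∀ t ∈ St (-h) h, ∀ᶠ s in 𝓝 t, s ∈ St (-h) h := fun t ht =>
    (isOpen_St _ _).mem_nhds ht
  have hLS : ∀ t ∈ St (-h) h, ∀ᶠ p : ℂ × ℂ in 𝓝 (t, 0), L p ∈ St (-h) h := fun t ht => by
    filter_upwards [hev t ht] with p hp
    exact abs_lt.1 (hLp p hp).1
  -- analyticity of the composed functions
  have hy1an : ∀ t ∈ St (-h) h, AnalyticAt ℂ Y.y1 t := Sys.an_y1 hY (isOpen_St _ _)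
  have hd1 : ∀ t ∈ St (-h) h, Den (fun p => Y.y1 (L p)) (t, 0) := by
    intro t ht
    have h1 : AnalyticAt ℂ (fun p => Y.y1 (L p)) (t, 0) := by
      refine AnalyticAt.fun_comp ?_ (hLan _ (hmem t ht))
      rw [hL0 t ht]
      exact hy1an t ht
    refine ⟨h1, fun h0 => exl_zero_ne hY ht ?_⟩
    filter_upwards [(exl_tend t).eventually h0, hSt t ht] with s hs hs'
    rwa [hL0 s hs'] at hs
  have hthird : ∀ t ∈ St (-h) h, EqM G (fun p => Y.y2 (L p) / Y.y1 (L p)) (t, 0) := by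
    intro t ht
    refine (hLp _ (hmem t ht)).2.2.2.2.1.trans ⟨_, hd1 t ht, ?_⟩
    filter_upwards [hLS t ht] with p hp hne
    exact (hYF _ hp).1 hne
  refine ⟨Y, L, ⟨hh, hY, fun t ht => hLan _ (hmem t ht), hL0, ?_, ?_⟩, hYF, hthird⟩
  · intro t ht
    filter_upwards [hev t ht] with p hp
    exact (hLp p hp).2.2.1
  · intro t ht
    have hLt := hL0 t ht
    have hLat := hLan _ (hmem t ht)
    have hsh : ∀ σ : ℂ, AnalyticAt ℂ (fun p : ℂ × ℂ => ((p.1 + σ * p.2, p.2) : ℂ × ℂ)) (t, 0) := by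
      intro σ
      exact (analyticAt_fst.add (analyticAt_const.mul analyticAt_snd)).prod analyticAt_snd
    have hLsh : ∀ σ : ℂ, AnalyticAt ℂ (fun p : ℂ × ℂ => L (p.1 + σ * p.2, p.2)) (t, 0) := by
      intro σ
      refine AnalyticAt.fun_comp ?_ (hsh σ)
      simpa using hLat
    have hval : ∀ σ : ℂ, (fun p : ℂ × ℂ => L (p.1 + σ * p.2, p.2)) (t, 0) ∈ St (-h) h := by
      intro σ
      simpa [hLt] using ht
    have hLtS : L (t, 0) ∈ St (-h) h := by rw [hLt]; exact ht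
    have hsan : ∀ σ : ℂ, AnalyticAt ℂ
        (fun p : ℂ × ℂ => Y.s (L (p.1 + σ * p.2, p.2)) (L p)) (t, 0) := fun σ =>
      Sys.an_s hY (isOpen_St _ _) (hLsh σ) hLat (hval σ) hLtS
    have hcan : ∀ σ : ℂ, AnalyticAt ℂ
        (fun p : ℂ × ℂ => Y.c (L (p.1 + σ * p.2, p.2)) (L p)) (t, 0) := fun σ =>
      Sys.an_c hY (isOpen_St _ _) (hLsh σ) hLat (hval σ) hLtS
    have hL0e : ∀ᶠ s in 𝓝 t, L (s, 0) = s := by
      filter_upwards [hSt t ht] with s hs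
      exact hL0 s hs
    have hds : ∀ σ : ℂ, σ ≠ 0 → Den
        (fun p : ℂ × ℂ => Y.s (L (p.1 + σ * p.2, p.2)) (L p)) (t, 0) := fun σ hσ =>
      exl_den hY ht hLat hL0e σ hσ (hsan σ)
    have hd1s : ∀ σ : ℂ, Den (fun p : ℂ × ℂ => Y.y1 (L (p.1 + σ * p.2, p.2))) (t, 0) := by
      intro σ
      have h1 : AnalyticAt ℂ (fun p : ℂ × ℂ => Y.y1 (L (p.1 + σ * p.2, p.2))) (t, 0) := by
        refine AnalyticAt.fun_comp ?_ (hLsh σ)
        exact hy1an _ (hval σ)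
      refine ⟨h1, fun h0 => exl_zero_ne hY ht ?_⟩
      filter_upwards [(exl_tend t).eventually h0, hSt t ht] with s hs hs'
      simpa [hL0 s hs'] using hs
    -- the relation between `KF G` and the label
    have hG := hthird t ht
    have hGs : ∀ σ : ℂ, EqM (fun p : ℂ × ℂ => G (p.1 + σ * p.2, p.2))
        (fun p : ℂ × ℂ => Y.y2 (L (p.1 + σ * p.2, p.2)) / Y.y1 (L (p.1 + σ * p.2, p.2)))
        (t, 0) := by
      intro σ
      have hdiff : Differentiable ℂ (fun z : ℂ => σ * z) := by fun_prop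
      exact EqM.shift (h := fun z : ℂ => σ * z) hdiff (p := (t, 0)) (by simpa using hG)
    have hK : EqM (fun p : ℂ × ℂ => (G (p.1 + 1 * p.2, p.2) - G p)⁻¹ +
        (G (p.1 + (-1) * p.2, p.2) - G p)⁻¹)
        (fun p : ℂ × ℂ => (Y.y2 (L (p.1 + 1 * p.2, p.2)) / Y.y1 (L (p.1 + 1 * p.2, p.2)) -
          Y.y2 (L p) / Y.y1 (L p))⁻¹ +
          (Y.y2 (L (p.1 + (-1) * p.2, p.2)) / Y.y1 (L (p.1 + (-1) * p.2, p.2)) -
          Y.y2 (L p) / Y.y1 (L p))⁻¹) (t, 0) :=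
      EqM.map₂ (fun a b => a + b) (EqM.map₂ (fun a b => (a - b)⁻¹) (hGs 1) hG)
        (EqM.map₂ (fun a b => (a - b)⁻¹) (hGs (-1)) hG)
    have hKG : KF G = fun p : ℂ × ℂ => (G (p.1 + 1 * p.2, p.2) - G p)⁻¹ +
        (G (p.1 + (-1) * p.2, p.2) - G p)⁻¹ := by
      funext p
      unfold KF
      rw [one_mul, neg_one_mul, ← sub_eq_add_neg]
    rw [← hKG] at hK
    -- the slice of `KF G`
    have hslK : ∀ᶠ s in 𝓝[≠] t, sl (KF G) 0 s = 2 * Y.y1' s * Y.y1 s := by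
      have h1 := sl_K_zero hE (abs_lt.2 ht)
      have h2 : ∀ᶠ s in 𝓝[≠] t, Y.y1 s ≠ 0 := by
        rcases (hy1an t ht).eventually_eq_zero_or_eventually_ne_zero with h3 | h3
        · exact absurd h3 (exl_zero_ne hY ht)
        · exact h3
      have h3 : ∀ᶠ s in 𝓝[≠] t, s ∈ St (-h) h := (hSt t ht).filter_mono nhdsWithin_le_nhds
      filter_upwards [h1, h2, h3] with s hs1 hs2 hs3
      have h4 : ∀ᶠ w in 𝓝 s, Y.y1 w ≠ 0 ∧ w ∈ St (-h) h :=
        ((hY.d1 s hs3).continuousAt.eventually_ne hs2).and (hSt s hs3)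
      have h5 : ∀ᶠ w in 𝓝 s, HasDerivAt (sl G 0) ((Y.y1 w ^ 2)⁻¹) w := by
        filter_upwards [h4.eventually_nhds] with w hw
        have hw0 := hw.self_of_nhds
        have h6 := (hY.d2 w hw0.2).div (hY.d1 w hw0.2) hw0.1
        have h7 : (Y.y2' w * Y.y1 w - Y.y2 w * Y.y1' w) / Y.y1 w ^ 2 = (Y.y1 w ^ 2)⁻¹ := by
          have := hY.wr w hw0.2
          rw [div_eq_mul_inv]
          have h8 : Y.y2' w * Y.y1 w - Y.y2 w * Y.y1' w = 1 := by linear_combination this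
          rw [h8, one_mul]
        rw [h7] at h6
        refine h6.congr_of_eventuallyEq ?_
        filter_upwards [hw] with x hx
        exact (hYF x hx.2).1 hx.1
      have h6 : deriv (sl G 0) s = (Y.y1 s ^ 2)⁻¹ := h5.self_of_nhds.deriv
      have h7 : deriv (deriv (sl G 0)) s = -(2 * Y.y1 s * Y.y1' s) / (Y.y1 s ^ 2) ^ 2 := by
        have h8 : HasDerivAt (fun w => (Y.y1 w ^ 2)⁻¹)
            (-(2 * Y.y1 s * Y.y1' s) / (Y.y1 s ^ 2) ^ 2) s := by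
          have h9 := ((hY.d1 s hs3).pow 2).inv (pow_ne_zero 2 hs2)
          have h10 : -(((2:ℕ) : ℂ) * Y.y1 s ^ (2 - 1) * Y.y1' s) / (Y.y1 s ^ 2) ^ 2 =
              -(2 * Y.y1 s * Y.y1' s) / (Y.y1 s ^ 2) ^ 2 := by norm_num
          rw [← h10]
          exact h9
        have h11 : deriv (sl G 0) =ᶠ[𝓝 s] fun w => (Y.y1 w ^ 2)⁻¹ := by
          filter_upwards [h5] with w hw
          exact hw.deriv
        exact (h8.congr_of_eventuallyEq h11).deriv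
      rw [hs1, h6, h7]
      field_simp
    have hden : Den (fun p : ℂ × ℂ => L p - t) (t, 0) := by
      refine ⟨hLat.sub analyticAt_const, fun h0 => ?_⟩
      have h1 : ∀ᶠ s in 𝓝 t, s = t := by
        filter_upwards [(exl_tend t).eventually h0, hL0e] with s hs hs'
        rw [hs'] at hs
        exact sub_eq_zero.1 hs
      have h2 : HasDerivAt (fun s : ℂ => s) 0 t :=
        (hasDerivAt_const t t).congr_of_eventuallyEq h1
      exact one_ne_zero ((hasDerivAt_id t).unique h2)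
    have hK2 : EqM (fun p => sl (KF G) 0 (L p)) (fun p => 2 * Y.y1' (L p) * Y.y1 (L p))
        (t, 0) := by
      refine ⟨_, hden, ?_⟩
      rw [eventually_nhdsWithin_iff] at hslK
      have h1 : Tendsto L (𝓝 (t, 0)) (𝓝 t) := by
        have := hLat.continuousAt.tendsto
        rwa [hLt] at this
      filter_upwards [h1.eventually hslK] with p hp hne
      exact hp fun he => hne (sub_eq_zero.2 he)
    have hfin := (hK.symm.trans (hLp _ (hmem t ht)).2.2.2.2.2).trans hK2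
    -- the node relation off a thin set
    have hE0 : EqM (fun p : ℂ × ℂ =>
        Y.c (L (p.1 + 1 * p.2, p.2)) (L p) * Y.s (L (p.1 + (-1) * p.2, p.2)) (L p) +
        Y.c (L (p.1 + (-1) * p.2, p.2)) (L p) * Y.s (L (p.1 + 1 * p.2, p.2)) (L p))
        (fun _ => 0) (t, 0) := by
      obtain ⟨B, hB, hBe⟩ := hfin
      have hB2 := (((((hB.mul (hd1 t ht)).mul (hd1s 1)).mul (hd1s (-1))).mul
        (hds 1 one_ne_zero)).mul (hds (-1) (neg_ne_zero.2 one_ne_zero)))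
      refine ⟨_, hB2, ?_⟩
      filter_upwards [hBe, hLS t ht] with p hp hpS hne
      simp only [mul_ne_zero_iff] at hne
      obtain ⟨⟨⟨⟨⟨h1, h2⟩, h3⟩, h4⟩, h5⟩, h6⟩ := hne
      exact exl_alg (hY.wr _ hpS) h2 h3 h4 h5 h6 (hp h1)
    have hE1 := EqM.eventuallyEq (((hcan 1).mul (hsan (-1))).add ((hcan (-1)).mul (hsan 1)))
      analyticAt_const hE0
    filter_upwards [hE1] with p hp
    have h1 : Y.c (L (p.1 + 1 * p.2, p.2)) (L p) * Y.s (L (p.1 + (-1) * p.2, p.2)) (L p) +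
        Y.c (L (p.1 + (-1) * p.2, p.2)) (L p) * Y.s (L (p.1 + 1 * p.2, p.2)) (L p) = 0 := hp
    rw [one_mul, neg_one_mul, ← sub_eq_add_neg] at h1
    exact h1

end Pool.Agent.MP_ae5b4e_an_NB2
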