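import Pool.Agent.Lib.MP_ae5b4e_an_NB2.Step

/-!
# MP_ae5b4e_an, project NB_2: one layer, the label at `t` from the labels at `t - η`, `t - 2 η`
-/

noncomputable section

namespace Pool.Agent.MP_ae5b4e_an_NB2

open Complex Set Filter Topology Metric
open Pool.Agent.MP_ae5b4e_an_NBT (St isOpen_St convex_St)
open Pool.Agent.Lib.MP_ae5b4e_an_LL

/-- the point `(t - j η, η)` -/
def sh (j : ℕ) (p : ℂ × ℂ) : ℂ × ℂ := (p.1 - j * p.2, p.2)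

theorem continuous_sh (j : ℕ) : Continuous (sh j) := by
  unfold sh
  fun_prop

theorem analyticAt_sh (j : ℕ) (p : ℂ × ℂ) : AnalyticAt ℂ (sh j) p := by
  unfold sh
  exact AnalyticAt.prod (analyticAt_fst.fun_sub (analyticAt_const.fun_mul analyticAt_snd))
    analyticAt_snd

variable {Y : Sys} {S : Set ℂ}

theorem layer (hY : Y.On S) (hS : IsOpen S) {A B : Set (ℂ × ℂ)} {Λ : ℂ × ℂ → ℂ}
    (hΛ : AnalyticOnNhd ℂ Λ A) {r : ℂ × ℂ → ℝ} (hB : IsOpen B) (hr : ContinuousOn r B)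
    (hA1 : MapsTo (sh 1) B A) (hA2 : MapsTo (sh 2) B A)
    (hΛS : ∀ p ∈ B, Λ (sh 2 p) ∈ S)
    (hN : ∀ p ∈ B, Y.Nod S (Λ (sh 1 p)) (r p)) (h0 : ∀ p ∈ B, Λ (sh 1 p) ≠ Λ (sh 2 p))
    (hs : ∀ p ∈ B, ‖Λ (sh 1 p) - Λ (sh 2 p)‖ ≤ r p / 8) :
    ∃ Λ' : ℂ × ℂ → ℂ, AnalyticOnNhd ℂ Λ' B ∧ ∀ p ∈ B, Λ' p ∈ S ∧ Λ' p ≠ Λ (sh 1 p) ∧
      ‖Λ' p - Λ (sh 1 p)‖ ≤ 2 * ‖Λ (sh 1 p) - Λ (sh 2 p)‖ ∧
      Y.node (Λ (sh 1 p)) (Λ' p) (Λ (sh 2 p)) ∧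
      ‖(Λ' p - Λ (sh 1 p))⁻¹ - (Λ (sh 1 p) - Λ (sh 2 p))⁻¹‖ ≤
        1 / 2 * ‖Λ (sh 1 p) - Λ (sh 2 p)‖ ^ 2 / r p ^ 3 := by
  classical
  have hex : ∀ p : ℂ × ℂ, p ∈ B → ∃ s : ℂ, s ≠ 0 ∧ ‖s‖ ≤ 2 * ‖Λ (sh 1 p) - Λ (sh 2 p)‖ ∧
      Y.node (Λ (sh 1 p)) (Λ (sh 1 p) + s) (Λ (sh 2 p)) ∧
      ‖s⁻¹ - (Λ (sh 1 p) - Λ (sh 2 p))⁻¹‖ ≤
        1 / 2 * ‖Λ (sh 1 p) - Λ (sh 2 p)‖ ^ 2 / r p ^ 3 := by
    intro p hp
    obtain ⟨s, h1, h2, h3, h4⟩ := step_exists hY hS (hN p hp) (sub_ne_zero.2 (h0 p hp)) (hs p hp)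
    rw [sub_sub_cancel] at h3
    exact ⟨s, h1, h2, h3, h4⟩
  choose! s hs0 hs1 hs2 hs3 using hex
  set Λ' : ℂ × ℂ → ℂ := fun p => Λ (sh 1 p) + s p with hΛ'
  have hsub : ∀ p, Λ' p - Λ (sh 1 p) = s p := fun p => by simp [hΛ']
  have hΛ'S : ∀ p ∈ B, Λ' p ∈ S := by
    intro p hp
    apply (hN p hp).sub
    have h1 := hs1 p hp
    have h2 := hs p hp
    have h3 := (hN p hp).pos
    rw [mem_ball, dist_eq_norm, hsub]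
    linarith
  refine ⟨Λ', fun p₀ hp₀ => ?_, fun p hp => ⟨hΛ'S p hp, ?_, ?_, hs2 p hp, ?_⟩⟩
  · -- analyticity
    have ha : AnalyticAt ℂ (fun p => Λ (sh 1 p)) p₀ :=
      AnalyticAt.fun_comp (hΛ _ (hA1 hp₀)) (analyticAt_sh 1 p₀)
    have hb : AnalyticAt ℂ (fun p => Λ (sh 2 p)) p₀ :=
      AnalyticAt.fun_comp (hΛ _ (hA2 hp₀)) (analyticAt_sh 2 p₀)
    have hl : Λ (sh 1 p₀) ∈ S := (hN p₀ hp₀).sub (mem_ball_self (hN p₀ hp₀).pos)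
    have hv : Y.s (Λ (sh 2 p₀)) (Λ (sh 1 p₀)) ≠ 0 := by
      have h1 := Sys.s_ne_zero hY hS (hN p₀ hp₀) (z := Λ (sh 2 p₀) - Λ (sh 1 p₀)) (by
        rw [norm_sub_rev]
        have := hs p₀ hp₀
        have := (hN p₀ hp₀).pos
        linarith) (sub_ne_zero.2 (h0 p₀ hp₀).symm)
      rwa [add_sub_cancel] at h1
    obtain ⟨σ, hσ1, hσ2, hσ3⟩ := step_analytic hY hS (u₀ := Λ' p₀) ha hb hl (hΛS p₀ hp₀)
      (hΛ'S p₀ hp₀) hv (hs2 p₀ hp₀)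
    refine hσ1.congr ?_
    have hc : ContinuousAt (fun p => ‖σ p - Λ (sh 1 p)‖ - r p / 2) p₀ :=
      (hσ1.continuousAt.sub ha.continuousAt).norm.sub
        ((hr.continuousAt (hB.mem_nhds hp₀)).div_const 2)
    have hlt : ‖σ p₀ - Λ (sh 1 p₀)‖ - r p₀ / 2 < 0 := by
      rw [hσ2, hsub]
      have h1 := hs1 p₀ hp₀
      have h2 := hs p₀ hp₀
      have h3 := (hN p₀ hp₀).pos
      linarith
    filter_upwards [hc.eventually (gt_mem_nhds hlt), hB.mem_nhds hp₀, hσ3] with p hp1 hp2 hp3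
    have h3 := (hN p hp2).pos
    have h4 : Y.node (Λ (sh 1 p)) (Λ (sh 1 p) + (σ p - Λ (sh 1 p)))
        (Λ (sh 1 p) - (Λ (sh 1 p) - Λ (sh 2 p))) := by
      rw [add_sub_cancel, sub_sub_cancel]
      exact hp3
    have h5 : Y.node (Λ (sh 1 p)) (Λ (sh 1 p) + s p)
        (Λ (sh 1 p) - (Λ (sh 1 p) - Λ (sh 2 p))) := by
      rw [sub_sub_cancel]
      exact hs2 p hp2
    have h6 := step_unique hY hS (hN p hp2) (s₁ := σ p - Λ (sh 1 p)) (s₂ := s p) (by linarith)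
      (by
        have h1 := hs1 p hp2
        have h2 := hs p hp2
        linarith) (sub_ne_zero.2 (h0 p hp2)) (by
        have h2 := hs p hp2
        linarith) h4 h5
    show σ p = Λ (sh 1 p) + s p
    rw [← h6, add_sub_cancel]
  · intro h
    apply hs0 p hp
    rw [← hsub, h, sub_self]
  · rw [hsub]
    exact hs1 p hp
  · rw [hsub]
    exact hs3 p hp

end Pool.Agent.MP_ae5b4e_an_NB2
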