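import Pool.Agent.Lib.MP_ae5b4e_an_NB2.WInd

/-!
# MP_ae5b4e_an, project NB_2: Lemma W
-/

noncomputable section

namespace Pool.Agent.MP_ae5b4e_an_NB2

open Complex Set Filter Topology Metric
open Pool.Agent.MP_ae5b4e_an_NBT (St isOpen_St convex_St)
open Pool.Agent.Lib.MP_ae5b4e_an_LL

variable {Y : Sys} {h b l q ε : ℝ} {L M : ℂ × ℂ → ℂ}

theorem exists_con (hL : Lab Y h L) (hM : IsExt h L M) (hA : Arc Y h b l q) (hε : 0 < ε)
    (hε1 : ε ≤ 1 / 2) : ∃ R > 0, ∃ Mc, WCon Y h b l q ε R Mc M := by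
  have hl := hA.l_pos
  have hlh := hA.l_le
  have hh := hL.h_pos
  set K : Set ℂ := Icc (b - 15 * l / 16) (b + 15 * l / 16) ×ℂ Icc (h - 7 * l / 8) (h - ε * l / 16)
    with hK
  have hεl : 0 < ε * l := mul_pos hε hl
  have hKc : IsCompact K := isCompact_Icc.reProdIm isCompact_Icc
  have hKv : Convex ℝ K := by
    have h1 : Convex ℝ (Complex.reLm ⁻¹' Icc (b - 15 * l / 16) (b + 15 * l / 16)) :=
      (convex_Icc _ _).linear_preimage _
    have h2 : Convex ℝ (Complex.imLm ⁻¹' Icc (h - 7 * l / 8) (h - ε * l / 16)) :=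
      (convex_Icc _ _).linear_preimage _
    exact h1.inter h2
  have hKS : K ⊆ St (-h) h := by
    rintro z ⟨-, h1, h2⟩
    constructor <;> linarith
  obtain ⟨R₀, hR₀, Mc, hMc, d1, d2, d3, d4⟩ := deep hL hM hKc hKv hKS
  set a := 1 / (8 * (Mc + 1) * (1 + 4 * l / ε)) with ha
  have h4l : 0 < 4 * l / ε := by positivity
  have ha0 : 0 < a := by positivity
  set R := min R₀ (min (ε * l / 64) a) with hR
  have hR1 : R ≤ R₀ := min_le_left _ _
  have hR2 : R ≤ ε * l / 64 := (min_le_right _ _).trans (min_le_left _ _)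
  have hR3 : R ≤ a := (min_le_right _ _).trans (min_le_right _ _)
  have hR0 : 0 < R := lt_min hR₀ (lt_min (by positivity) ha0)
  have hmem : ∀ p ∈ WN h b l ε (100 * q ^ 2 / ε) R 0, p.1 ∈ K ∧ ‖p.2‖ < R₀ := by
    rintro p ⟨h1, h2, h3, h4, h5, h6, h7⟩
    refine ⟨⟨?_, ?_⟩, h4.trans_le hR1⟩
    · have h8 : min (dep h p.1) (ε * l / 8) / ε ≤ l / 8 := by
        rw [div_le_iff₀ hε]
        have := min_le_right (dep h p.1) (ε * l / 8)
        linarith
      have h9 : |p.1.re - b| < 3 * l / 4 + l / 8 := by linarith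
      rw [abs_lt] at h9
      constructor <;> linarith
    · rw [Nat.cast_zero, zero_mul, add_zero] at h7
      unfold dep at h3 h7
      constructor <;> linarith
  have ha8 : Mc * (1 + 4 * l / ε) * a ≤ 1 / 8 := by
    rw [ha]
    have : Mc * (1 + 4 * l / ε) * (1 / (8 * (Mc + 1) * (1 + 4 * l / ε))) =
        Mc / (Mc + 1) * (1 / 8) := by field_simp
    rw [this]
    have : Mc / (Mc + 1) ≤ 1 := by
      rw [div_le_one (by linarith)]
      linarith
    linarith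
  have hR3' : Mc * (1 + 4 * l / ε) * R ≤ 1 / 8 := by
    refine le_trans ?_ ha8
    gcongr
  have hMR : Mc * R ≤ 1 / 8 := by
    refine le_trans ?_ hR3'
    have : 0 ≤ Mc * R * (4 * l / ε) := by positivity
    nlinarith
  have hR8 : R ≤ 1 / 8 := by
    refine hR3.trans ?_
    rw [ha]
    apply one_div_le_one_div_of_le (by norm_num)
    nlinarith [mul_pos hMc h4l]
  refine ⟨R, hR0, Mc, ?_⟩
  refine
    { on := hL.on
      arc := hA
      ε_pos := hε
      ε_le := hε1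
      R_pos := hR0
      Mc_nonneg := hMc.le
      R1 := hR2
      R2 := ?_
      R3 := hR3'
      an := ?_
      quad := ?_
      lip := ?_
      node := ?_ }
  · have : 2 * Mc * R ^ 2 = 2 * (Mc * R) * R := by ring
    rw [this]
    nlinarith
  · intro p hp
    obtain ⟨h1, h2⟩ := hmem p hp
    exact hM.an p (mem_hdom_of_lreg (d1 _ h1) h2)
  · intro p hp
    obtain ⟨h1, h2⟩ := hmem p hp
    exact d2 _ h1 _ h2
  · intro p hp hp1
    obtain ⟨h1, h2⟩ := hmem p hp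
    obtain ⟨h3, -⟩ := hmem _ hp1
    have h4 := d3 _ h1 _ h3 _ h2
    have h5 : ‖p.1 - (sh 1 p).1‖ = ‖p.2‖ := by
      unfold sh
      simp
    rw [h5] at h4
    exact h4
  · intro p hp hp1
    obtain ⟨h1, h2⟩ := hmem p hp
    obtain ⟨h3, -⟩ := hmem _ hp1
    have h4 := d4 _ h3 _ h2
    have e1 : (sh 1 p).1 + p.2 = p.1 := by
      unfold sh
      simp
    have e2 : ((sh 1 p).1 - p.2, p.2) = sh 2 p := by
      unfold sh
      ext
      · simp
        ring
      · rfl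
    rw [e1, e2] at h4
    exact h4

/-- the pieces glued -/
theorem exists_glue {R Mc : ℝ} (hW : WCon Y h b l q ε R Mc M) :
    ∃ Λ : ℂ × ℂ → ℂ, AnalyticOnNhd ℂ Λ (Wp h b l ε (100 * q ^ 2 / ε) R) ∧
      MapsTo Λ (Wp h b l ε (100 * q ^ 2 / ε) R) (St (-h) h) ∧
      (∀ p ∈ Wp h b l ε (100 * q ^ 2 / ε) R, ‖Λ p - p.1‖ ≤ dep h p.1 / 4) ∧
      ∀ p ∈ Wp h b l ε (100 * q ^ 2 / ε) R, ε * l / 16 < dep h p.1 → Λ p = M p := by
  classical
  have hε := hW.ε_pos
  have hl := hW.arc.l_pos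
  have hlh := hW.arc.l_le
  set C := 100 * q ^ 2 / ε with hC
  choose F hF using hW.exists_all
  have hcover : ∀ p ∈ Wp h b l ε C R, ∃ N, p ∈ WN h b l ε C R N := by
    rintro p ⟨h1, h2, h3, h4, h5, h6⟩
    have him : 0 < p.2.im := (mul_nonneg hε.le (norm_nonneg _)).trans_lt h5
    obtain ⟨N, hN⟩ := exists_nat_gt (ε * l / 16 / p.2.im)
    rw [div_lt_iff₀ him] at hN
    refine ⟨N, ?_, h2, h3, h4, h5, h6, by linarith⟩
    have : 0 ≤ min (dep h p.1) (ε * l / 8) / ε := by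
      have : 0 < min (dep h p.1) (ε * l / 8) := lt_min h2 (by positivity)
      positivity
    linarith
  have hcons : ∀ N N' : ℕ, N ≤ N' → ∀ p ∈ WN h b l ε C R N, F N' p = F N p := by
    intro N N' hNN'
    exact WN_unique hε hW.ε_le hl hW.R_pos hW.C_nonneg ((hF N').an.mono (WN_mono hε hNN'))
      (hF N).an fun p hp => by rw [(hF N').eq0 p hp, (hF N).eq0 p hp]
  have hcons' : ∀ N N' : ℕ, ∀ p ∈ WN h b l ε C R N, p ∈ WN h b l ε C R N' → F N' p = F N p := by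
    intro N N' p hp hp'
    rcases le_total N N' with h1 | h1
    · exact hcons N N' h1 p hp
    · exact (hcons N' N h1 p hp').symm
  set Λ : ℂ × ℂ → ℂ := fun p => if hp : ∃ N, p ∈ WN h b l ε C R N then F hp.choose p else 0
    with hΛ
  have heq : ∀ N, ∀ p ∈ WN h b l ε C R N, Λ p = F N p := by
    intro N p hp
    have h1 : ∃ N, p ∈ WN h b l ε C R N := ⟨N, hp⟩
    simp only [hΛ]
    rw [dif_pos h1]
    exact hcons' N _ p hp h1.choose_spec
  have hquart : ∀ p ∈ Wp h b l ε C R, ‖Λ p - p.1‖ ≤ dep h p.1 / 4 := by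
    intro p hp
    obtain ⟨N, hN⟩ := hcover p hp
    rw [heq N p hN]
    exact ((hF N).i1 p hN).trans (hW.psi_quarter hN)
  refine ⟨Λ, fun p hp => ?_, fun p hp => ?_, hquart, fun p hp hd => ?_⟩
  · obtain ⟨N, hN⟩ := hcover p hp
    refine ((hF N).an p hN).congr ?_
    filter_upwards [isOpen_WN.mem_nhds hN] with x hx
    exact (heq N x hx).symm
  · have h1 := hquart p hp
    have h2 := (Complex.abs_im_le_norm _).trans h1
    rw [Complex.sub_im, abs_le] at h2
    have h3 := hp.2.1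
    have h4 := hp.2.2.1
    unfold dep at h2 h3 h4
    constructor <;> linarith
  · obtain ⟨N, hN⟩ := hcover p hp
    have h0 := mem_WN_zero hN hd
    rw [heq 0 p h0, (hF 0).eq0 p h0]

/-- **Lemma W** -/
theorem lemW (hL : Lab Y h L) (hM : IsExt h L M)
    (hA : Arc Y h b l q) (hε : 0 < ε) (hε1 : ε ≤ 1 / 2) :
    ∃ R > 0, ∃ Λ : ℂ × ℂ → ℂ, AnalyticOnNhd ℂ Λ (Wp h b l ε (100 * q ^ 2 / ε) R) ∧
      MapsTo Λ (Wp h b l ε (100 * q ^ 2 / ε) R) (St (-h) h) ∧
      (∀ p ∈ Wp h b l ε (100 * q ^ 2 / ε) R, ‖Λ p - p.1‖ ≤ dep h p.1 / 4) ∧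
      ∀ p ∈ Wp h b l ε (100 * q ^ 2 / ε) R ∩ hdom L 0 (St (-h) h), Λ p = M p := by
  obtain ⟨R, hR, Mc, hW⟩ := exists_con hL hM hA hε hε1
  obtain ⟨Λ, hΛ, hmaps, hquart, heq⟩ := exists_glue hW
  refine ⟨R, hR, Λ, hΛ, hmaps, hquart, ?_⟩
  have hl := hA.l_pos
  have hlh := hA.l_le
  have hC := hW.C_nonneg
  set C := 100 * q ^ 2 / ε with hCdef
  have hεl : ε * l / 16 < l / 2 := by nlinarith
  rintro ⟨t, η⟩ ⟨hp, hph⟩
  rcases lt_or_ge (l / 2) (dep h t) with hd | hd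
  · exact heq _ hp (hεl.trans hd)
  obtain ⟨s, hs, hreg⟩ := hph
  have hs' : ‖η‖ < s := by simpa [dist_eq_norm] using hs
  obtain ⟨k1, k2, k3, k4, k5, k6⟩ := hp
  have hη : η ≠ 0 := by
    rintro rfl
    simp at k5
  have hn : 0 < ‖η‖ := norm_pos_iff.2 hη
  -- the vertical segment
  set t1 : ℂ := ⟨t.re, h - l / 2⟩ with ht1
  set I₀ : Set ℂ := segment ℝ t t1 with hI₀
  have hI : ∀ z ∈ I₀, z.re = t.re ∧ dep h t ≤ dep h z ∧ dep h z ≤ l / 2 := by
    rintro z ⟨a, b', ha, hb, hab, rfl⟩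
    have e1 : (a • t + b' • t1).re = a * t.re + b' * t.re := by simp [ht1]
    have e2 : (a • t + b' • t1).im = a * t.im + b' * (h - l / 2) := by simp [ht1]
    have e3 : dep h (a • t + b' • t1) = a * dep h t + b' * (l / 2) := by
      unfold dep
      rw [e2]
      linear_combination (-h) * hab
    refine ⟨?_, ?_, ?_⟩
    · rw [e1, ← add_mul, hab, one_mul]
    · rw [e3]
      have : dep h t = a * dep h t + b' * dep h t := by rw [← add_mul, hab, one_mul]
      have := mul_le_mul_of_nonneg_left hd hb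
      linarith
    · rw [e3]
      have : l / 2 = a * (l / 2) + b' * (l / 2) := by rw [← add_mul, hab, one_mul]
      have := mul_le_mul_of_nonneg_left hd ha
      linarith
  have hIc : IsCompact I₀ := by
    rw [hI₀, segment_eq_image_lineMap]
    exact isCompact_Icc.image (by fun_prop)
  have hIS : I₀ ⊆ St (-h) h := by
    intro z hz
    obtain ⟨-, h2, h3⟩ := hI z hz
    have k2' : 0 < dep h t := k2
    unfold dep at h2 h3 k2'
    constructor <;> linarith
  obtain ⟨R1, hR1, hreg1⟩ := lreg_compact hL hIc hIS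
  have hpre : IsPreconnected I₀ := (convex_segment t t1).isPreconnected
  -- equality for small `η'`
  have hsmall : ∀ η' : ℂ, ‖η'‖ < R1 → ‖η'‖ < R → ε * ‖η'‖ < η'.im → C * ‖η'‖ < dep h t →
      Λ (t, η') = M (t, η') := by
    intro η' h1 h2 h3 h4
    have hW' : ∀ z ∈ I₀, (z, η') ∈ Wp h b l ε C R := by
      intro z hz
      obtain ⟨e1, e2, e3⟩ := hI z hz
      refine ⟨?_, ?_, ?_, h2, h3, ?_⟩
      · show |z.re - b| < 3 * l / 4
        rw [e1]
        exact k1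
      · exact lt_of_lt_of_le k2 e2
      · show dep h z < 3 * l / 4
        linarith
      · exact h4.trans_le e2
    have a1 : AnalyticOnNhd ℂ (fun z => Λ (z, η')) I₀ := fun z hz =>
      AnalyticAt.fun_comp (g := Λ) (f := fun z : ℂ => (z, η')) (hΛ _ (hW' z hz))
        (AnalyticAt.prod analyticAt_id analyticAt_const)
    have a2 : AnalyticOnNhd ℂ (fun z => M (z, η')) I₀ := fun z hz =>
      AnalyticAt.fun_comp (g := M) (f := fun z : ℂ => (z, η'))
        (hM.an _ (mem_hdom_of_lreg (hreg1 z hz) h1))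
        (AnalyticAt.prod analyticAt_id analyticAt_const)
    have ht1m : t1 ∈ I₀ := right_mem_segment ℝ t t1
    have hev : (fun z => Λ (z, η')) =ᶠ[𝓝 t1] fun z => M (z, η') := by
      have c1 : ContinuousAt (fun z : ℂ => (z, η')) t1 := by fun_prop
      have o1 : {p : ℂ × ℂ | ε * l / 16 < dep h p.1} ∈ 𝓝 (t1, η') := by
        apply (isOpen_lt continuous_const ((continuous_dep h).comp continuous_fst)).mem_nhds
        show ε * l / 16 < dep h t1
        have : dep h t1 = l / 2 := by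
          unfold dep
          simp [ht1]
        rw [this]
        exact hεl
      filter_upwards [c1 (isOpen_Wp.mem_nhds (hW' t1 ht1m)), c1 o1] with z h5 h6
      exact heq _ h5 h6
    exact a1.eqOn_of_preconnected_of_eventuallyEq a2 hpre ht1m hev (left_mem_segment ℝ t t1)
  -- the ray
  set A : Set ℂ := (fun τ : ℝ => τ • η) '' Ioc 0 1 with hA'
  have hApre : IsPreconnected A := isPreconnected_Ioc.image _ (by fun_prop)
  have hAn : ∀ z ∈ A, ∃ τ : ℝ, 0 < τ ∧ τ ≤ 1 ∧ z = τ • η ∧ ‖z‖ = τ * ‖η‖ ∧ z.im = τ * η.im := by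
    rintro z ⟨τ, ⟨h1, h2⟩, rfl⟩
    refine ⟨τ, h1, h2, rfl, ?_, ?_⟩
    · show ‖τ • η‖ = _
      rw [norm_smul, Real.norm_of_nonneg h1.le]
    · simp
  have hAW : ∀ z ∈ A, (t, z) ∈ Wp h b l ε C R ∧ ‖z‖ < s := by
    intro z hz
    obtain ⟨τ, h1, h2, -, h3, h4⟩ := hAn z hz
    have h5 : ‖z‖ ≤ ‖η‖ := by
      rw [h3]
      nlinarith
    refine ⟨⟨k1, k2, k3, h5.trans_lt k4, ?_, ?_⟩, h5.trans_lt hs'⟩
    · show ε * ‖z‖ < z.im
      rw [h3, h4]
      have := mul_lt_mul_of_pos_left k5 h1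
      calc ε * (τ * ‖η‖) = τ * (ε * ‖η‖) := by ring
        _ < τ * η.im := this
    · show C * ‖z‖ < dep h t
      exact (mul_le_mul_of_nonneg_left h5 hC).trans_lt k6
  have b1 : AnalyticOnNhd ℂ (fun z => Λ (t, z)) A := fun z hz =>
    AnalyticAt.fun_comp (g := Λ) (f := fun z : ℂ => (t, z)) (hΛ _ (hAW z hz).1)
      (AnalyticAt.prod analyticAt_const analyticAt_id)
  have b2 : AnalyticOnNhd ℂ (fun z => M (t, z)) A := fun z hz =>
    AnalyticAt.fun_comp (g := M) (f := fun z : ℂ => (t, z))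
      (hM.an _ (mem_hdom_of_lreg hreg (hAW z hz).2))
      (AnalyticAt.prod analyticAt_const analyticAt_id)
  set τ₀ : ℝ := min 1 (R1 / (2 * ‖η‖)) with hτ₀
  have hτ0 : 0 < τ₀ := lt_min one_pos (by positivity)
  have hτ1 : τ₀ ≤ 1 := min_le_left _ _
  have hτA : τ₀ • η ∈ A := ⟨τ₀, ⟨hτ0, hτ1⟩, rfl⟩
  have hηA : η ∈ A := ⟨1, ⟨one_pos, le_rfl⟩, by simp⟩
  have hτn : ‖τ₀ • η‖ < R1 := by
    rw [norm_smul, Real.norm_of_nonneg hτ0.le]
    have h1 : τ₀ ≤ R1 / (2 * ‖η‖) := min_le_right _ _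
    calc τ₀ * ‖η‖ ≤ R1 / (2 * ‖η‖) * ‖η‖ := by gcongr
      _ = R1 / 2 := by field_simp
      _ < R1 := by linarith
  have hev : (fun z => Λ (t, z)) =ᶠ[𝓝 (τ₀ • η)] fun z => M (t, z) := by
    have c1 : ContinuousAt (fun z : ℂ => (t, z)) (τ₀ • η) := by fun_prop
    have c2 : ContinuousAt (fun z : ℂ => ‖z‖) (τ₀ • η) := by fun_prop
    filter_upwards [c1 (isOpen_Wp.mem_nhds (hAW _ hτA).1), c2 (Iio_mem_nhds hτn)] with z h5 h6
    obtain ⟨-, -, -, e4, e5, e6⟩ := h5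
    exact hsmall z h6 e4 e5 e6
  exact b1.eqOn_of_preconnected_of_eventuallyEq b2 hApre hτA hev hηA

end Pool.Agent.MP_ae5b4e_an_NB2
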