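import Pool.Agent.Lib.MP_ae5b4e_an_NB2.NodeB
import Pool.Agent.Lib.MP_ae5b4e_an_LAT.NDGeoX0

/-!
# MP_ae5b4e_an, project NB_2: the step solver
-/

noncomputable section

namespace Pool.Agent.MP_ae5b4e_an_NB2

open Complex Set Filter Topology Metric
open Pool.Agent.MP_ae5b4e_an_NBT (St isOpen_St convex_St)
open Pool.Agent.Lib.MP_ae5b4e_an_LL

variable {Y : Sys} {S : Set ℂ} {l : ℂ} {r : ℝ}

/-- the node relation in the node disc, through the node function -/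
theorem node_iff (hY : Y.On S) (hS : IsOpen S) (hN : Y.Nod S l r) {H : ℂ → ℂ}
    (hH : ∀ z ∈ ball (0:ℂ) r, z ≠ 0 → Y.c (l + z) l / Y.s (l + z) l = z⁻¹ + H z) {s s' : ℂ}
    (hs0 : s ≠ 0) (hs : ‖s‖ < r) (hs'0 : s' ≠ 0) (hs' : ‖s'‖ < r) :
    Y.node l (l + s) (l - s') ↔ s⁻¹ + H s = s'⁻¹ - H (-s') := by
  have h1 := hH s (mem_ball_zero_iff.2 hs) hs0
  have h2 := hH (-s') (mem_ball_zero_iff.2 (by rwa [norm_neg])) (neg_ne_zero.2 hs'0)
  have h3 : Y.s (l + s) l ≠ 0 := Sys.s_ne_zero hY hS hN hs hs0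
  have h4 : Y.s (l - s') l ≠ 0 := by
    rw [sub_eq_add_neg]
    exact Sys.s_ne_zero hY hS hN (by rwa [norm_neg]) (neg_ne_zero.2 hs'0)
  rw [← sub_eq_add_neg] at h2
  have h5 : s'⁻¹ - H (-s') = -(Y.c (l - s') l / Y.s (l - s') l) := by
    rw [h2, inv_neg]
    ring
  rw [h5, ← h1]
  unfold Sys.node
  constructor
  · intro h
    field_simp
    linear_combination h
  · intro h
    field_simp at h
    linear_combination h

theorem step_unique (hY : Y.On S) (hS : IsOpen S) (hN : Y.Nod S l r) {s₁ s₂ s' : ℂ}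
    (h1 : ‖s₁‖ < r / 2) (h2 : ‖s₂‖ < r / 2) (hs'0 : s' ≠ 0) (hs' : ‖s'‖ < r)
    (hn1 : Y.node l (l + s₁) (l - s')) (hn2 : Y.node l (l + s₂) (l - s')) : s₁ = s₂ := by
  have hr := hN.pos
  have hl : l ∈ S := hN.sub (mem_ball_self hr)
  obtain ⟨H, -, -, hH, -, hH2, -⟩ := exists_H hY hS hN
  have hne : ∀ s, Y.node l (l + s) (l - s') → s ≠ 0 := by
    rintro s hs rfl
    unfold Sys.node at hs
    rw [add_zero, Sys.s_self, Sys.c_self hY hl, mul_zero, add_zero, one_mul,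
      sub_eq_add_neg] at hs
    exact Sys.s_ne_zero hY hS hN (by rwa [norm_neg]) (neg_ne_zero.2 hs'0) hs
  have h10 := hne s₁ hn1
  have h20 := hne s₂ hn2
  have e1 := (node_iff hY hS hN hH h10 (by linarith) hs'0 hs').1 hn1
  have e2 := (node_iff hY hS hN hH h20 (by linarith) hs'0 hs').1 hn2
  have e3 : s₁⁻¹ - s₂⁻¹ = H s₂ - H s₁ := by linear_combination e1 - e2
  have e4 := hH2 s₂ (mem_ball_zero_iff.2 h2) s₁ (mem_ball_zero_iff.2 h1)
  rw [← e3] at e4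
  have e5 : s₁⁻¹ - s₂⁻¹ = (s₂ - s₁) / (s₁ * s₂) := by
    field_simp
  rw [e5, norm_div, norm_mul, div_le_iff₀ (mul_pos (norm_pos_iff.2 h10) (norm_pos_iff.2 h20))]
    at e4
  by_contra hcon
  have h5 : 0 < ‖s₂ - s₁‖ := norm_pos_iff.2 (sub_ne_zero.2 (Ne.symm hcon))
  have h6 : ‖s₁‖ * ‖s₂‖ ≤ r / 2 * (r / 2) := mul_le_mul h1.le h2.le (norm_nonneg _) (by positivity)
  have h7 : 2 / 5 * ‖s₂ - s₁‖ / r ^ 2 * (‖s₁‖ * ‖s₂‖) ≤
      2 / 5 * ‖s₂ - s₁‖ / r ^ 2 * (r / 2 * (r / 2)) := by gcongr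
  have h8 : 2 / 5 * ‖s₂ - s₁‖ / r ^ 2 * (r / 2 * (r / 2)) = 1 / 10 * ‖s₂ - s₁‖ := by
    field_simp
    norm_num
  linarith

/-- **the step solver** -/
theorem step_exists (hY : Y.On S) (hS : IsOpen S) (hN : Y.Nod S l r) {s' : ℂ}
    (hs'0 : s' ≠ 0) (hs' : ‖s'‖ ≤ r / 8) :
    ∃ s : ℂ, s ≠ 0 ∧ ‖s‖ ≤ 2 * ‖s'‖ ∧ Y.node l (l + s) (l - s') ∧
      ‖s⁻¹ - s'⁻¹‖ ≤ 1 / 2 * ‖s'‖ ^ 2 / r ^ 3 := by
  have hr := hN.pos
  obtain ⟨H, -, hH0, hH, hH1, hH2, hH3⟩ := exists_H hY hS hN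
  set a := ‖s'‖ with ha
  have ha0 : 0 < a := norm_pos_iff.2 hs'0
  have har : a ≤ r / 8 := hs'
  have hb2 : ∀ s ∈ closedBall (0:ℂ) (2 * a), s ∈ ball (0:ℂ) (r / 2) := fun s hs => by
    rw [mem_closedBall_zero_iff] at hs
    rw [mem_ball_zero_iff]
    linarith
  have hb1 : ∀ s ∈ closedBall (0:ℂ) (2 * a), s ∈ ball (0:ℂ) r := fun s hs =>
    ball_subset_ball (by linarith) (hb2 s hs)
  have hns' : -s' ∈ ball (0:ℂ) r := by
    rw [mem_ball_zero_iff, norm_neg]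
    linarith
  set W : ℂ → ℂ := fun s => s'⁻¹ - H (-s') - H s with hW
  -- lower bound
  have hWl : ∀ s ∈ closedBall (0:ℂ) (2 * a), 1 / (2 * a) ≤ ‖W s‖ := by
    intro s hs
    have h1 := hH1 (-s') hns'
    have h2 := hH1 s (hb1 s hs)
    rw [norm_neg] at h1
    rw [mem_closedBall_zero_iff] at hs
    have h3 : ‖H s‖ ≤ 1 / 5 * (2 * a) / r ^ 2 := h2.trans (by gcongr)
    have h4 : ‖(s')⁻¹‖ - ‖H (-s') + H s‖ ≤ ‖W s‖ := by
      have h5 : W s = (s')⁻¹ - (H (-s') + H s) := by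
        simp only [hW]
        ring
      rw [h5]
      exact norm_sub_norm_le _ _
    have h5 : ‖H (-s') + H s‖ ≤ 3 / 5 * a / r ^ 2 := by
      refine (norm_add_le _ _).trans ?_
      have h6 : 3 / 5 * a / r ^ 2 = 1 / 5 * a / r ^ 2 + 1 / 5 * (2 * a) / r ^ 2 := by ring
      rw [h6]
      exact add_le_add h1 h3
    have h6 : 3 / 5 * a / r ^ 2 ≤ 3 / 320 * a⁻¹ := by
      rw [div_le_iff₀ (by positivity)]
      have h7 : a ^ 2 ≤ r ^ 2 / 64 := by nlinarith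
      have h8 : a⁻¹ * a ^ 2 = a := by field_simp
      have h9 : 0 < a⁻¹ := by positivity
      nlinarith [mul_le_mul_of_nonneg_left h7 h9.le]
    have h7 : ‖(s')⁻¹‖ = a⁻¹ := norm_inv s'
    have h8 : 1 / (2 * a) = 1 / 2 * a⁻¹ := by
      field_simp
    have h9 : 0 < a⁻¹ := by positivity
    rw [h8]
    linarith
  have hWne : ∀ s ∈ closedBall (0:ℂ) (2 * a), W s ≠ 0 := fun s hs h => by
    have h1 := hWl s hs
    rw [h, norm_zero] at h1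
    have : 0 < 1 / (2 * a) := by positivity
    linarith
  set T : ℂ → ℂ := fun s => (W s)⁻¹ with hT
  have hTm : MapsTo T (closedBall (0:ℂ) (2 * a)) (closedBall (0:ℂ) (2 * a)) := by
    intro s hs
    rw [mem_closedBall_zero_iff, hT]
    simp only [norm_inv]
    have h1 := hWl s hs
    calc ‖W s‖⁻¹ ≤ (1 / (2 * a))⁻¹ := inv_anti₀ (by positivity) h1
      _ = 2 * a := by field_simp
  have hTl : ∀ s ∈ closedBall (0:ℂ) (2 * a), ∀ t ∈ closedBall (0:ℂ) (2 * a),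
      dist (T s) (T t) ≤ (1 / 2 : ℝ) * dist s t := by
    intro s hs t ht
    have h1 := hWne s hs
    have h2 := hWne t ht
    have h3 : T s - T t = T s * T t * (H s - H t) := by
      simp only [hT]
      have h4 : H s - H t = W t - W s := by
        simp only [hW]
        ring
      rw [h4]
      field_simp
    rw [dist_eq_norm, dist_eq_norm, h3, norm_mul, norm_mul]
    have h5 := hH2 s (hb2 s hs) t (hb2 t ht)
    have h6 := mem_closedBall_zero_iff.1 (hTm hs)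
    have h7 := mem_closedBall_zero_iff.1 (hTm ht)
    calc ‖T s‖ * ‖T t‖ * ‖H s - H t‖ ≤ (2 * a) * (2 * a) * (2 / 5 * ‖s - t‖ / r ^ 2) := by
          gcongr
      _ = (8 / 5 * a ^ 2 / r ^ 2) * ‖s - t‖ := by ring
      _ ≤ 1 / 2 * ‖s - t‖ := by
          apply mul_le_mul_of_nonneg_right _ (norm_nonneg _)
          rw [div_le_iff₀ (by positivity)]
          nlinarith
  have hcontr : ContractingWith (1 / 2) (hTm.restrict T _ _) := by
    refine ⟨by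
      rw [← NNReal.coe_lt_coe]
      norm_num, LipschitzWith.of_dist_le_mul ?_⟩
    rintro ⟨s, hs⟩ ⟨t, ht⟩
    have h1 := hTl s hs t ht
    show dist (T s) (T t) ≤ ((1 / 2 : NNReal) : ℝ) * dist s t
    push_cast
    exact h1
  obtain ⟨s, hs, hfix, -⟩ := hcontr.exists_fixedPoint' isClosed_closedBall.isComplete hTm
    (x := 0) (mem_closedBall_self (by positivity)) (edist_ne_top _ _)
  have hTs : T s = s := hfix
  have hs0 : s ≠ 0 := by
    rw [← hTs]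
    exact inv_ne_zero (hWne s hs)
  have hinv : s⁻¹ = W s := by
    conv_lhs => rw [← hTs]
    simp [hT]
  have hsn := mem_closedBall_zero_iff.1 hs
  refine ⟨s, hs0, hsn, ?_, ?_⟩
  · rw [node_iff hY hS hN hH hs0 (mem_ball_zero_iff.1 (hb1 s hs)) hs'0 (by linarith), hinv]
    simp only [hW]
    ring
  · set D := ‖s⁻¹ - s'⁻¹‖ with hD
    have h1 : s⁻¹ - s'⁻¹ = -(H s' + H (-s')) - (H s - H s') := by
      rw [hinv]
      simp only [hW]
      ring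
    have hs'b : s' ∈ ball (0:ℂ) (r / 2) := mem_ball_zero_iff.2 (by linarith)
    have h2 := hH3 s' (ball_subset_ball (by linarith) hs'b)
    have h3 := hH2 s (hb2 s hs) s' hs'b
    have h4 : ‖s - s'‖ ≤ 2 * a * a * D := by
      have h5 : s - s' = s * s' * (s'⁻¹ - s⁻¹) := by
        field_simp
      rw [h5, norm_mul, norm_mul, norm_sub_rev, ← ha, ← hD]
      gcongr
    have h5 : D ≤ 2 / 5 * a ^ 2 / r ^ 3 + 2 / 5 * ‖s - s'‖ / r ^ 2 := by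
      rw [hD, h1]
      refine (norm_sub_le _ _).trans ?_
      rw [norm_neg]
      exact add_le_add h2 h3
    have h6 : 2 / 5 * ‖s - s'‖ / r ^ 2 ≤ 1 / 80 * D := by
      rw [div_le_iff₀ (by positivity)]
      have hD0 : 0 ≤ D := norm_nonneg _
      have h7 : a ^ 2 ≤ r ^ 2 / 64 := by nlinarith
      nlinarith [mul_le_mul_of_nonneg_right h7 hD0]
    have h7 : 0 ≤ a ^ 2 / r ^ 3 := by positivity
    have h8 : 2 / 5 * a ^ 2 / r ^ 3 = 2 / 5 * (a ^ 2 / r ^ 3) := by ring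
    have h9 : 1 / 2 * a ^ 2 / r ^ 3 = 1 / 2 * (a ^ 2 / r ^ 3) := by ring
    rw [h8] at h5
    rw [h9]
    linarith

/-- the solution of the node relation depends analytically on the parameters -/
theorem step_analytic (hY : Y.On S) (hS : IsOpen S) {a b : ℂ × ℂ → ℂ} {p₀ : ℂ × ℂ} {u₀ : ℂ}
    (ha : AnalyticAt ℂ a p₀) (hb : AnalyticAt ℂ b p₀) (haS : a p₀ ∈ S) (hbS : b p₀ ∈ S)
    (huS : u₀ ∈ S) (hv : Y.s (b p₀) (a p₀) ≠ 0)
    (hn : Y.node (a p₀) u₀ (b p₀)) :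
    ∃ σ : ℂ × ℂ → ℂ, AnalyticAt ℂ σ p₀ ∧ σ p₀ = u₀ ∧
      ∀ᶠ p in 𝓝 p₀, Y.node (a p) (σ p) (b p) := by
  set F : (ℂ × ℂ) × ℂ → ℂ := fun x =>
    Y.c x.2 (a x.1) * Y.s (b x.1) (a x.1) + Y.c (b x.1) (a x.1) * Y.s x.2 (a x.1) with hF
  have ha' : AnalyticAt ℂ (fun x : (ℂ × ℂ) × ℂ => a x.1) (p₀, u₀) :=
    AnalyticAt.fun_comp (g := a) (f := fun x : (ℂ × ℂ) × ℂ => x.1) ha analyticAt_fst
  have hb' : AnalyticAt ℂ (fun x : (ℂ × ℂ) × ℂ => b x.1) (p₀, u₀) :=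
    AnalyticAt.fun_comp (g := b) (f := fun x : (ℂ × ℂ) × ℂ => x.1) hb analyticAt_fst
  have hu' : AnalyticAt ℂ (fun x : (ℂ × ℂ) × ℂ => x.2) (p₀, u₀) := analyticAt_snd
  have hFa : AnalyticAt ℂ F (p₀, u₀) :=
    ((Sys.an_c hY hS hu' ha' huS haS).fun_mul (Sys.an_s hY hS hb' ha' hbS haS)).fun_add
      ((Sys.an_c hY hS hb' ha' hbS haS).fun_mul (Sys.an_s hY hS hu' ha' huS haS))
  have hF0 : F (p₀, u₀) = 0 := hn
  have hd : HasDerivAt (fun t => F (p₀, t)) (Y.cd u₀ (a p₀) * Y.s (b p₀) (a p₀) +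
      Y.c (b p₀) (a p₀) * Y.sd u₀ (a p₀)) u₀ := by
    simp only [hF]
    exact ((Sys.hasDerivAt_c hY huS).mul_const _).add ((Sys.hasDerivAt_s hY huS).const_mul _)
  have hc : Y.cd u₀ (a p₀) * Y.s (b p₀) (a p₀) + Y.c (b p₀) (a p₀) * Y.sd u₀ (a p₀) ≠ 0 := by
    intro h
    have h1 := Sys.wr_s hY haS huS
    have h2 : Y.c u₀ (a p₀) * Y.s (b p₀) (a p₀) + Y.c (b p₀) (a p₀) * Y.s u₀ (a p₀) = 0 := hn
    have h3 : Y.s (b p₀) (a p₀) = 0 := by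
      linear_combination (-Y.s (b p₀) (a p₀)) * h1 - (Y.s u₀ (a p₀)) * h + (Y.sd u₀ (a p₀)) * h2
    exact hv h3
  obtain ⟨σ, hσ1, hσ2, hσ3⟩ := Pool.Agent.MP_ae5b4e_an_GeoX.implicit_analytic2 hFa hF0 hc hd
  refine ⟨σ, hσ1, hσ2, ?_⟩
  have h1 : Tendsto (fun p => (p, σ p)) (𝓝 p₀) (𝓝 (p₀, u₀)) := by
    have h2 : Tendsto (fun p => (p, σ p)) (𝓝 p₀) (𝓝 (p₀, σ p₀)) :=
      continuousAt_id.prodMk hσ1.continuousAt
    rwa [hσ2] at h2
  filter_upwards [h1.eventually hσ3] with p hp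
  exact hp.2 rfl

end Pool.Agent.MP_ae5b4e_an_NB2
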