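import Pool.Agent.Lib.MP_ae5b4e_an_NB2.WDef

/-!
# MP_ae5b4e_an, project NB_2: Lemma W, the domains and the real inequalities
-/

noncomputable section

namespace Pool.Agent.MP_ae5b4e_an_NB2

open Complex Set Filter Topology Metric
open Pool.Agent.MP_ae5b4e_an_NBT (St isOpen_St convex_St)
open Pool.Agent.Lib.MP_ae5b4e_an_LL

variable {h b l ε C R : ℝ} {N N' : ℕ} {p : ℂ × ℂ}

theorem continuous_dep (h : ℝ) : Continuous (dep h) := by
  unfold dep
  fun_prop

theorem isOpen_WN : IsOpen (WN h b l ε C R N) := by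
  have c0 : Continuous fun p : ℂ × ℂ => dep h p.1 := (continuous_dep h).comp continuous_fst
  have c1 : Continuous fun p : ℂ × ℂ => p.2.im := Complex.continuous_im.comp continuous_snd
  have c2 : Continuous fun p : ℂ × ℂ => |p.1.re - b| :=
    ((Complex.continuous_re.comp continuous_fst).sub continuous_const).abs
  have c3 : Continuous fun p : ℂ × ℂ => ‖p.2‖ := continuous_snd.norm
  refine (isOpen_lt c2 (continuous_const.add ((c0.min continuous_const).div_const ε))).inter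
    ((isOpen_lt continuous_const c0).inter ((isOpen_lt c0 continuous_const).inter
    ((isOpen_lt c3 continuous_const).inter ((isOpen_lt (continuous_const.mul c3) c1).inter
    ((isOpen_lt (continuous_const.mul c3) c0).inter
    (isOpen_lt continuous_const (c0.add (continuous_const.mul c1))))))))

theorem isOpen_Wp : IsOpen (Wp h b l ε C R) := by
  have c0 : Continuous fun p : ℂ × ℂ => dep h p.1 := (continuous_dep h).comp continuous_fst
  have c1 : Continuous fun p : ℂ × ℂ => p.2.im := Complex.continuous_im.comp continuous_snd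
  have c2 : Continuous fun p : ℂ × ℂ => |p.1.re - b| :=
    ((Complex.continuous_re.comp continuous_fst).sub continuous_const).abs
  have c3 : Continuous fun p : ℂ × ℂ => ‖p.2‖ := continuous_snd.norm
  exact (isOpen_lt c2 continuous_const).inter
    ((isOpen_lt continuous_const c0).inter ((isOpen_lt c0 continuous_const).inter
    ((isOpen_lt c3 continuous_const).inter ((isOpen_lt (continuous_const.mul c3) c1).inter
    (isOpen_lt (continuous_const.mul c3) c0)))))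

theorem convex_WN (hε : 0 < ε) (hC : 0 ≤ C) : Convex ℝ (WN h b l ε C R N) := by
  rintro x ⟨x1, x2, x3, x4, x5, x6, x7⟩ y ⟨y1, y2, y3, y4, y5, y6, y7⟩ s t hs ht hst
  have e1 : (s • x + t • y).1.re = s * x.1.re + t * y.1.re := by simp
  have e2 : (s • x + t • y).2.im = s * x.2.im + t * y.2.im := by simp
  have e3 : dep h (s • x + t • y).1 = s * dep h x.1 + t * dep h y.1 := by
    have : (s • x + t • y).1.im = s * x.1.im + t * y.1.im := by simp
    unfold dep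
    rw [this]
    linear_combination (-h) * hst
  have e4 : ‖(s • x + t • y).2‖ ≤ s * ‖x.2‖ + t * ‖y.2‖ := by
    have : (s • x + t • y).2 = s • x.2 + t • y.2 := rfl
    rw [this]
    refine (norm_add_le _ _).trans ?_
    rw [norm_smul, norm_smul, Real.norm_of_nonneg hs, Real.norm_of_nonneg ht]
  have e5 : |(s • x + t • y).1.re - b| ≤ s * |x.1.re - b| + t * |y.1.re - b| := by
    rw [e1]
    have : s * x.1.re + t * y.1.re - b = s * (x.1.re - b) + t * (y.1.re - b) := by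
      linear_combination b * hst
    rw [this]
    refine (abs_add_le _ _).trans ?_
    rw [abs_mul, abs_mul, abs_of_nonneg hs, abs_of_nonneg ht]
  -- strict inequalities of convex combinations
  have key : ∀ {a₁ a₂ b₁ b₂ : ℝ}, a₁ < b₁ → a₂ < b₂ → s * a₁ + t * a₂ < s * b₁ + t * b₂ := by
    intro a₁ a₂ b₁ b₂ h1 h2
    rcases hs.eq_or_lt with h3 | h3
    · rw [← h3, zero_add] at hst
      rw [← h3, hst]
      linarith
    · have h4 := mul_lt_mul_of_pos_left h1 h3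
      have h5 := mul_le_mul_of_nonneg_left h2.le ht
      linarith
  have kc : ∀ c : ℝ, s * c + t * c = c := fun c => by rw [← add_mul, hst, one_mul]
  have hmin : s * min (dep h x.1) (ε * l / 8) + t * min (dep h y.1) (ε * l / 8) ≤
      min (dep h (s • x + t • y).1) (ε * l / 8) := by
    rw [e3]
    apply le_min
    · exact add_le_add (mul_le_mul_of_nonneg_left (min_le_left _ _) hs)
        (mul_le_mul_of_nonneg_left (min_le_left _ _) ht)
    · calc _ ≤ s * (ε * l / 8) + t * (ε * l / 8) :=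
          add_le_add (mul_le_mul_of_nonneg_left (min_le_right _ _) hs)
            (mul_le_mul_of_nonneg_left (min_le_right _ _) ht)
        _ = _ := kc _
  refine ⟨?_, ?_, ?_, ?_, ?_, ?_, ?_⟩
  · have h1 := key x1 y1
    have h2 : (s * min (dep h x.1) (ε * l / 8) + t * min (dep h y.1) (ε * l / 8)) / ε ≤
        min (dep h (s • x + t • y).1) (ε * l / 8) / ε := by gcongr
    have h3 := kc (3 * l / 4)
    have h4 : s * (3 * l / 4 + min (dep h x.1) (ε * l / 8) / ε) +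
        t * (3 * l / 4 + min (dep h y.1) (ε * l / 8) / ε) = 3 * l / 4 +
        (s * min (dep h x.1) (ε * l / 8) + t * min (dep h y.1) (ε * l / 8)) / ε := by
      linear_combination h3
    rw [h4] at h1
    show |(s • x + t • y).1.re - b| < _
    linarith
  · show 0 < dep h (s • x + t • y).1
    rw [e3]
    have := key x2 y2
    simpa using this
  · show dep h (s • x + t • y).1 < _
    rw [e3]
    have := key x3 y3
    rwa [kc] at this
  · show ‖(s • x + t • y).2‖ < R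
    have := key x4 y4
    rw [kc] at this
    linarith
  · show ε * ‖(s • x + t • y).2‖ < (s • x + t • y).2.im
    rw [e2]
    have h1 := key x5 y5
    have h2 := mul_le_mul_of_nonneg_left e4 hε.le
    nlinarith
  · show C * ‖(s • x + t • y).2‖ < dep h (s • x + t • y).1
    rw [e3]
    have h1 := key x6 y6
    have h2 := mul_le_mul_of_nonneg_left e4 hC
    nlinarith
  · show ε * l / 16 < dep h (s • x + t • y).1 + N * (s • x + t • y).2.im
    rw [e3, e2]
    have h1 := key x7 y7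
    rw [kc] at h1
    linarith

theorem im_pos_of_mem (hε : 0 < ε) (hp : p ∈ WN h b l ε C R N) : 0 < p.2.im :=
  (mul_nonneg hε.le (norm_nonneg _)).trans_lt hp.2.2.2.2.1

theorem WN_mono (hε : 0 < ε) (hNN' : N ≤ N') : WN h b l ε C R N ⊆ WN h b l ε C R N' := by
  intro p hp
  have h0 := im_pos_of_mem hε hp
  obtain ⟨h1, h2, h3, h4, h5, h6, h7⟩ := hp
  refine ⟨h1, h2, h3, h4, h5, h6, h7.trans_le ?_⟩
  have : (N : ℝ) ≤ N' := by exact_mod_cast hNN'
  have := mul_le_mul_of_nonneg_right this h0.le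
  linarith

theorem mem_WN_zero (hp : p ∈ WN h b l ε C R N) (hd : ε * l / 16 < dep h p.1) :
    p ∈ WN h b l ε C R 0 := by
  obtain ⟨h1, h2, h3, h4, h5, h6, h7⟩ := hp
  exact ⟨h1, h2, h3, h4, h5, h6, by simpa using hd⟩

theorem dep_sh (j : ℕ) (p : ℂ × ℂ) : dep h (sh j p).1 = dep h p.1 + j * p.2.im := by
  unfold dep sh
  simp
  ring

theorem sh_mem (hε : 0 < ε) (hε1 : ε ≤ 1 / 2) (hl : 0 < l) (hR : R ≤ ε * l / 64)
    (hp : p ∈ WN h b l ε C R (N + 1)) (hd : dep h p.1 < 3 * ε * l / 32) {j : ℕ} (hj : 1 ≤ j)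
    (hj2 : j ≤ 2) : sh j p ∈ WN h b l ε C R N := by
  have h0 := im_pos_of_mem hε hp
  obtain ⟨h1, h2, h3, h4, h5, h6, h7⟩ := hp
  have e1 := dep_sh (h := h) j p
  have hj' : (1:ℝ) ≤ j := by exact_mod_cast hj
  have hj2' : (j:ℝ) ≤ 2 := by exact_mod_cast hj2
  have him : p.2.im ≤ ‖p.2‖ := (le_abs_self _).trans (Complex.abs_im_le_norm _)
  have hre : |p.2.re| ≤ ‖p.2‖ := Complex.abs_re_le_norm _
  have hji : (j:ℝ) * p.2.im ≤ ε * l / 32 := by
    have : (j:ℝ) * p.2.im ≤ 2 * p.2.im := mul_le_mul_of_nonneg_right hj2' h0.le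
    linarith
  have hd8 : dep h (sh j p).1 < ε * l / 8 := by
    rw [e1]
    linarith
  have hji0 : 0 < (j:ℝ) * p.2.im := by positivity
  have hεl : ε * l ≤ l / 2 := by nlinarith
  refine ⟨?_, ?_, ?_, h4, h5, ?_, ?_⟩
  · rw [min_eq_left hd8.le, e1]
    have h8 : |(sh j p).1.re - b| ≤ |p.1.re - b| + j * ‖p.2‖ := by
      have : (sh j p).1.re - b = (p.1.re - b) - j * p.2.re := by
        unfold sh
        simp
        ring
      rw [this]
      refine (abs_sub _ _).trans ?_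
      rw [abs_mul, abs_of_nonneg (by positivity : (0:ℝ) ≤ j)]
      have := mul_le_mul_of_nonneg_left hre (by positivity : (0:ℝ) ≤ j)
      linarith
    have h9 : min (dep h p.1) (ε * l / 8) = dep h p.1 := min_eq_left (by linarith)
    rw [h9] at h1
    have h10 : (j:ℝ) * ‖p.2‖ ≤ j * p.2.im / ε := by
      rw [le_div_iff₀ hε]
      nlinarith
    have h11 : (dep h p.1 + j * p.2.im) / ε = dep h p.1 / ε + j * p.2.im / ε := by ring
    rw [h11]
    linarith
  · rw [e1]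
    linarith
  · linarith
  · show C * ‖p.2‖ < dep h (sh j p).1
    rw [e1]
    linarith
  · show ε * l / 16 < dep h (sh j p).1 + N * p.2.im
    rw [e1]
    push_cast at h7
    nlinarith

/-- the points where the layer construction is not needed -/
theorem mem_zero_or (hε : 0 < ε) (hl : 0 < l) (hp : p ∈ WN h b l ε C R N) :
    p ∈ WN h b l ε C R 0 ∨ dep h p.1 < 3 * ε * l / 32 := by
  rcases lt_or_ge (dep h p.1) (3 * ε * l / 32) with h1 | h1
  · exact Or.inr h1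
  · refine Or.inl (mem_WN_zero hp ?_)
    have : 0 < ε * l := mul_pos hε hl
    linarith

theorem WN_zero_nonempty (hε : 0 < ε) (hε1 : ε ≤ 1 / 2) (hl : 0 < l) (hR : 0 < R) (hC : 0 ≤ C) :
    (WN h b l ε C R 0).Nonempty := by
  set δ := min (R / 2) (l / (4 * (C + 1))) with hδ
  have hδ0 : 0 < δ := lt_min (by positivity) (by positivity)
  have e0 : ‖((δ : ℂ) * I)‖ = δ := by
    rw [norm_mul, norm_I, mul_one, norm_real, Real.norm_of_nonneg hδ0.le]
  have e1 : ((δ : ℂ) * I).im = δ := by simp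
  have e2 : dep h ⟨b, h - l / 2⟩ = l / 2 := by
    unfold dep
    ring
  have hεl : ε * l ≤ l / 2 := by nlinarith
  refine ⟨(⟨b, h - l / 2⟩, (δ : ℂ) * I), ?_, ?_, ?_, ?_, ?_, ?_, ?_⟩
  · show |b - b| < 3 * l / 4 + min (dep h ⟨b, h - l / 2⟩) (ε * l / 8) / ε
    rw [sub_self, abs_zero, e2]
    have : 0 < min (l / 2) (ε * l / 8) := lt_min (by positivity) (by positivity)
    positivity
  · show 0 < dep h ⟨b, h - l / 2⟩
    rw [e2]
    positivity
  · show dep h ⟨b, h - l / 2⟩ < 3 * l / 4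
    rw [e2]
    linarith
  · show ‖(δ : ℂ) * I‖ < R
    rw [e0]
    have : δ ≤ R / 2 := min_le_left _ _
    linarith
  · show ε * ‖(δ : ℂ) * I‖ < ((δ : ℂ) * I).im
    rw [e0, e1]
    nlinarith
  · show C * ‖(δ : ℂ) * I‖ < dep h ⟨b, h - l / 2⟩
    rw [e0, e2]
    have h1 : δ ≤ l / (4 * (C + 1)) := min_le_right _ _
    calc C * δ ≤ (C + 1) * (l / (4 * (C + 1))) := by gcongr; linarith
      _ = l / 4 := by field_simp
      _ < l / 2 := by linarith
  · show ε * l / 16 < dep h ⟨b, h - l / 2⟩ + (0:ℕ) * ((δ : ℂ) * I).im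
    rw [e2, Nat.cast_zero, zero_mul, add_zero]
    linarith

/-- uniqueness on the domains -/
theorem WN_unique (hε : 0 < ε) (hε1 : ε ≤ 1 / 2) (hl : 0 < l) (hR : 0 < R) (hC : 0 ≤ C)
    {f g : ℂ × ℂ → ℂ} (hf : AnalyticOnNhd ℂ f (WN h b l ε C R N))
    (hg : AnalyticOnNhd ℂ g (WN h b l ε C R N)) (h0 : ∀ p ∈ WN h b l ε C R 0, f p = g p) :
    ∀ p ∈ WN h b l ε C R N, f p = g p := by
  obtain ⟨p₀, hp₀⟩ := WN_zero_nonempty (h := h) (b := b) hε hε1 hl hR hC
  have h1 : f =ᶠ[𝓝 p₀] g := by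
    filter_upwards [isOpen_WN.mem_nhds hp₀] with p hp
    exact h0 p hp
  exact hf.eqOn_of_preconnected_of_eventuallyEq hg (convex_WN hε hC).isPreconnected
    (WN_mono hε (Nat.zero_le N) hp₀) h1

/-! ### real inequalities -/

/-- the bound for `1 / s - 1 / η` -/
def phiB (q ε Mc n y : ℝ) : ℝ := 2 * Mc * n + 216 * q ^ 3 / ε * n / y ^ 2

/-- the bound for `L - t` -/
def psiB (q ε Mc l n y : ℝ) : ℝ :=
  Mc * n ^ 2 * (1 + 4 * (l - y) / ε) + 864 * q ^ 3 / ε ^ 2 * n ^ 2 / y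

theorem phi_step {q ε Mc n y a : ℝ} (hq : 1 ≤ q) (hε : 0 < ε) (hn : 0 ≤ n) (ha : ε * n ≤ a)
    (ha0 : 0 < a) (hy : 0 < y) :
    phiB q ε Mc n (y + a) + 432 * q ^ 3 * n ^ 2 / (y + a) ^ 3 ≤ phiB q ε Mc n y := by
  unfold phiB
  have h1 : 2 * a / (y + a) ^ 3 ≤ 1 / y ^ 2 - 1 / (y + a) ^ 2 := by
    have e : 1 / y ^ 2 - 1 / (y + a) ^ 2 - 2 * a / (y + a) ^ 3 =
        (3 * a ^ 2 * y + a ^ 3) / (y ^ 2 * (y + a) ^ 3) := by
      field_simp
      ring
    have : 0 ≤ (3 * a ^ 2 * y + a ^ 3) / (y ^ 2 * (y + a) ^ 3) := by positivity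
    linarith
  have h2 : 2 * (ε * n) / (y + a) ^ 3 ≤ 2 * a / (y + a) ^ 3 := by gcongr
  have hc : 0 ≤ 216 * q ^ 3 / ε * n := by positivity
  have h3 := mul_le_mul_of_nonneg_left (h2.trans h1) hc
  have e1 : 216 * q ^ 3 / ε * n * (2 * (ε * n) / (y + a) ^ 3) =
      432 * q ^ 3 * n ^ 2 / (y + a) ^ 3 := by
    field_simp
    ring
  have e2 : 216 * q ^ 3 / ε * n * (1 / y ^ 2 - 1 / (y + a) ^ 2) =
      216 * q ^ 3 / ε * n / y ^ 2 - 216 * q ^ 3 / ε * n / (y + a) ^ 2 := by ring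
  rw [e1, e2] at h3
  linarith

theorem psi_step {q ε Mc l n y a : ℝ} (hq : 1 ≤ q) (hε : 0 < ε) (hMc : 0 ≤ Mc) (hn : 0 ≤ n)
    (ha : ε * n ≤ a) (ha0 : 0 < a) (hy : 0 < y) (hay : a ≤ y) :
    psiB q ε Mc l n (y + a) + 2 * n ^ 2 * phiB q ε Mc n y ≤ psiB q ε Mc l n y := by
  unfold psiB phiB
  have h1 : 4 * Mc * n ^ 3 ≤ Mc * n ^ 2 * (4 * a / ε) := by
    have h2 : n ≤ a / ε := by
      rw [le_div_iff₀ hε]
      linarith
    have h3 : 0 ≤ 4 * Mc * n ^ 2 := by positivity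
    calc 4 * Mc * n ^ 3 = 4 * Mc * n ^ 2 * n := by ring
      _ ≤ 4 * Mc * n ^ 2 * (a / ε) := mul_le_mul_of_nonneg_left h2 h3
      _ = _ := by ring
  have h2 : ε * n / (2 * y ^ 2) ≤ 1 / y - 1 / (y + a) := by
    have e : 1 / y - 1 / (y + a) = a / (y * (y + a)) := by
      field_simp
      ring
    rw [e, div_le_div_iff₀ (by positivity) (by positivity)]
    have h4 : y + a ≤ 2 * y := by linarith
    calc ε * n * (y * (y + a)) ≤ a * (y * (2 * y)) := by gcongr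
      _ = a * (2 * y ^ 2) := by ring
  have hc : 0 ≤ 864 * q ^ 3 / ε ^ 2 * n ^ 2 := by positivity
  have h3 := mul_le_mul_of_nonneg_left h2 hc
  have e1 : 864 * q ^ 3 / ε ^ 2 * n ^ 2 * (ε * n / (2 * y ^ 2)) =
      2 * n ^ 2 * (216 * q ^ 3 / ε * n / y ^ 2) := by
    field_simp
    ring
  have e2 : 864 * q ^ 3 / ε ^ 2 * n ^ 2 * (1 / y - 1 / (y + a)) =
      864 * q ^ 3 / ε ^ 2 * n ^ 2 / y - 864 * q ^ 3 / ε ^ 2 * n ^ 2 / (y + a) := by ring
  rw [e1, e2] at h3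
  have e3 : Mc * n ^ 2 * (1 + 4 * (l - y) / ε) - Mc * n ^ 2 * (1 + 4 * (l - (y + a)) / ε) =
      Mc * n ^ 2 * (4 * a / ε) := by ring
  have e4 : 2 * n ^ 2 * (2 * Mc * n + 216 * q ^ 3 / ε * n / y ^ 2) =
      4 * Mc * n ^ 3 + 2 * n ^ 2 * (216 * q ^ 3 / ε * n / y ^ 2) := by ring
  rw [e4]
  linarith

theorem psi_le {q ε Mc l n y : ℝ} (hq : 1 ≤ q) (hε : 0 < ε) (hε1 : ε ≤ 1 / 2) (hMc : 0 ≤ Mc)
    (hn : 0 ≤ n) (hy : 0 < y) (hny : 100 * q ^ 2 / ε * n < y)
    (hR : Mc * (1 + 4 * l / ε) * n ≤ 1 / 8) : psiB q ε Mc l n y ≤ y / 4 := by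
  unfold psiB
  have hq2 : 1 ≤ q ^ 2 := one_le_pow₀ hq
  have h1 : n ≤ ε * y / (100 * q ^ 2) := by
    rw [le_div_iff₀ (by positivity)]
    have : 100 * q ^ 2 / ε * n * ε < y * ε := mul_lt_mul_of_pos_right hny hε
    have e : 100 * q ^ 2 / ε * n * ε = n * (100 * q ^ 2) := by
      field_simp
    linarith
  have h2 : n ≤ y := by
    refine h1.trans ?_
    rw [div_le_iff₀ (by positivity)]
    nlinarith
  have h3 : Mc * n ^ 2 * (1 + 4 * (l - y) / ε) ≤ y / 8 := by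
    have h4 : 1 + 4 * (l - y) / ε ≤ 1 + 4 * l / ε := by
      gcongr
      linarith
    calc Mc * n ^ 2 * (1 + 4 * (l - y) / ε) ≤ Mc * n ^ 2 * (1 + 4 * l / ε) := by gcongr
      _ = Mc * (1 + 4 * l / ε) * n * n := by ring
      _ ≤ 1 / 8 * n := by gcongr
      _ ≤ y / 8 := by linarith
  have h4 : 864 * q ^ 3 / ε ^ 2 * n ^ 2 / y ≤ y / 8 := by
    have h5 : n ^ 2 ≤ (ε * y / (100 * q ^ 2)) ^ 2 := by gcongr
    calc 864 * q ^ 3 / ε ^ 2 * n ^ 2 / y
        ≤ 864 * q ^ 3 / ε ^ 2 * (ε * y / (100 * q ^ 2)) ^ 2 / y := by gcongr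
      _ = 864 / 10000 * (y / q) := by
          field_simp
          norm_num
      _ ≤ 864 / 10000 * y := by
          have : y / q ≤ y := div_le_self hy.le hq
          linarith
      _ ≤ y / 8 := by linarith
  linarith

theorem phi_le {q ε Mc n y : ℝ} (hq : 1 ≤ q) (hε : 0 < ε) (hε1 : ε ≤ 1 / 2)
    (hn : 0 ≤ n) (hy : 0 < y) (hny : 100 * q ^ 2 / ε * n < y)
    (hR : 2 * Mc * n ^ 2 ≤ 1 / 8) : phiB q ε Mc n y * n ≤ 1 / 2 := by
  unfold phiB
  have h1 : n ≤ ε * y / (100 * q ^ 2) := by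
    rw [le_div_iff₀ (by positivity)]
    have : 100 * q ^ 2 / ε * n * ε < y * ε := mul_lt_mul_of_pos_right hny hε
    have e : 100 * q ^ 2 / ε * n * ε = n * (100 * q ^ 2) := by
      field_simp
    linarith
  have h4 : 216 * q ^ 3 / ε * n ^ 2 / y ^ 2 ≤ 1 / 8 := by
    have h5 : n ^ 2 ≤ (ε * y / (100 * q ^ 2)) ^ 2 := by gcongr
    calc 216 * q ^ 3 / ε * n ^ 2 / y ^ 2
        ≤ 216 * q ^ 3 / ε * (ε * y / (100 * q ^ 2)) ^ 2 / y ^ 2 := by gcongr
      _ = 216 / 10000 * (ε / q) := by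
          field_simp
          norm_num
      _ ≤ 216 / 10000 * ε := by
          have : ε / q ≤ ε := div_le_self hε.le hq
          linarith
      _ ≤ 1 / 8 := by linarith
  have e : (2 * Mc * n + 216 * q ^ 3 / ε * n / y ^ 2) * n =
      2 * Mc * n ^ 2 + 216 * q ^ 3 / ε * n ^ 2 / y ^ 2 := by ring
  rw [e]
  linarith

theorem inv_close {s η : ℂ} {φ : ℝ} (hs : s ≠ 0) (hη : η ≠ 0) (h1 : ‖s⁻¹ - η⁻¹‖ ≤ φ)
    (h2 : φ * ‖η‖ ≤ 1 / 2) : ‖s‖ ≤ 2 * ‖η‖ ∧ ‖s - η‖ ≤ 2 * ‖η‖ ^ 2 * φ := by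
  have hη0 : 0 < ‖η‖ := norm_pos_iff.2 hη
  have hs0 : 0 < ‖s‖ := norm_pos_iff.2 hs
  have h3 : ‖η‖⁻¹ - φ ≤ ‖s‖⁻¹ := by
    have h4 := norm_sub_norm_le η⁻¹ s⁻¹
    rw [norm_inv, norm_inv, norm_sub_rev] at h4
    linarith
  have h4 : 1 / 2 * ‖η‖⁻¹ ≤ ‖s‖⁻¹ := by
    have h5 : φ ≤ 1 / 2 * ‖η‖⁻¹ := by
      rw [← div_eq_mul_inv, le_div_iff₀ hη0]
      exact h2
    linarith
  have h5 : ‖s‖ ≤ 2 * ‖η‖ := by
    have h6 := inv_anti₀ (by positivity) h4
    rw [inv_inv] at h6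
    refine h6.trans (le_of_eq ?_)
    field_simp
  refine ⟨h5, ?_⟩
  have h6 : s - η = -(s * η * (s⁻¹ - η⁻¹)) := by
    field_simp
    ring
  rw [h6, norm_neg, norm_mul, norm_mul]
  have hφ : 0 ≤ φ := (norm_nonneg _).trans h1
  calc ‖s‖ * ‖η‖ * ‖s⁻¹ - η⁻¹‖ ≤ (2 * ‖η‖) * ‖η‖ * φ := by gcongr
    _ = _ := by ring

end Pool.Agent.MP_ae5b4e_an_NB2
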