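import Pool.Agent.Lib.MP_ae5b4e_an_NB2.WGeo

/-!
# MP_ae5b4e_an, project NB_2: Lemma W, induction over the layers
-/

noncomputable section

namespace Pool.Agent.MP_ae5b4e_an_NB2

open Complex Set Filter Topology Metric
open Pool.Agent.MP_ae5b4e_an_NBT (St isOpen_St convex_St)
open Pool.Agent.Lib.MP_ae5b4e_an_LL

/-- the constants of the construction -/
structure WCon (Y : Sys) (h b l q ε R Mc : ℝ) (M : ℂ × ℂ → ℂ) : Prop where
  on : Y.On (St (-h) h)
  arc : Arc Y h b l q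
  ε_pos : 0 < ε
  ε_le : ε ≤ 1 / 2
  R_pos : 0 < R
  Mc_nonneg : 0 ≤ Mc
  R1 : R ≤ ε * l / 64
  R2 : 2 * Mc * R ^ 2 ≤ 1 / 8
  R3 : Mc * (1 + 4 * l / ε) * R ≤ 1 / 8
  an : ∀ p ∈ WN h b l ε (100 * q ^ 2 / ε) R 0, AnalyticAt ℂ M p
  quad : ∀ p ∈ WN h b l ε (100 * q ^ 2 / ε) R 0, ‖M p - p.1‖ ≤ Mc * ‖p.2‖ ^ 2
  lip : ∀ p ∈ WN h b l ε (100 * q ^ 2 / ε) R 0, sh 1 p ∈ WN h b l ε (100 * q ^ 2 / ε) R 0 →
    ‖(M p - p.1) - (M (sh 1 p) - (sh 1 p).1)‖ ≤ Mc * ‖p.2‖ ^ 2 * ‖p.2‖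
  node : ∀ p ∈ WN h b l ε (100 * q ^ 2 / ε) R 0, sh 1 p ∈ WN h b l ε (100 * q ^ 2 / ε) R 0 →
    Y.node (M (sh 1 p)) (M p) (M (sh 2 p))

/-- the invariants -/
structure WInv (h b l q ε R Mc : ℝ) (M : ℂ × ℂ → ℂ) (N : ℕ) (Λ : ℂ × ℂ → ℂ) : Prop where
  an : AnalyticOnNhd ℂ Λ (WN h b l ε (100 * q ^ 2 / ε) R N)
  eq0 : ∀ p ∈ WN h b l ε (100 * q ^ 2 / ε) R 0, Λ p = M p
  i1 : ∀ p ∈ WN h b l ε (100 * q ^ 2 / ε) R N,
    ‖Λ p - p.1‖ ≤ psiB q ε Mc l ‖p.2‖ (dep h p.1)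
  i2 : ∀ p ∈ WN h b l ε (100 * q ^ 2 / ε) R N, sh 1 p ∈ WN h b l ε (100 * q ^ 2 / ε) R N →
    Λ p ≠ Λ (sh 1 p) ∧ ‖(Λ p - Λ (sh 1 p))⁻¹ - p.2⁻¹‖ ≤ phiB q ε Mc ‖p.2‖ (dep h p.1)

variable {Y : Sys} {h b l q ε R Mc : ℝ} {M Λ : ℂ × ℂ → ℂ} {N : ℕ} {p : ℂ × ℂ}

namespace WCon

theorem C_nonneg (hW : WCon Y h b l q ε R Mc M) : 0 ≤ 100 * q ^ 2 / ε := by
  have := hW.ε_pos
  positivity

theorem ne_zero (hW : WCon Y h b l q ε R Mc M) {C : ℝ} (hp : p ∈ WN h b l ε C R N) :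
    p.2 ≠ 0 := by
  intro h0
  have := im_pos_of_mem hW.ε_pos hp
  rw [h0] at this
  simp at this

theorem quad_psi (hW : WCon Y h b l q ε R Mc M) {C : ℝ} (hp : p ∈ WN h b l ε C R N) :
    Mc * ‖p.2‖ ^ 2 ≤ psiB q ε Mc l ‖p.2‖ (dep h p.1) := by
  have hε := hW.ε_pos
  have hMc := hW.Mc_nonneg
  have hl := hW.arc.l_pos
  have hq := hW.arc.q_one
  unfold psiB
  have h1 : 0 ≤ 864 * q ^ 3 / ε ^ 2 * ‖p.2‖ ^ 2 / dep h p.1 := by
    have := hp.2.1
    positivity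
  have h2 : 0 ≤ 4 * (l - dep h p.1) / ε := by
    have := hp.2.2.1
    have : 0 ≤ l - dep h p.1 := by linarith
    positivity
  have h3 : 0 ≤ Mc * ‖p.2‖ ^ 2 * (4 * (l - dep h p.1) / ε) := by positivity
  nlinarith

theorem phi_half (hW : WCon Y h b l q ε R Mc M)
    (hp : p ∈ WN h b l ε (100 * q ^ 2 / ε) R N) :
    phiB q ε Mc ‖p.2‖ (dep h p.1) * ‖p.2‖ ≤ 1 / 2 := by
  have hMc := hW.Mc_nonneg
  refine phi_le hW.arc.q_one hW.ε_pos hW.ε_le (norm_nonneg _) hp.2.1 hp.2.2.2.2.2.1 ?_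
  refine le_trans ?_ hW.R2
  have := hp.2.2.2.1
  gcongr

theorem psi_quarter (hW : WCon Y h b l q ε R Mc M)
    (hp : p ∈ WN h b l ε (100 * q ^ 2 / ε) R N) :
    psiB q ε Mc l ‖p.2‖ (dep h p.1) ≤ dep h p.1 / 4 := by
  have hMc := hW.Mc_nonneg
  have hε := hW.ε_pos
  have hl := hW.arc.l_pos
  refine psi_le hW.arc.q_one hW.ε_pos hW.ε_le hMc (norm_nonneg _) hp.2.1 hp.2.2.2.2.2.1 ?_
  refine le_trans ?_ hW.R3
  have := hp.2.2.2.1
  gcongr

/-- the base of the induction -/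
theorem base (hW : WCon Y h b l q ε R Mc M) : WInv h b l q ε R Mc M 0 M where
  an := hW.an
  eq0 _ _ := rfl
  i1 p hp := (hW.quad p hp).trans (hW.quad_psi hp)
  i2 p hp hp1 := by
    have hMc := hW.Mc_nonneg
    have hε := hW.ε_pos
    have hq := hW.arc.q_one
    have hη := hW.ne_zero hp
    have hn : 0 < ‖p.2‖ := norm_pos_iff.2 hη
    set s := M p - M (sh 1 p) with hs
    have h1 : ‖s - p.2‖ ≤ Mc * ‖p.2‖ ^ 2 * ‖p.2‖ := by
      have h2 := hW.lip p hp hp1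
      have h3 : (M p - p.1) - (M (sh 1 p) - (sh 1 p).1) = s - p.2 := by
        unfold sh at hs ⊢
        simp only [hs, Nat.cast_one, one_mul]
        ring
      rwa [h3] at h2
    have h2 : Mc * ‖p.2‖ ^ 2 ≤ 1 / 16 := by
      have h3 := hW.R2
      have h4 := hp.2.2.2.1
      have h5 : Mc * ‖p.2‖ ^ 2 ≤ Mc * R ^ 2 := by gcongr
      linarith
    have h3 : ‖p.2‖ / 2 ≤ ‖s‖ := by
      have h4 := norm_sub_norm_le p.2 s
      rw [norm_sub_rev p.2 s] at h4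
      nlinarith
    have hs0 : s ≠ 0 := by
      rw [← norm_pos_iff]
      linarith
    refine ⟨sub_ne_zero.1 hs0, ?_⟩
    have h4 : s⁻¹ - p.2⁻¹ = -((s - p.2) / (s * p.2)) := by
      field_simp
      ring
    rw [h4, norm_neg, norm_div, norm_mul, div_le_iff₀ (by positivity)]
    have h5 : 2 * Mc * ‖p.2‖ ≤ phiB q ε Mc ‖p.2‖ (dep h p.1) := by
      unfold phiB
      have : 0 ≤ 216 * q ^ 3 / ε * ‖p.2‖ / dep h p.1 ^ 2 := by positivity
      linarith
    have h6 : 0 ≤ phiB q ε Mc ‖p.2‖ (dep h p.1) := le_trans (by positivity) h5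
    calc ‖s - p.2‖ ≤ Mc * ‖p.2‖ ^ 2 * ‖p.2‖ := h1
      _ = 2 * Mc * ‖p.2‖ * (‖p.2‖ / 2 * ‖p.2‖) := by ring
      _ ≤ phiB q ε Mc ‖p.2‖ (dep h p.1) * (‖s‖ * ‖p.2‖) := by gcongr

/-- a label near the depth `y` has the node radius `y / (6 q)` -/
theorem nod (hW : WCon Y h b l q ε R Mc M) {t m : ℂ} (h1 : |t.re - b| < 7 * l / 8)
    (h2 : 0 < dep h t) (h3 : dep h t < ε * l / 8) (h4 : ‖m - t‖ ≤ dep h t / 4) :
    Y.Nod (St (-h) h) m (dep h t / (6 * q)) := by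
  have hq := hW.arc.q_one
  have hl := hW.arc.l_pos
  have hl2 := hW.arc.l_le
  have hε := hW.ε_le
  have hr : dep h t / (6 * q) ≤ dep h t / 6 := by
    apply div_le_div_of_nonneg_left h2.le (by norm_num)
    linarith
  have hεl : ε * l / 8 ≤ l / 16 := by nlinarith
  have key : ∀ z ∈ ball m (dep h t / (6 * q)), |z.re - b| < l ∧ 7 / 12 * dep h t < dep h z ∧
      dep h z < l := by
    intro z hz
    rw [mem_ball, dist_eq_norm] at hz
    have h5 : ‖z - t‖ < 5 / 12 * dep h t := by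
      have : z - t = (z - m) + (m - t) := by ring
      rw [this]
      refine (norm_add_le _ _).trans_lt ?_
      linarith
    have h6 := (Complex.abs_re_le_norm (z - t)).trans_lt h5
    have h7 := (Complex.abs_im_le_norm (z - t)).trans_lt h5
    rw [Complex.sub_re, abs_lt] at h6
    rw [Complex.sub_im, abs_lt] at h7
    rw [abs_lt] at h1
    refine ⟨?_, ?_, ?_⟩
    · rw [abs_lt]
      constructor <;> linarith
    · unfold dep at *
      linarith
    · unfold dep at *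
      linarith
  refine ⟨by positivity, fun z hz => ?_, fun z hz => ?_⟩
  · obtain ⟨-, k2, k3⟩ := key z hz
    unfold dep at k2 k3 h2
    constructor <;> linarith
  · obtain ⟨k1, k2, k3⟩ := key z hz
    have k0 : 0 < dep h z := lt_trans (by positivity) k2
    have k4 := hW.arc.bd z k1 k0 k3
    have k5 : (7 / 12 * dep h t) ^ 2 ≤ dep h z ^ 2 := by gcongr
    have k6 : ‖Y.Q z‖ * (7 / 12 * dep h t) ^ 2 ≤ q ^ 2 :=
      (mul_le_mul_of_nonneg_left k5 (norm_nonneg _)).trans k4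
    have k7 : ‖Y.Q z‖ * (4 * (dep h t / (6 * q)) ^ 2) =
        (‖Y.Q z‖ * (7 / 12 * dep h t) ^ 2) * (16 / 49 / q ^ 2) := by
      field_simp
      ring
    rw [k7]
    calc (‖Y.Q z‖ * (7 / 12 * dep h t) ^ 2) * (16 / 49 / q ^ 2) ≤ q ^ 2 * (16 / 49 / q ^ 2) := by
          gcongr
      _ = 16 / 49 := by field_simp
      _ ≤ 1 := by norm_num

/-- the induction step -/
theorem step (hW : WCon Y h b l q ε R Mc M) (hΛ : WInv h b l q ε R Mc M N Λ) :
    ∃ Λ' : ℂ × ℂ → ℂ, WInv h b l q ε R Mc M (N + 1) Λ' := by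
  classical
  have hε := hW.ε_pos
  have hε1 := hW.ε_le
  have hl := hW.arc.l_pos
  have hq := hW.arc.q_one
  have hR := hW.R_pos
  have hMc := hW.Mc_nonneg
  have hC := hW.C_nonneg
  set C := 100 * q ^ 2 / ε with hCdef
  have hS := isOpen_St (-h) h
  -- the new part
  set B : Set (ℂ × ℂ) := WN h b l ε C R (N + 1) ∩ {p | dep h p.1 < 3 * ε * l / 32} with hB
  have hBo : IsOpen B := isOpen_WN.inter
    (isOpen_lt ((continuous_dep h).comp continuous_fst) continuous_const)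
  have hB1 : MapsTo (sh 1) B (WN h b l ε C R N) := fun p hp =>
    sh_mem hε hε1 hl hW.R1 hp.1 hp.2 le_rfl one_le_two
  have hB2 : MapsTo (sh 2) B (WN h b l ε C R N) := fun p hp =>
    sh_mem hε hε1 hl hW.R1 hp.1 hp.2 one_le_two le_rfl
  have hss : ∀ p : ℂ × ℂ, sh 1 (sh 1 p) = sh 2 p := by
    intro p
    unfold sh
    ext
    · simp
      ring
    · rfl
  set r : ℂ × ℂ → ℝ := fun p => dep h (sh 1 p).1 / (6 * q) with hr
  have hrc : ContinuousOn r B := by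
    apply Continuous.continuousOn
    exact ((continuous_dep h).comp (continuous_fst.comp (continuous_sh 1))).div_const _
  have him : ∀ p ∈ B, 0 < p.2.im := fun p hp => im_pos_of_mem hε hp.1
  have him' : ∀ p : ℂ × ℂ, p.2.im ≤ ‖p.2‖ := fun p =>
    (le_abs_self _).trans (Complex.abs_im_le_norm _)
  have hd1 : ∀ p : ℂ × ℂ, dep h (sh 1 p).1 = dep h p.1 + p.2.im := fun p => by
    rw [dep_sh]
    simp
  have hd8 : ∀ p ∈ B, dep h (sh 1 p).1 < ε * l / 8 := by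
    intro p hp
    have h1 := hp.1.2.2.2.1
    have h2 : dep h p.1 < 3 * ε * l / 32 := hp.2
    have h3 := him' p
    have h4 := hW.R1
    rw [hd1]
    linarith
  have hre1 : ∀ p ∈ B, |(sh 1 p).1.re - b| < 7 * l / 8 := by
    intro p hp
    have h1 := (hB1 hp).1
    have h2 : min (dep h (sh 1 p).1) (ε * l / 8) / ε ≤ l / 8 := by
      rw [div_le_iff₀ hε]
      have := min_le_right (dep h (sh 1 p).1) (ε * l / 8)
      linarith
    linarith
  have hclose : ∀ p ∈ WN h b l ε C R N, ‖Λ p - p.1‖ ≤ dep h p.1 / 4 := fun p hp =>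
    (hΛ.i1 p hp).trans (hW.psi_quarter hp)
  have hinS : ∀ p ∈ WN h b l ε C R N, Λ p ∈ St (-h) h := by
    intro p hp
    have h1 := hclose p hp
    have h2 := (Complex.abs_im_le_norm _).trans h1
    rw [Complex.sub_im, abs_le] at h2
    have h3 := hp.2.1
    have h4 := hp.2.2.1
    have h5 := hW.arc.l_le
    unfold dep at h2 h3 h4
    constructor <;> linarith
  have hN : ∀ p ∈ B, Y.Nod (St (-h) h) (Λ (sh 1 p)) (r p) := fun p hp =>
    hW.nod (hre1 p hp) (hB1 hp).2.1 (hd8 p hp) (hclose _ (hB1 hp))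
  have hi2 : ∀ p ∈ B, Λ (sh 1 p) ≠ Λ (sh 2 p) ∧
      ‖(Λ (sh 1 p) - Λ (sh 2 p))⁻¹ - p.2⁻¹‖ ≤ phiB q ε Mc ‖p.2‖ (dep h (sh 1 p).1) := by
    intro p hp
    have h1 := hΛ.i2 (sh 1 p) (hB1 hp) (by
      rw [hss]
      exact hB2 hp)
    rw [hss] at h1
    exact h1
  have hη : ∀ p ∈ B, p.2 ≠ 0 := fun p hp => hW.ne_zero hp.1
  have hphi1 : ∀ p ∈ B, phiB q ε Mc ‖p.2‖ (dep h (sh 1 p).1) * ‖p.2‖ ≤ 1 / 2 := fun p hp =>
    hW.phi_half (hB1 hp)
  have hs2 : ∀ p ∈ B, ‖Λ (sh 1 p) - Λ (sh 2 p)‖ ≤ 2 * ‖p.2‖ := fun p hp =>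
    (inv_close (sub_ne_zero.2 (hi2 p hp).1) (hη p hp) (hi2 p hp).2 (hphi1 p hp)).1
  have hny : ∀ p ∈ B, ‖p.2‖ ≤ dep h p.1 / (200 * q ^ 2) := by
    intro p hp
    have h1 : C * ‖p.2‖ < dep h p.1 := hp.1.2.2.2.2.2.1
    rw [le_div_iff₀ (by positivity)]
    have h2 : 200 * q ^ 2 ≤ C := by
      rw [hCdef, le_div_iff₀ hε]
      nlinarith [sq_nonneg q]
    nlinarith [norm_nonneg p.2]
  have hs8 : ∀ p ∈ B, ‖Λ (sh 1 p) - Λ (sh 2 p)‖ ≤ r p / 8 := by
    intro p hp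
    refine (hs2 p hp).trans ?_
    have h1 := hny p hp
    have h2 : r p = (dep h p.1 + p.2.im) / (6 * q) := by
      simp only [hr]
      rw [hd1]
    have h3 := him p hp
    have h4 : 0 < dep h p.1 := hp.1.2.1
    rw [h2]
    have h5 : dep h p.1 / (200 * q ^ 2) ≤ dep h p.1 / (200 * q) := by
      apply div_le_div_of_nonneg_left h4.le (by positivity)
      nlinarith
    have h6 : 2 * (dep h p.1 / (200 * q)) ≤ (dep h p.1 + p.2.im) / (6 * q) / 8 := by
      rw [div_div, ← mul_div_assoc, div_le_div_iff₀ (by positivity) (by positivity)]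
      nlinarith [mul_pos h4 (show (0:ℝ) < q by linarith), mul_pos h3 (show (0:ℝ) < q by linarith)]
    linarith
  obtain ⟨Λ₁, hΛ₁, hΛ₁'⟩ := layer hW.on hS hΛ.an hBo hrc hB1 hB2
    (fun p hp => hinS _ (hB2 hp)) hN (fun p hp => (hi2 p hp).1) hs8
  set Λ' : ℂ × ℂ → ℂ := fun p => if p ∈ WN h b l ε C R 0 then M p else Λ₁ p with hΛ'
  have heq0 : ∀ p ∈ WN h b l ε C R 0, Λ' p = M p := fun p hp => by
    simp only [hΛ']
    rw [if_pos hp]
  -- on the overlap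
  have hov : ∀ p ∈ B, Λ' p = Λ₁ p := by
    intro p hp
    by_cases h0 : p ∈ WN h b l ε C R 0
    · rw [heq0 p h0]
      have h1 : sh 1 p ∈ WN h b l ε C R 0 := by
        apply mem_WN_zero (hB1 hp)
        rw [hd1]
        have h2 : ε * l / 16 < dep h p.1 + (0:ℕ) * p.2.im := h0.2.2.2.2.2.2
        rw [Nat.cast_zero, zero_mul, add_zero] at h2
        have := him p hp
        linarith
      have h2 : sh 2 p ∈ WN h b l ε C R 0 := by
        apply mem_WN_zero (hB2 hp)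
        rw [dep_sh]
        have h2 : ε * l / 16 < dep h p.1 + (0:ℕ) * p.2.im := h0.2.2.2.2.2.2
        rw [Nat.cast_zero, zero_mul, add_zero] at h2
        have := him p hp
        push_cast
        linarith
      have h3 := hW.node p h0 h1
      rw [← hΛ.eq0 _ h1, ← hΛ.eq0 _ h2] at h3
      obtain ⟨k1, k2, k3, k4, k5⟩ := hΛ₁' p hp
      have hrp := (hN p hp).pos
      have h4 := (hΛ.i2 p (WN_mono hε (Nat.zero_le N) h0) (hB1 hp))
      have h5 := inv_close (sub_ne_zero.2 h4.1) (hη p hp) h4.2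
        (hW.phi_half (WN_mono hε (Nat.zero_le N) h0))
      rw [hΛ.eq0 p h0] at h5
      -- the same bound as for the step
      have h6 : 2 * ‖p.2‖ < r p / 2 := by
        have e1 := hny p hp
        have h4 : 0 < dep h p.1 := hp.1.2.1
        have h3 := him p hp
        have h2 : r p = (dep h p.1 + p.2.im) / (6 * q) := by
          simp only [hr]
          rw [hd1]
        have h5 : dep h p.1 / (200 * q ^ 2) ≤ dep h p.1 / (200 * q) := by
          apply div_le_div_of_nonneg_left h4.le (by positivity)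
          nlinarith
        have h6 : 2 * (dep h p.1 / (200 * q)) < (dep h p.1 + p.2.im) / (6 * q) / 2 := by
          rw [div_div, ← mul_div_assoc, div_lt_div_iff₀ (by positivity) (by positivity)]
          nlinarith [mul_pos h4 (show (0:ℝ) < q by linarith),
            mul_pos h3 (show (0:ℝ) < q by linarith)]
        rw [h2]
        linarith
      have h7 := step_unique hW.on hS (hN p hp) (s₁ := M p - Λ (sh 1 p))
        (s₂ := Λ₁ p - Λ (sh 1 p)) (s' := Λ (sh 1 p) - Λ (sh 2 p)) (by linarith [h5.1]) (by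
          have := hs8 p hp
          linarith) (sub_ne_zero.2 (hi2 p hp).1) (by
          have := hs8 p hp
          linarith) (by
          rw [add_sub_cancel, sub_sub_cancel]
          exact h3) (by
          rw [add_sub_cancel, sub_sub_cancel]
          exact k4)
      exact sub_left_inj.1 h7
    · simp only [hΛ']
      rw [if_neg h0]
  have hcover : ∀ p ∈ WN h b l ε C R (N + 1), p ∈ WN h b l ε C R 0 ∨ p ∈ B := fun p hp =>
    (mem_zero_or hε hl hp).imp_right fun h1 => ⟨hp, h1⟩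
  have hΛ'an : AnalyticOnNhd ℂ Λ' (WN h b l ε C R (N + 1)) := by
    intro p hp
    rcases hcover p hp with h1 | h1
    · refine (hW.an p h1).congr ?_
      filter_upwards [isOpen_WN.mem_nhds h1] with x hx
      exact (heq0 x hx).symm
    · refine (hΛ₁ p h1).congr ?_
      filter_upwards [hBo.mem_nhds h1] with x hx
      exact (hov x hx).symm
  have heqN : ∀ p ∈ WN h b l ε C R N, Λ' p = Λ p :=
    WN_unique hε hε1 hl hR hC (hΛ'an.mono (WN_mono hε (Nat.le_succ N))) hΛ.an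
      fun p hp => by rw [heq0 p hp, hΛ.eq0 p hp]
  -- the estimates on the new part
  have hnew2 : ∀ p ∈ B, Λ' p ≠ Λ' (sh 1 p) ∧
      ‖(Λ' p - Λ' (sh 1 p))⁻¹ - p.2⁻¹‖ ≤ phiB q ε Mc ‖p.2‖ (dep h p.1) := by
    intro p hp
    rw [hov p hp, heqN _ (hB1 hp)]
    obtain ⟨k1, k2, k3, k4, k5⟩ := hΛ₁' p hp
    refine ⟨k2, ?_⟩
    have hy : 0 < dep h p.1 := hp.1.2.1
    have ha := him p hp
    have h1 := phi_step (Mc := Mc) (n := ‖p.2‖) (y := dep h p.1) (a := p.2.im) hq hε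
      (norm_nonneg _) hp.1.2.2.2.2.1.le ha hy
    have h2 := (hi2 p hp).2
    rw [hd1] at h2
    have h3 : 1 / 2 * ‖Λ (sh 1 p) - Λ (sh 2 p)‖ ^ 2 / r p ^ 3 ≤
        432 * q ^ 3 * ‖p.2‖ ^ 2 / (dep h p.1 + p.2.im) ^ 3 := by
      have h4 : r p = (dep h p.1 + p.2.im) / (6 * q) := by
        simp only [hr]
        rw [hd1]
      have h5 := hs2 p hp
      calc 1 / 2 * ‖Λ (sh 1 p) - Λ (sh 2 p)‖ ^ 2 / r p ^ 3
          ≤ 1 / 2 * (2 * ‖p.2‖) ^ 2 / r p ^ 3 := by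
            have := (hN p hp).pos
            gcongr
        _ = 432 * q ^ 3 * ‖p.2‖ ^ 2 / (dep h p.1 + p.2.im) ^ 3 := by
            rw [h4]
            field_simp
            ring
    have h4 : (Λ₁ p - Λ (sh 1 p))⁻¹ - p.2⁻¹ =
        ((Λ₁ p - Λ (sh 1 p))⁻¹ - (Λ (sh 1 p) - Λ (sh 2 p))⁻¹) +
        ((Λ (sh 1 p) - Λ (sh 2 p))⁻¹ - p.2⁻¹) := by ring
    rw [h4]
    refine (norm_add_le _ _).trans ?_
    linarith
  refine ⟨Λ', hΛ'an, heq0, fun p hp => ?_, fun p hp hp1 => ?_⟩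
  · rcases hcover p hp with h1 | h1
    · rw [heq0 p h1]
      exact (hW.quad p h1).trans (hW.quad_psi h1)
    · have h2 := hnew2 p h1
      have h3 := inv_close (sub_ne_zero.2 h2.1) (hη p h1) h2.2 (hW.phi_half hp)
      have h4 := hΛ.i1 (sh 1 p) (hB1 h1)
      have h5 : ‖(sh 1 p).2‖ = ‖p.2‖ := rfl
      rw [h5, hd1, ← heqN _ (hB1 h1)] at h4
      have hy : 0 < dep h p.1 := hp.2.1
      have ha := him p h1
      have hay : p.2.im ≤ dep h p.1 := by
        have e1 := hny p h1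
        have e2 : dep h p.1 / (200 * q ^ 2) ≤ dep h p.1 := by
          apply div_le_self hy.le
          nlinarith
        exact (him' p).trans (e1.trans e2)
      have h6 := psi_step (Mc := Mc) (l := l) (n := ‖p.2‖) (y := dep h p.1) (a := p.2.im) hq hε
        hMc (norm_nonneg _) hp.2.2.2.2.1.le ha hy hay
      have h7 : Λ' p - p.1 = (Λ' (sh 1 p) - (sh 1 p).1) + ((Λ' p - Λ' (sh 1 p)) - p.2) := by
        unfold sh
        simp only [Nat.cast_one, one_mul]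
        ring
      rw [h7]
      refine (norm_add_le _ _).trans ?_
      linarith [h3.2]
  · rcases hcover p hp with h1 | h1
    · have h2 : sh 1 p ∈ WN h b l ε C R 0 := by
        apply mem_WN_zero hp1
        rw [hd1]
        have h2 : ε * l / 16 < dep h p.1 + (0:ℕ) * p.2.im := h1.2.2.2.2.2.2
        rw [Nat.cast_zero, zero_mul, add_zero] at h2
        have := im_pos_of_mem hε hp
        linarith
      rw [heq0 p h1, heq0 _ h2]
      exact hW.base.i2 p h1 h2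
    · exact hnew2 p h1

theorem exists_all (hW : WCon Y h b l q ε R Mc M) (N : ℕ) :
    ∃ Λ : ℂ × ℂ → ℂ, WInv h b l q ε R Mc M N Λ := by
  induction N with
  | zero => exact ⟨M, hW.base⟩
  | succ N ih =>
    obtain ⟨Λ, hΛ⟩ := ih
    exact hW.step hΛ

end WCon

end Pool.Agent.MP_ae5b4e_an_NB2
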